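import Mathlib
import Pool.Graph.R_seed8.H789R5.RF.Rank

/-!
# Attaching clusters to a graph: the rank does not decrease more than it should
-/

set_option autoImplicit false
set_option linter.unusedSectionVars false

namespace Pool.Agent.H557.RG

open Matrix Finset Pool.Agent.H283R2.DR Pool.Agent.H789R5

variable {V H C : Type} {d : ℕ}

/-! ### Good properties and linear maps -/

theorem good_comp {E E' : Type*} [AddCommGroup E] [Module ℝ E] [AddCommGroup E'] [Module ℝ E']
    (L : E →ₗ[ℝ] E') {P : E' → Prop} (h : TA.Good P) : TA.Good (fun p => P (L p)) := by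
  intro p0 p1 h0
  refine (h (L p0) (L p1) h0).subset ?_
  intro s hs
  rw [Set.mem_ofPred_eq] at *
  change ¬ P (L (p0 + s • (p1 - p0))) at hs
  rw [map_add, map_smul, map_sub] at hs
  exact hs

/-- restriction of placements -/
def restr {X Y : Type} (f : X → Y) (d : ℕ) : (Y → Fin d → ℝ) →ₗ[ℝ] (X → Fin d → ℝ) where
  toFun p x := p (f x)
  map_add' _ _ := rfl
  map_smul' _ _ := rfl

theorem restr_apply {X Y : Type} (f : X → Y) (p : Y → Fin d → ℝ) (x : X) :
    restr f d p x = p (f x) := rfl

theorem restr_sat {X Y : Type} (f : X → Y) (hf : Function.Injective f)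
    {P : (X → Fin d → ℝ) → Prop} (h : ∃ p, P p) : ∃ p, P (restr f d p) := by
  obtain ⟨p, hp⟩ := h
  refine ⟨Function.extend f p 0, ?_⟩
  have : restr f d (Function.extend f p 0) = p := by
    funext x
    rw [restr_apply, hf.extend_apply]
  rw [this]
  exact hp

open Classical in
/-- velocities on the cluster `c`, zero elsewhere -/
noncomputable def inc (V : Type) (c : C) (d : ℕ) :
    (H → Fin d → ℝ) →ₗ[ℝ] (V ⊕ C × H → Fin d → ℝ) where
  toFun u x := Sum.elim (fun _ => 0) (fun y => if y.1 = c then u y.2 else 0) x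
  map_add' u u' := by
    funext x
    rcases x with v | ⟨c', h⟩
    · simp
    · by_cases hc : c' = c <;> simp [hc]
  map_smul' r u := by
    funext x
    rcases x with v | ⟨c', h⟩
    · simp
    · by_cases hc : c' = c <;> simp [hc]

theorem inc_inl (c : C) (u : H → Fin d → ℝ) (v : V) : inc V c d u (Sum.inl v) = 0 := rfl

theorem inc_inr_self (c : C) (u : H → Fin d → ℝ) (h : H) :
    inc V c d u (Sum.inr (c, h)) = u h := by
  simp [inc]

theorem inc_inr_ne {c c' : C} (hc : c' ≠ c) (u : H → Fin d → ℝ) (h : H) :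
    inc V c d u (Sum.inr (c', h)) = 0 := by
  simp [inc, hc]

/-- Nothing in the cluster `c` can move when the base is pinned. -/
def Pinned (A : SimpleGraph (V ⊕ C × H)) (c : C) (p : V ⊕ C × H → Fin d → ℝ) : Prop :=
  Function.Injective ((TA.rig A p).comp (inc V c d))

theorem pinned_good [Finite H] (A : SimpleGraph (V ⊕ C × H)) (c : C) :
    TA.Good (Pinned (d := d) A c) := by
  intro p0 p1 h0
  refine (TA.inj_good ((TA.rig A p0).comp (inc V c d)) ((TA.rig A (p1 - p0)).comp (inc V c d))
    h0).subset ?_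
  intro s hs
  rw [Set.mem_ofPred_eq] at *
  intro hi
  apply hs
  unfold Pinned
  rw [TA.rig_line]
  exact hi

theorem pinned_of {A : SimpleGraph (V ⊕ C × H)} {c : C} {p : V ⊕ C × H → Fin d → ℝ}
    (h : ∀ q, IsMotion A p q → (∀ v, q (Sum.inl v) = 0) → ∀ x, q (Sum.inr (c, x)) = 0) :
    Pinned A c p := by
  unfold Pinned
  rw [injective_iff_map_eq_zero]
  intro u hu
  funext x
  have h1 := h (inc V c d u) ((TA.mem_ker_rig A p _).1 (LinearMap.mem_ker.2 hu))
    (fun v => inc_inl c u v) x
  rw [inc_inr_self] at h1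
  exact h1

/-- no edges inside of the base or between different clusters -/
structure Clustered (A : SimpleGraph (V ⊕ C × H)) : Prop where
  base : ∀ u v : V, ¬ A.Adj (Sum.inl u) (Sum.inl v)
  clus : ∀ (c c' : C) (x y : H), A.Adj (Sum.inr (c, x)) (Sum.inr (c', y)) → c = c'

theorem zero_of_pinned {A : SimpleGraph (V ⊕ C × H)} (hA : Clustered A)
    {p q : V ⊕ C × H → Fin d → ℝ} (hp : ∀ c, Pinned A c p) (hq : IsMotion A p q)
    (h0 : ∀ v, q (Sum.inl v) = 0) : q = 0 := by
  funext x
  rcases x with v | ⟨c, x⟩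
  · exact h0 v
  · have h1 : IsMotion A p (inc V c d fun x => q (Sum.inr (c, x))) := by
      intro a b hab
      rcases a with u | ⟨c1, x1⟩ <;> rcases b with v | ⟨c2, x2⟩
      · exact absurd hab (hA.base u v)
      · rw [inc_inl]
        by_cases hc : c2 = c
        · subst hc
          rw [inc_inr_self, ← h0 u]
          exact hq _ _ hab
        · rw [inc_inr_ne hc, sub_zero, dotProduct_zero]
      · rw [inc_inl]
        by_cases hc : c1 = c
        · subst hc
          rw [inc_inr_self, ← h0 v]
          exact hq _ _ hab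
        · rw [inc_inr_ne hc, sub_zero, dotProduct_zero]
      · obtain rfl := hA.clus _ _ _ _ hab
        by_cases hc : c1 = c
        · subst hc
          rw [inc_inr_self, inc_inr_self]
          exact hq _ _ hab
        · rw [inc_inr_ne hc, inc_inr_ne hc, sub_zero, dotProduct_zero]
    have h2 := (injective_iff_map_eq_zero _).1 (hp c) (fun x => q (Sum.inr (c, x))) (by
      have := LinearMap.mem_ker.1 ((TA.mem_ker_rig A p _).2 h1)
      exact this)
    exact congrFun h2 x

/-- the base graph, on the vertices of the extension -/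
abbrev up (H C : Type) (G : SimpleGraph V) : SimpleGraph (V ⊕ C × H) :=
  G.map (Function.Embedding.inl : V ↪ V ⊕ C × H)

theorem up_adj (G : SimpleGraph V) {u v : V} (h : G.Adj u v) :
    (up H C G).Adj (Sum.inl u) (Sum.inl v) := by
  rw [SimpleGraph.map_adj]
  exact ⟨u, v, h, rfl, rfl⟩

theorem up_adj_inv (G : SimpleGraph V) {x y : V ⊕ C × H} (h : (up H C G).Adj x y) :
    ∃ u v, G.Adj u v ∧ x = Sum.inl u ∧ y = Sum.inl v := by
  rw [SimpleGraph.map_adj] at h
  obtain ⟨u, v, huv, rfl, rfl⟩ := h
  exact ⟨u, v, huv, rfl, rfl⟩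

variable [Fintype V] [Fintype H] [Fintype C]

/-- the rank of the rigidity matrix and the generic rank -/
theorem genRank_add' (G : SimpleGraph V) {p : V → Fin d → ℝ}
    (hp : ∀ p' : V → Fin d → ℝ, mo G p ≤ mo G p') :
    genRank d G + mo G p = d * Fintype.card V := by
  rw [← rank_add_mo G p]
  congr 1
  apply IsGreatest.csSup_eq
  refine ⟨⟨p, rfl⟩, ?_⟩
  rintro _ ⟨p', rfl⟩
  have h1 := rank_add_mo G p
  have h2 := rank_add_mo G p'
  have h3 := hp p'
  show (rigidityMatrix G p').rank ≤ _
  omega

theorem genRank_ge (G : SimpleGraph V) (p : V → Fin d → ℝ) :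
    d * Fintype.card V ≤ genRank d G + mo G p := by
  obtain ⟨p0, hp0⟩ := exists_min (d := d) G
  have h1 := genRank_add' G hp0
  have h2 := hp0 p
  omega

/-- **The lower bound.** The family of properties `Q` is used to compare `A'` with `A`. -/
theorem low (A A' : SimpleGraph (V ⊕ C × H)) (hA : Clustered A)
    {ι : Type} [Finite ι] (Q : ι → (V ⊕ C × H → Fin d → ℝ) → Prop)
    (hQg : ∀ i, TA.Good (Q i)) (hQs : ∀ i, ∃ p, Q i p)
    (hcl : ∀ p, (∀ i, Q i p) → Mot A' p ≤ Mot A p)
    (hpin : ∀ c, ∃ p : V ⊕ C × H → Fin d → ℝ, Pinned A c p) (G : SimpleGraph V) :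
    genRank d G + d * Fintype.card (C × H) ≤ genRank d (up H C G ⊔ A') := by
  classical
  obtain ⟨p, hp⟩ := TA.good_family (E := V ⊕ C × H → Fin d → ℝ) (ι := Option (ι ⊕ C))
    (fun i p => match i with
      | none => ∀ p' : V → Fin d → ℝ, mo G (restr Sum.inl d p) ≤ mo G p'
      | some (Sum.inl i) => Q i p
      | some (Sum.inr c) => Pinned A c p) (by
      rintro (_ | i | c)
      · exact good_comp (restr (Sum.inl : V → V ⊕ C × H) d) (min_good G)
      · exact hQg i
      · exact pinned_good A c) (by
      rintro (_ | i | c)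
      · exact restr_sat (Sum.inl : V → V ⊕ C × H) Sum.inl_injective (exists_min G)
      · exact hQs i
      · exact hpin c)
  have hmin := hp none
  have hQ : ∀ i, Q i p := fun i => hp (some (Sum.inl i))
  have hP : ∀ c, Pinned A c p := fun c => hp (some (Sum.inr c))
  -- restriction to the base is injective on the motions
  have h1 : mo (up H C G ⊔ A') p ≤ mo G (restr Sum.inl d p) := by
    let r : Mot (up H C G ⊔ A') p →ₗ[ℝ] Mot G (restr Sum.inl d p) :=
      LinearMap.codRestrict _ ((restr (Sum.inl : V → V ⊕ C × H) d).comp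
        (Mot (up H C G ⊔ A') p).subtype) (by
          rintro ⟨q, hq⟩
          rw [mem_mot] at *
          intro u v huv
          exact hq (Sum.inl u) (Sum.inl v) (Or.inl (up_adj G huv)))
    refine LinearMap.finrank_le_finrank_of_injective (f := r) ?_
    rw [injective_iff_map_eq_zero]
    rintro ⟨q, hq⟩ h0
    apply Subtype.ext
    have h2 : q ∈ Mot A p := hcl p hQ (mot_anti le_sup_right p hq)
    refine zero_of_pinned hA hP ((mem_mot _ _ _).1 h2) fun v => ?_
    have h3 := congrArg Subtype.val h0
    exact congrFun h3 v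
  have h2 := genRank_add' G hmin
  have h3 := genRank_ge (up H C G ⊔ A') p
  rw [Fintype.card_sum, mul_add] at h3
  omega

end Pool.Agent.H557.RG
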