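import Mathlib
import Pool.Agent.H557.RG.Low

/-!
# Clusters of bodies: definition and the upper bound for the rank
-/

set_option autoImplicit false
set_option linter.unusedSectionVars false

namespace Pool.Agent.H557.RG

open Matrix Finset Pool.Agent.H283R2.DR Pool.Agent.H789R5

variable {V B T C : Type} {d : ℕ}

/-- **Clusters of bodies.** For each `c : C` and `i : B` there is a copy of the graph `R` (a body);
for `i ≠ j` the bodies `i` and `j` of the same cluster are joined by one edge (a bar), and each body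
`i` is joined by one bar to the vertex `γ c i` of the base `V`. The bars end in the vertices
`ζ c i _` of the body `i`. -/
def ext (R : SimpleGraph T) (γ : C → B → V) (ζ : C → B → Option B → T) :
    SimpleGraph (V ⊕ C × (B × T)) where
  Adj x y := match x, y with
    | Sum.inl _, Sum.inl _ => False
    | Sum.inl v, Sum.inr (c, i, t) => v = γ c i ∧ t = ζ c i none
    | Sum.inr (c, i, t), Sum.inl v => v = γ c i ∧ t = ζ c i none
    | Sum.inr (c, i, s), Sum.inr (c', j, t) =>
      c = c' ∧ ((i = j ∧ R.Adj s t) ∨ (i ≠ j ∧ s = ζ c i (some j) ∧ t = ζ c j (some i)))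
  symm := ⟨by
    rintro (u | ⟨c, i, s⟩) (v | ⟨c', j, t⟩) h
    · exact h
    · exact h
    · exact h
    · obtain ⟨rfl, ⟨rfl, h⟩ | ⟨h1, h2, h3⟩⟩ := h
      · exact ⟨rfl, Or.inl ⟨rfl, h.symm⟩⟩
      · exact ⟨rfl, Or.inr ⟨h1.symm, h3, h2⟩⟩⟩
  loopless := ⟨by
    rintro (u | ⟨c, i, s⟩) h
    · exact h
    · obtain ⟨-, ⟨-, h⟩ | ⟨h1, -, -⟩⟩ := h
      · exact R.loopless.irrefl _ h
      · exact h1 rfl⟩

section adj

variable (R : SimpleGraph T) (γ : C → B → V) (ζ : C → B → Option B → T)

theorem ext_ll (u v : V) : ¬ (ext R γ ζ).Adj (Sum.inl u) (Sum.inl v) := fun h => h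

theorem ext_lr (v : V) (c : C) (i : B) (t : T) :
    (ext R γ ζ).Adj (Sum.inl v) (Sum.inr (c, i, t)) ↔ v = γ c i ∧ t = ζ c i none := Iff.rfl

theorem ext_rl (v : V) (c : C) (i : B) (t : T) :
    (ext R γ ζ).Adj (Sum.inr (c, i, t)) (Sum.inl v) ↔ v = γ c i ∧ t = ζ c i none := Iff.rfl

theorem ext_rr (c c' : C) (i j : B) (s t : T) :
    (ext R γ ζ).Adj (Sum.inr (c, i, s)) (Sum.inr (c', j, t)) ↔
      c = c' ∧ ((i = j ∧ R.Adj s t) ∨ (i ≠ j ∧ s = ζ c i (some j) ∧ t = ζ c j (some i))) := Iff.rfl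

theorem ext_clustered : Clustered (ext R γ ζ) where
  base := ext_ll R γ ζ
  clus := by
    rintro c c' ⟨i, s⟩ ⟨j, t⟩ h
    exact h.1

theorem ext_mono {R R' : SimpleGraph T} (h : R ≤ R') : ext R γ ζ ≤ ext R' γ ζ := by
  rintro (u | ⟨c, i, s⟩) (v | ⟨c', j, t⟩) h1
  · exact h1
  · exact h1
  · exact h1
  · obtain ⟨rfl, ⟨rfl, h2⟩ | h2⟩ := h1
    · exact ⟨rfl, Or.inl ⟨rfl, h h2⟩⟩
    · exact ⟨rfl, Or.inr h2⟩

end adj

/-- the bodies without the bars -/
def bods (V B C : Type) (R : SimpleGraph T) : SimpleGraph (V ⊕ C × (B × T)) where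
  Adj x y := match x, y with
    | Sum.inl _, Sum.inl _ => False
    | Sum.inl _, Sum.inr _ => False
    | Sum.inr _, Sum.inl _ => False
    | Sum.inr (c, i, s), Sum.inr (c', j, t) => c = c' ∧ i = j ∧ R.Adj s t
  symm := ⟨by
    rintro (u | ⟨c, i, s⟩) (v | ⟨c', j, t⟩) h
    · exact h
    · exact h
    · exact h
    · obtain ⟨rfl, rfl, h⟩ := h
      exact ⟨rfl, rfl, h.symm⟩⟩
  loopless := ⟨by
    rintro (u | ⟨c, i, s⟩) h
    · exact h
    · exact R.loopless.irrefl _ h.2.2⟩

/-- velocities of the base together with motions of the bodies -/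
noncomputable def bodMap (p : V ⊕ C × (B × T) → Fin d → ℝ) :
    ((V → Fin d → ℝ) × (C × B → TA.Sk d × (Fin d → ℝ))) →ₗ[ℝ] (V ⊕ C × (B × T) → Fin d → ℝ) where
  toFun x y := Sum.elim x.1 (fun y => TA.triv p (x.2 (y.1, y.2.1)) (Sum.inr y)) y
  map_add' x x' := by
    funext y
    rcases y with v | y
    · rfl
    · simp only [Sum.elim_inr, Pi.add_apply, Prod.snd_add, map_add]
  map_smul' r x := by
    funext y
    rcases y with v | y
    · rfl
    · simp only [Sum.elim_inr, Pi.smul_apply, Prod.smul_snd, map_smul, RingHom.id_apply]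

theorem bodMap_inl (p : V ⊕ C × (B × T) → Fin d → ℝ)
    (x : (V → Fin d → ℝ) × (C × B → TA.Sk d × (Fin d → ℝ))) (v : V) :
    bodMap p x (Sum.inl v) = x.1 v := rfl

theorem bodMap_inr (p : V ⊕ C × (B × T) → Fin d → ℝ)
    (x : (V → Fin d → ℝ) × (C × B → TA.Sk d × (Fin d → ℝ))) (c : C) (i : B) (t : T) :
    bodMap p x (Sum.inr (c, i, t)) =
      ((x.2 (c, i)).1 : Matrix (Fin d) (Fin d) ℝ) *ᵥ p (Sum.inr (c, i, t)) + (x.2 (c, i)).2 := rfl

theorem choose_two {b d : ℕ} (h : b + 1 = d * (d + 1)) :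
    (b + 1).choose 2 = b * (d * (d + 1) / 2) := by
  obtain ⟨D, hD⟩ := Nat.even_mul_succ_self d
  have hD' : d * (d + 1) = 2 * D := by omega
  rw [hD', Nat.mul_div_cancel_left _ (by norm_num : 0 < 2), Nat.choose_two_right, Nat.add_sub_cancel,
    h, hD']
  rw [mul_assoc, Nat.mul_div_cancel_left _ (by norm_num : 0 < 2), mul_comm]

/-- the constraint of a bar of a cluster -/
noncomputable def barF (p : V ⊕ C × (B × T) → Fin d → ℝ) (γ : C → B → V)
    (ζ : C → B → Option B → T) (c : C) : Option B → Option B →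
      ((V ⊕ C × (B × T) → Fin d → ℝ) →ₗ[ℝ] ℝ)
  | some i, some j => ef p (Sum.inr (c, i, ζ c i (some j))) (Sum.inr (c, j, ζ c j (some i)))
  | some i, none => ef p (Sum.inr (c, i, ζ c i none)) (Sum.inl (γ c i))
  | none, some i => ef p (Sum.inr (c, i, ζ c i none)) (Sum.inl (γ c i))
  | none, none => 0

theorem barF_comm (p : V ⊕ C × (B × T) → Fin d → ℝ) (γ : C → B → V)
    (ζ : C → B → Option B → T) (c : C) (x y : Option B) :
    barF p γ ζ c x y = barF p γ ζ c y x := by
  rcases x with _ | i <;> rcases y with _ | j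
  · rfl
  · rfl
  · rfl
  · exact ef_comm p _ _

variable [Fintype V] [Fintype B] [Fintype T] [Fintype C]

theorem bodMap_inj {p : V ⊕ C × (B × T) → Fin d → ℝ} (hp : MG p) (hT : d ≤ Fintype.card T) :
    Function.Injective (bodMap (d := d) p) := by
  classical
  intro x y h
  apply Prod.ext
  · funext v
    exact congrFun h (Sum.inl v)
  · funext ⟨c, i⟩
    obtain ⟨h1, h2⟩ := triv_unique hp.toGen
      (S := univ.image fun t : T => (Sum.inr (c, i, t) : V ⊕ C × (B × T))) (by
        rw [card_image_of_injective, card_univ]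
        · exact hT
        · intro a b hab
          simpa using hab) (x.2 (c, i)).1.2 (y.2 (c, i)).1.2
        (b := (x.2 (c, i)).2) (b' := (y.2 (c, i)).2) (by
        intro v hv
        obtain ⟨t, -, rfl⟩ := mem_image.1 hv
        exact congrFun h (Sum.inr (c, i, t)))
    exact Prod.ext (Subtype.ext h1) h2

theorem up_bound (hB : Fintype.card B + 1 = d * (d + 1)) (hT : d ≤ Fintype.card T)
    (R : SimpleGraph T) (γ : C → B → V) (ζ : C → B → Option B → T) (G : SimpleGraph V) :
    genRank d (up (B × T) C G ⊔ ext R γ ζ) ≤ genRank d G + d * Fintype.card (C × (B × T)) := by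
  classical
  obtain ⟨p, hp⟩ := exists_mg (V ⊕ C × (B × T)) d
  -- the motions of the base and of the bodies
  have h1 : mo G (restr Sum.inl d p) + Fintype.card (C × B) * (d * (d + 1) / 2) ≤
      mo (up (B × T) C G ⊔ bods V B C R) p := by
    let L : (Mot G (restr Sum.inl d p) × (C × B → TA.Sk d × (Fin d → ℝ))) →ₗ[ℝ]
        (V ⊕ C × (B × T) → Fin d → ℝ) :=
      (bodMap p).comp ((Mot G (restr Sum.inl d p)).subtype.prodMap LinearMap.id)
    have hL : Function.Injective L := by
      intro x y hxy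
      have h2 := bodMap_inj hp hT hxy
      have h3 := congrArg Prod.fst h2
      have h4 := congrArg Prod.snd h2
      exact Prod.ext (Subtype.ext h3) h4
    have h2 : Module.finrank ℝ (Mot G (restr Sum.inl d p) × (C × B → TA.Sk d × (Fin d → ℝ))) =
        mo G (restr Sum.inl d p) + Fintype.card (C × B) * (d * (d + 1) / 2) := by
      rw [Module.finrank_prod, Module.finrank_pi_fintype, sum_const, finrank_triv, card_univ,
        smul_eq_mul]
      rfl
    rw [← h2, ← LinearMap.finrank_range_of_inj hL]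
    refine Submodule.finrank_mono ?_
    rintro _ ⟨⟨⟨q, hq⟩, x⟩, rfl⟩
    rw [mem_mot] at *
    intro a b hab
    rcases hab with hab | hab
    · obtain ⟨u, v, huv, rfl, rfl⟩ := up_adj_inv G hab
      exact hq u v huv
    · rcases a with u | ⟨c, i, s⟩ <;> rcases b with v | ⟨c', j, t⟩
      · exact absurd hab (fun h => h)
      · exact absurd hab (fun h => h)
      · exact absurd hab (fun h => h)
      · obtain ⟨rfl, rfl, -⟩ := hab
        show (p _ - p _) ⬝ᵥ (((x (c, i)).1 : Matrix (Fin d) (Fin d) ℝ) *ᵥ p _ + (x (c, i)).2 -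
          (((x (c, i)).1 : Matrix (Fin d) (Fin d) ℝ) *ᵥ p _ + (x (c, i)).2)) = 0
        rw [add_sub_add_right_eq_sub, ← mulVec_sub]
        exact TA.skew_dot (x (c, i)).1.2 _
  -- the bars
  have h2 := dim_drop (T := C × {e : Sym2 (Option B) // ¬ e.IsDiag})
    (Mot (up (B × T) C G ⊔ bods V B C R) p) (Mot (up (B × T) C G ⊔ ext R γ ζ) p)
    (fun t => Sym2.lift ⟨barF p γ ζ t.1, barF_comm p γ ζ t.1⟩ t.2.1) (by
      intro q hq h
      rw [mem_mot] at *
      intro a b hab
      rcases hab with hab | hab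
      · exact hq _ _ (Or.inl hab)
      · rcases a with u | ⟨c, i, s⟩ <;> rcases b with v | ⟨c', j, t⟩
        · exact absurd hab (fun h => h)
        · obtain ⟨rfl, rfl⟩ := hab
          have h3 := h (c', ⟨s(some j, none), by simp⟩)
          change ef p _ _ q = 0 at h3
          rw [ef_comm] at h3
          exact h3
        · obtain ⟨rfl, rfl⟩ := hab
          exact h (c, ⟨s(some i, none), by simp⟩)
        · obtain ⟨rfl, ⟨rfl, h3⟩ | ⟨h3, rfl, rfl⟩⟩ := hab
          · exact hq _ _ (Or.inr ⟨rfl, rfl, h3⟩)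
          · exact h (c, ⟨s(some i, some j), by simpa using h3⟩))
  rw [Fintype.card_prod, Sym2.card_subtype_not_diag, Fintype.card_option, choose_two hB,
    ← mul_assoc, ← Fintype.card_prod] at h2
  change mo _ p ≤ mo _ p + _ at h2
  have h3 := genRank_add hp (up (B × T) C G ⊔ ext R γ ζ)
  have h4 := genRank_ge G (restr Sum.inl d p)
  rw [Fintype.card_sum, mul_add] at h3
  omega

end Pool.Agent.H557.RG
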