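import Mathlib
import Pool.Agent.H557.RG.Ext

/-!
# Connectivity of a graph with attached clusters
-/

set_option autoImplicit false
set_option linter.unusedSectionVars false

namespace Pool.Agent.H557.RG

open Finset

/-- removing fewer than `k` vertices always leaves a (nonempty) connected graph -/
def KConnected {V : Type} (k : ℕ) (G : SimpleGraph V) : Prop :=
  ∀ S : Finset V, S.card < k → (G.induce (S : Set V)ᶜ).Connected

/-- `y` can be reached from `x` in `A` outside of `X` -/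
def Rch {U : Type} (A : SimpleGraph U) (X : Finset U) (x y : U) : Prop :=
  Relation.ReflTransGen (fun a b => A.Adj a b ∧ a ∉ X ∧ b ∉ X) x y

namespace Rch

variable {U : Type} {A : SimpleGraph U} {X : Finset U} {x y z : U}

theorem refl (x : U) : Rch A X x x := Relation.ReflTransGen.refl

theorem trans (h : Rch A X x y) (h' : Rch A X y z) : Rch A X x z := Relation.ReflTransGen.trans h h'

theorem symm (h : Rch A X x y) : Rch A X y x := by
  induction h with
  | refl => exact refl _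
  | tail _ hbc ih =>
    exact trans (Relation.ReflTransGen.single ⟨hbc.1.symm, hbc.2.2, hbc.2.1⟩) ih

theorem single (h : A.Adj x y) (hx : x ∉ X) (hy : y ∉ X) : Rch A X x y :=
  Relation.ReflTransGen.single ⟨h, hx, hy⟩

theorem map {T : Type} {R : SimpleGraph T} {f : T → U} (hf : ∀ s t, R.Adj s t → A.Adj (f s) (f t))
    {X' : Finset T} (hX : ∀ t, f t ∈ X → t ∈ X') {s t : T} (h : Rch R X' s t) :
    Rch A X (f s) (f t) := by
  induction h with
  | refl => exact refl _
  | tail _ hbc ih =>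
    exact trans ih (single (hf _ _ hbc.1) (fun h => hbc.2.1 (hX _ h)) (fun h => hbc.2.2 (hX _ h)))

end Rch

theorem kconn_of {U : Type} {A G : SimpleGraph U} (hAG : A ≤ G) {κ : ℕ}
    (h : ∀ X : Finset U, X.card < κ → (∃ x, x ∉ X) ∧ ∀ x y, x ∉ X → y ∉ X → Rch A X x y) :
    KConnected κ G := by
  intro X hX
  obtain ⟨⟨x0, hx0⟩, h1⟩ := h X hX
  have hne : Nonempty ((X : Set U)ᶜ : Set U) := ⟨⟨x0, hx0⟩⟩
  have key : ∀ x y : U, Rch A X x y → ∀ (hx : x ∈ (X : Set U)ᶜ) (hy : y ∈ (X : Set U)ᶜ),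
      (G.induce (X : Set U)ᶜ).Reachable ⟨x, hx⟩ ⟨y, hy⟩ := by
    intro x y hxy
    induction hxy with
    | refl =>
      intro hx hy
      exact SimpleGraph.Reachable.refl _
    | tail _ hbc ih =>
      intro hx hy
      refine (ih hx hbc.2.1).trans (SimpleGraph.Adj.reachable ?_)
      exact hAG hbc.1
  refine ⟨?_⟩
  rintro ⟨x, hx⟩ ⟨y, hy⟩
  exact key x y (h1 x y hx hy) hx hy

theorem rch_of_kconn {T : Type} {R : SimpleGraph T} {κ : ℕ} (h : KConnected κ R) {X : Finset T}
    (hX : X.card < κ) {s t : T} (hs : s ∉ X) (ht : t ∉ X) : Rch R X s t := by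
  have h1 : ∀ a b : ((X : Set T)ᶜ : Set T), (R.induce (X : Set T)ᶜ).Reachable a b →
      Rch R X (a : T) (b : T) := by
    rintro a b ⟨w⟩
    induction w with
    | nil => exact Rch.refl _
    | @cons a b c hab _ ih => exact Rch.trans (Rch.single hab a.2 b.2) ih
  exact h1 ⟨s, hs⟩ ⟨t, ht⟩ ((h X hX).preconnected _ _)

/-- the base vertices of the cluster `(v, k, π)`: the vertices `hub i`, the vertex `hub k` being
exchanged for `v` -/
def gam {V B P : Type} [DecidableEq V] (hub : B → V) (c : V × B × P) (i : B) : V :=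
  Equiv.swap c.1 (hub c.2.1) (hub i)

theorem gam_inj {V B P : Type} [DecidableEq V] {hub : B → V} (h : Function.Injective hub)
    (c : V × B × P) : Function.Injective (gam hub c) :=
  (Equiv.swap c.1 (hub c.2.1)).injective.comp h

theorem exists_free {U I : Type} [Fintype I] {X : Finset U} (P : I → U → Prop)
    (hdisj : ∀ i j x, P i x → P j x → i = j) (hX : X.card < Fintype.card I) :
    ∃ i, ∀ x, P i x → x ∉ X := by
  classical
  by_contra hcon
  push Not at hcon
  choose f hf hfX using hcon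
  have h1 : Function.Injective f := fun i j hij => hdisj i j (f i) (hf i) (hij ▸ hf j)
  have h2 : Fintype.card I ≤ X.card := by
    rw [← Finset.card_univ, ← Finset.card_image_of_injective _ h1]
    refine Finset.card_le_card ?_
    intro x hx
    obtain ⟨i, -, rfl⟩ := Finset.mem_image.1 hx
    exact hfX i
  omega

theorem hub_conn {V B P H : Type} [DecidableEq V] [Fintype B] [Fintype P] {κ : ℕ}
    {hub : B → V} (hhub : Function.Injective hub) (A : SimpleGraph (V ⊕ (V × B × P) × H))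
    (h1 : κ ≤ Fintype.card B) (h2 : 2 ≤ Fintype.card B) (h3 : κ ≤ Fintype.card P)
    (hcl : ∀ (X : Finset (V ⊕ (V × B × P) × H)) (c : V × B × P), X.card < κ →
      (∀ h, Sum.inr (c, h) ∉ X) → ∀ i j : B,
      Sum.inl (gam hub c i) ∉ X → Sum.inl (gam hub c j) ∉ X →
      Rch A X (Sum.inl (gam hub c i)) (Sum.inl (gam hub c j)))
    (hesc : ∀ (X : Finset (V ⊕ (V × B × P) × H)) (c : V × B × P) (h : H), X.card < κ →
      Sum.inr (c, h) ∉ X → ∃ v, Sum.inl v ∉ X ∧ Rch A X (Sum.inr (c, h)) (Sum.inl v))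
    (X : Finset (V ⊕ (V × B × P) × H)) (hX : X.card < κ) :
    (∃ x, x ∉ X) ∧ ∀ x y, x ∉ X → y ∉ X → Rch A X x y := by
  classical
  obtain ⟨k0, hk0⟩ := exists_free (I := B) (X := X) (fun i x => x = Sum.inl (hub i)) (by
    rintro i j x rfl h
    exact hhub (Sum.inl_injective h)) (by omega)
  have hk0' := hk0 _ rfl
  have hbase : ∀ v, Sum.inl v ∉ X → Rch A X (Sum.inl v) (Sum.inl (hub k0)) := by
    intro v hv
    obtain ⟨k', hk'⟩ : ∃ k' : B, k' ≠ k0 := by
      have : Nontrivial B := Fintype.one_lt_card_iff_nontrivial.1 (by omega)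
      exact exists_ne k0
    obtain ⟨π, hπ⟩ := exists_free (I := P) (X := X)
      (fun π x => ∃ h, x = Sum.inr ((v, k', π), h)) (by
        rintro π π' x ⟨h, rfl⟩ ⟨h', hh⟩
        simp only [Sum.inr.injEq, Prod.mk.injEq, true_and] at hh
        exact hh.1) (by omega)
    have h4 : gam hub (v, k', π) k' = v := by
      unfold gam
      exact Equiv.swap_apply_right _ _
    by_cases h5 : hub k0 = v
    · rw [h5]
      exact Rch.refl _
    · have h6 : gam hub (v, k', π) k0 = hub k0 := by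
        unfold gam
        exact Equiv.swap_apply_of_ne_of_ne h5 (fun h => hk' (hhub h).symm)
      have h7 := hcl X (v, k', π) hX (fun h => hπ _ ⟨h, rfl⟩) k' k0 (by rwa [h4]) (by rwa [h6])
      rwa [h4, h6] at h7
  have hall : ∀ x, x ∉ X → Rch A X x (Sum.inl (hub k0)) := by
    rintro (v | ⟨c, h⟩) hx
    · exact hbase v hx
    · obtain ⟨v, hv, hr⟩ := hesc X c h hX hx
      exact hr.trans (hbase v hv)
  exact ⟨⟨_, hk0'⟩, fun x y hx hy => (hall x hx).trans (hall y hy).symm⟩

section ext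

variable {V B T C : Type} {κ : ℕ}

theorem body_rch {R : SimpleGraph T} (hR : KConnected κ R) (γ : C → B → V)
    (ζ : C → B → Option B → T) (X : Finset (V ⊕ C × (B × T))) (hX : X.card < κ) (c : C) (i : B)
    (s t : T) (hs : Sum.inr (c, i, s) ∉ X) (ht : Sum.inr (c, i, t) ∉ X) :
    Rch (ext R γ ζ) X (Sum.inr (c, i, s)) (Sum.inr (c, i, t)) := by
  classical
  let f : T ↪ V ⊕ C × (B × T) := ⟨fun t => Sum.inr (c, i, t), fun a b hab => by simpa using hab⟩
  let X' : Finset T := X.preimage f f.injective.injOn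
  have hX' : X'.card ≤ X.card := by
    refine Finset.card_le_card_of_injOn f ?_ f.injective.injOn
    intro t ht
    exact Finset.mem_preimage.1 ht
  refine Rch.map (R := R) (f := fun t => (Sum.inr (c, i, t) : V ⊕ C × (B × T))) (X' := X') ?_ ?_
    (rch_of_kconn hR (by omega) ?_ ?_)
  · intro s t hst
    exact ⟨rfl, Or.inl ⟨rfl, hst⟩⟩
  · intro t ht
    exact Finset.mem_preimage.2 ht
  · intro h
    have h' : f s ∈ X := Finset.mem_preimage.1 h
    exact hs h'
  · intro h
    have h' : f t ∈ X := Finset.mem_preimage.1 h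
    exact ht h'

theorem ext_cl {R : SimpleGraph T} (hR : KConnected κ R) (γ : C → B → V)
    (ζ : C → B → Option B → T) (X : Finset (V ⊕ C × (B × T))) (c : C) (hX : X.card < κ)
    (hc : ∀ h, Sum.inr (c, h) ∉ X) (i j : B) (hi : Sum.inl (γ c i) ∉ X)
    (hj : Sum.inl (γ c j) ∉ X) : Rch (ext R γ ζ) X (Sum.inl (γ c i)) (Sum.inl (γ c j)) := by
  have h1 : ∀ i, Sum.inl (γ c i) ∉ X →
      Rch (ext R γ ζ) X (Sum.inl (γ c i)) (Sum.inr (c, i, ζ c i none)) :=
    fun i hi => Rch.single ⟨rfl, rfl⟩ hi (hc _)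
  by_cases hij : i = j
  · subst hij
    exact Rch.refl _
  · have h2 : Rch (ext R γ ζ) X (Sum.inr (c, i, ζ c i (some j))) (Sum.inr (c, j, ζ c j (some i))) :=
      Rch.single ⟨rfl, Or.inr ⟨hij, rfl, rfl⟩⟩ (hc _) (hc _)
    exact (h1 i hi).trans ((body_rch hR γ ζ X hX c i _ _ (hc _) (hc _)).trans (h2.trans
      ((body_rch hR γ ζ X hX c j _ _ (hc _) (hc _)).trans (h1 j hj).symm)))

theorem ext_esc [Fintype B] {R : SimpleGraph T} (hR : KConnected κ R) {γ : C → B → V}
    (hγ : ∀ c, Function.Injective (γ c)) {ζ : C → B → Option B → T}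
    (hζ : ∀ c i, Function.Injective (ζ c i)) (hκ : κ ≤ Fintype.card B)
    (X : Finset (V ⊕ C × (B × T))) (c : C) (h : B × T) (hX : X.card < κ)
    (hh : Sum.inr (c, h) ∉ X) :
    ∃ v, Sum.inl v ∉ X ∧ Rch (ext R γ ζ) X (Sum.inr (c, h)) (Sum.inl v) := by
  obtain ⟨i, t⟩ := h
  obtain ⟨j, hj⟩ := exists_free (I := B) (X := X)
    (fun j x => x = Sum.inl (γ c j) ∨ x = Sum.inr (c, j, ζ c j none) ∨
      (j ≠ i ∧ (x = Sum.inr (c, i, ζ c i (some j)) ∨ x = Sum.inr (c, j, ζ c j (some i))))) (by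
      intro j j' x h h'
      have e0 : ∀ a b, ζ c i a = ζ c i b → a = b := fun a b h => hζ c i h
      rcases h with rfl | rfl | ⟨h1, rfl | rfl⟩ <;> rcases h' with h' | h' | ⟨h2, h' | h'⟩ <;>
        simp only [Sum.inl.injEq, Sum.inr.injEq, Prod.mk.injEq, true_and, reduceCtorEq] at h'
      · exact hγ c h'
      · exact h'.1
      · obtain ⟨rfl, h'⟩ := h'
        exact absurd (e0 _ _ h') (by simp)
      · exact h'.1
      · obtain ⟨rfl, h'⟩ := h'
        exact absurd (e0 _ _ h') (by simp)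
      · exact Option.some_injective _ (e0 _ _ h')
      · exact absurd h'.1.symm h2
      · exact h'.1
      · exact absurd h'.1 h1
      · exact h'.1) (by omega)
  have h1 : Sum.inl (γ c j) ∉ X := hj _ (Or.inl rfl)
  have h2 : Sum.inr (c, j, ζ c j none) ∉ X := hj _ (Or.inr (Or.inl rfl))
  refine ⟨γ c j, h1, ?_⟩
  have h3 : Rch (ext R γ ζ) X (Sum.inr (c, j, ζ c j none)) (Sum.inl (γ c j)) :=
    Rch.single ⟨rfl, rfl⟩ h2 h1
  by_cases hij : j = i
  · subst hij
    exact (body_rch hR γ ζ X hX c j t _ hh h2).trans h3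
  · have h4 := hj _ (Or.inr (Or.inr ⟨hij, Or.inl rfl⟩))
    have h5 := hj _ (Or.inr (Or.inr ⟨hij, Or.inr rfl⟩))
    have h6 : Rch (ext R γ ζ) X (Sum.inr (c, i, ζ c i (some j))) (Sum.inr (c, j, ζ c j (some i))) :=
      Rch.single ⟨rfl, Or.inr ⟨fun h => hij h.symm, rfl, rfl⟩⟩ h4 h5
    exact (body_rch hR γ ζ X hX c i t _ hh h4).trans (h6.trans
      ((body_rch hR γ ζ X hX c j _ _ h5 h2).trans h3))

/-- **Connectivity.** -/
theorem ext_kconn [DecidableEq V] [Fintype B] {P : Type} [Fintype P] {hub : B → V}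
    (hhub : Function.Injective hub) {R : SimpleGraph T} (hR : KConnected κ R)
    {ζ : V × B × P → B → Option B → T} (hζ : ∀ c i, Function.Injective (ζ c i))
    (h1 : κ ≤ Fintype.card B) (h2 : 2 ≤ Fintype.card B) (h3 : κ ≤ Fintype.card P)
    {G : SimpleGraph (V ⊕ (V × B × P) × (B × T))} (hG : ext R (gam hub) ζ ≤ G) :
    KConnected κ G :=
  kconn_of hG (hub_conn hhub (ext R (gam hub) ζ) h1 h2 h3
    (fun X c hX hc i j hi hj => ext_cl hR _ ζ X c hX hc i j hi hj)
    (fun X c h hX hh => ext_esc hR (fun c => gam_inj hhub c) hζ h1 X c h hX hh))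

end ext

end Pool.Agent.H557.RG
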