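import Mathlib
import Pool.Agent.H557.RG.Conn

/-!
# The connectivity of vertex-transitive graphs
-/

set_option autoImplicit false
set_option linter.unusedSectionVars false

namespace Pool.Agent.H557.RG.Atom

open Finset

variable {U : Type} [Fintype U] [DecidableEq U] (G : SimpleGraph U)

open Classical in
/-- the vertices outside of `F` with a neighbour in `F` -/
noncomputable def bd (F : Finset U) : Finset U := univ.filter fun v => v ∉ F ∧ ∃ u ∈ F, G.Adj u v

variable {G}

theorem mem_bd {F : Finset U} {v : U} : v ∈ bd G F ↔ v ∉ F ∧ ∃ u ∈ F, G.Adj u v := by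
  simp [bd]

theorem submod (F F' : Finset U) :
    (bd G (F ∩ F')).card + (bd G (F ∪ F')).card ≤ (bd G F).card + (bd G F').card := by
  rw [← card_union_add_card_inter, ← card_union_add_card_inter (bd G F)]
  refine Nat.add_le_add (card_le_card ?_) (card_le_card ?_)
  · intro v hv
    rw [mem_union, mem_bd, mem_bd] at *
    rcases hv with ⟨h1, u, hu, huv⟩ | ⟨h1, u, hu, huv⟩
    · rw [mem_inter] at hu h1
      by_cases hv : v ∈ F
      · right
        exact ⟨fun h => h1 ⟨hv, h⟩, u, hu.2, huv⟩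
      · left
        exact ⟨hv, u, hu.1, huv⟩
    · rw [mem_union] at hu h1
      rcases hu with hu | hu
      · left
        exact ⟨fun h => h1 (Or.inl h), u, hu, huv⟩
      · right
        exact ⟨fun h => h1 (Or.inr h), u, hu, huv⟩
  · intro v hv
    rw [mem_inter, mem_bd, mem_bd] at *
    obtain ⟨⟨-, u, hu, huv⟩, h1, -⟩ := hv
    rw [mem_inter] at hu
    rw [mem_union] at h1
    exact ⟨⟨fun h => h1 (Or.inl h), u, hu.1, huv⟩, ⟨fun h => h1 (Or.inr h), u, hu.2, huv⟩⟩

variable (G) in
/-- neither `F` nor the part beyond its boundary is empty -/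
def Pr (F : Finset U) : Prop := F.Nonempty ∧ ∃ z, z ∉ F ∧ z ∉ bd G F

theorem pr_inter {F F' : Finset U} (hF : Pr G F) (h : (F ∩ F').Nonempty) : Pr G (F ∩ F') := by
  obtain ⟨-, z, hz, hz'⟩ := hF
  refine ⟨h, z, fun h' => hz (mem_inter.1 h').1, ?_⟩
  intro h'
  rw [mem_bd] at h' hz'
  obtain ⟨-, u, hu, huv⟩ := h'
  exact hz' ⟨hz, u, (mem_inter.1 hu).1, huv⟩

theorem bd_image (φ : G ≃g G) (F : Finset U) : bd G (F.image φ) = (bd G F).image φ := by
  ext v
  rw [mem_bd]
  constructor
  · rintro ⟨h1, u, hu, huv⟩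
    obtain ⟨u, hu', rfl⟩ := mem_image.1 hu
    refine mem_image.2 ⟨φ.symm v, ?_, by simp⟩
    rw [mem_bd]
    refine ⟨fun h => h1 (mem_image.2 ⟨_, h, by simp⟩), u, hu', ?_⟩
    rw [← φ.map_adj_iff]
    simpa using huv
  · intro hv
    obtain ⟨w, hw, rfl⟩ := mem_image.1 hv
    rw [mem_bd] at hw
    obtain ⟨h1, u, hu, huw⟩ := hw
    refine ⟨?_, φ u, mem_image_of_mem _ hu, φ.map_adj_iff.2 huw⟩
    intro h
    obtain ⟨w', hw', h2⟩ := mem_image.1 h
    have h3 : w' = w := φ.injective h2
    subst h3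
    exact h1 hw'

theorem pr_image (φ : G ≃g G) {F : Finset U} (h : Pr G F) : Pr G (F.image φ) := by
  obtain ⟨h1, z, hz, hz'⟩ := h
  refine ⟨h1.image _, φ z, ?_, ?_⟩
  · intro h
    obtain ⟨w', hw', h2⟩ := mem_image.1 h
    have h3 : w' = z := φ.injective h2
    subst h3
    exact hz hw'
  · rw [bd_image]
    intro h
    obtain ⟨w', hw', h2⟩ := mem_image.1 h
    have h3 : w' = z := φ.injective h2
    subst h3
    exact hz' hw'

/-- the part beyond the boundary -/
noncomputable def rest (G : SimpleGraph U) (F : Finset U) : Finset U := (F ∪ bd G F)ᶜ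

theorem mem_rest {F : Finset U} {v : U} : v ∈ rest G F ↔ v ∉ F ∧ v ∉ bd G F := by
  unfold rest
  rw [mem_compl, mem_union, not_or]

theorem card_rest (F : Finset U) :
    F.card + (bd G F).card + (rest G F).card = Fintype.card U := by
  unfold rest
  rw [← card_union_of_disjoint, card_compl]
  · have := card_le_univ (F ∪ bd G F)
    omega
  · rw [disjoint_left]
    intro v hv h
    exact (mem_bd.1 h).1 hv

theorem bd_rest (F : Finset U) : bd G (rest G F) ⊆ bd G F := by
  intro v hv
  obtain ⟨h1, u, hu, huv⟩ := mem_bd.1 hv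
  rw [mem_rest] at hu h1
  by_contra hcon
  have hv : v ∈ F := by
    by_contra h
    exact h1 ⟨h, hcon⟩
  exact hu.2 (mem_bd.2 ⟨hu.1, v, hv, huv.symm⟩)

theorem pr_rest {F : Finset U} (h : Pr G F) : Pr G (rest G F) := by
  obtain ⟨⟨x, hx⟩, z, hz, hz'⟩ := h
  refine ⟨⟨z, mem_rest.2 ⟨hz, hz'⟩⟩, x, fun h => (mem_rest.1 h).1 hx, fun h => ?_⟩
  exact (mem_bd.1 (bd_rest F h)).1 hx

/-- **The connectivity of a vertex-transitive graph** is at least half of its degree. -/
theorem bound (hG : G.Connected) (ht : ∀ x y : U, ∃ φ : G ≃g G, φ x = y) {r : ℕ}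
    (hr : ∀ x, (G.neighborSet x).ncard = r) {F : Finset U} (hF : Pr G F) :
    r + 1 ≤ 2 * (bd G F).card := by
  classical
  -- the minimal boundary
  let S : Finset (Finset U) := univ.filter fun F => Pr G F
  have hS : ∀ F, F ∈ S ↔ Pr G F := fun F => by simp [S]
  obtain ⟨F0, hF0, hmin0⟩ := exists_min_image S (fun F => (bd G F).card) ⟨F, (hS F).2 hF⟩
  let S' : Finset (Finset U) := S.filter fun F => (bd G F).card = (bd G F0).card
  have hS' : ∀ F, F ∈ S' ↔ Pr G F ∧ (bd G F).card = (bd G F0).card := fun F => by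
    simp [S', hS]
  obtain ⟨A, hA, hminA⟩ := exists_min_image S' (fun F => F.card)
    ⟨F0, (hS' F0).2 ⟨(hS F0).1 hF0, rfl⟩⟩
  obtain ⟨hAp, hAκ⟩ := (hS' A).1 hA
  set κ := (bd G F0).card with hκ
  have h0 : ∀ F, Pr G F → κ ≤ (bd G F).card := fun F hF => hmin0 F ((hS F).2 hF)
  have h1 : ∀ F, Pr G F → (bd G F).card = κ → A.card ≤ F.card := fun F hF hF' =>
    hminA F ((hS' F).2 ⟨hF, hF'⟩)
  have h2 : A.card ≤ (rest G A).card := by
    refine h1 _ (pr_rest hAp) (le_antisymm ?_ (h0 _ (pr_rest hAp)))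
    rw [← hAκ]
    exact card_le_card (bd_rest A)
  -- different atoms are disjoint
  have h4 : ∀ A', Pr G A' → (bd G A').card = κ → A'.card = A.card → (A ∩ A').Nonempty →
      A' = A := by
    intro A' hA' hκ' hc hne
    have e1 := submod (G := G) A A'
    have e2 := h0 _ (pr_inter hAp hne)
    have e3 := card_rest (G := G) A
    have e4 := card_union_add_card_inter A A'
    have e5 := card_pos.2 hne
    have e6 := card_rest (G := G) (A ∪ A')
    have hpr : Pr G (A ∪ A') := by
      refine ⟨hAp.1.mono subset_union_left, ?_⟩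
      have : (rest G (A ∪ A')).Nonempty := by
        rw [← card_pos]
        omega
      obtain ⟨z, hz⟩ := this
      exact ⟨z, mem_rest.1 hz⟩
    have e7 := h0 _ hpr
    have e8 := h1 _ (pr_inter hAp hne) (by omega)
    have e9 : A ∩ A' = A := eq_of_subset_of_card_le inter_subset_left e8
    have e10 : A ⊆ A' := inter_eq_left.1 e9
    exact (eq_of_subset_of_card_le e10 (by omega)).symm
  -- a vertex of the boundary
  obtain ⟨y0, hy0⟩ := hAp.1
  have hbd : (bd G A).Nonempty := by
    by_contra hcon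
    rw [not_nonempty_iff_eq_empty] at hcon
    obtain ⟨z, hz, -⟩ := hAp.2
    have h5 : ∀ x y, G.Reachable x y → x ∈ A → y ∈ A := by
      rintro x y ⟨w⟩
      induction w with
      | nil => exact id
      | @cons x y z hxy _ ih =>
        intro hx
        apply ih
        by_contra hy
        have : y ∈ bd G A := mem_bd.2 ⟨hy, x, hx, hxy⟩
        rw [hcon] at this
        simp at this
    exact hz (h5 y0 z (hG.preconnected y0 z) hy0)
  obtain ⟨x, hx⟩ := hbd
  obtain ⟨φ, hφ⟩ := ht y0 x
  set A' := A.image φ with hA'def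
  have hA'p : Pr G A' := pr_image φ hAp
  have hA'κ : (bd G A').card = κ := by
    rw [hA'def, bd_image, card_image_of_injective _ φ.injective, hAκ]
  have hA'c : A'.card = A.card := card_image_of_injective _ φ.injective
  have hxA' : x ∈ A' := mem_image.2 ⟨y0, hy0, hφ⟩
  have hxA : x ∉ A := (mem_bd.1 hx).1
  have hdis : ∀ v ∈ A, v ∉ A' := by
    intro v hv hv'
    have := h4 A' hA'p hA'κ hA'c ⟨v, mem_inter.2 ⟨hv, hv'⟩⟩
    rw [this] at hxA'
    exact hxA hxA'
  have hAle : A.card ≤ κ := by
    by_cases hP : (A' ∩ rest G A).Nonempty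
    · have e1 := submod (G := G) A' (rest G A)
      have e2 := h0 _ (pr_inter hA'p hP)
      have e3 : (bd G (rest G A)).card ≤ κ := by
        rw [← hAκ]
        exact card_le_card (bd_rest A)
      by_cases hR : ∃ z, z ∉ A' ∪ rest G A ∧ z ∉ bd G (A' ∪ rest G A)
      · exfalso
        have e4 := h0 _ (⟨hA'p.1.mono subset_union_left, hR⟩ : Pr G (A' ∪ rest G A))
        have e5 := h1 _ (pr_inter hA'p hP) (by omega)
        have e6 : A' ∩ rest G A = A' := eq_of_subset_of_card_le inter_subset_left (by omega)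
        have e7 : x ∈ rest G A := by
          have : x ∈ A' ∩ rest G A := by rw [e6]; exact hxA'
          exact (mem_inter.1 this).2
        exact (mem_rest.1 e7).2 hx
      · push Not at hR
        have e4 : A ⊆ bd G (A' ∪ rest G A) := by
          intro v hv
          refine hR v ?_
          rw [mem_union, not_or]
          exact ⟨hdis v hv, fun h => (mem_rest.1 h).1 hv⟩
        have e5 := card_le_card e4
        omega
    · have e1 : A' ⊆ bd G A := by
        intro v hv
        by_contra h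
        apply hP
        refine ⟨v, mem_inter.2 ⟨hv, mem_rest.2 ⟨fun h' => hdis v h' hv, h⟩⟩⟩
      have e2 := card_le_card e1
      omega
  -- the neighbours of `y0`
  have h6 : (G.neighborSet y0) ⊆ ((A.erase y0 ∪ bd G A : Finset U) : Set U) := by
    intro z hz
    have hz' : G.Adj y0 z := hz
    rw [mem_coe, mem_union, mem_erase]
    by_cases hzA : z ∈ A
    · left
      exact ⟨hz'.ne', hzA⟩
    · right
      exact mem_bd.2 ⟨hzA, y0, hy0, hz'⟩
  have h7 := Set.ncard_le_ncard h6 (Set.toFinite _)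
  rw [hr, Set.ncard_coe_finset] at h7
  have h8 := card_union_le (A.erase y0) (bd G A)
  rw [card_erase_of_mem hy0] at h8
  have h9 := card_pos.2 (⟨y0, hy0⟩ : A.Nonempty)
  have h10 := h0 F hF
  omega

theorem kconn (hG : G.Connected) (ht : ∀ x y : U, ∃ φ : G ≃g G, φ x = y) {r κ : ℕ}
    (hr : ∀ x, (G.neighborSet x).ncard = r) (hκ : 2 * κ ≤ r + 1) : KConnected κ G := by
  classical
  obtain ⟨x0⟩ := hG.nonempty
  have hcard : r + 1 ≤ Fintype.card U := by
    have h1 : (G.neighborSet x0) ⊆ (((univ : Finset U).erase x0 : Finset U) : Set U) := by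
      intro z hz
      have hz' : G.Adj x0 z := hz
      rw [mem_coe, mem_erase]
      exact ⟨hz'.ne', mem_univ _⟩
    have h2 := Set.ncard_le_ncard h1 (Set.toFinite _)
    rw [hr, Set.ncard_coe_finset, card_erase_of_mem (mem_univ _), card_univ] at h2
    have h3 : 0 < Fintype.card U := Fintype.card_pos_iff.2 ⟨x0⟩
    omega
  refine kconn_of le_rfl ?_
  intro X hX
  refine ⟨?_, ?_⟩
  · by_contra hcon
    push Not at hcon
    have h1 : X = univ := eq_univ_iff_forall.2 hcon
    rw [h1, card_univ] at hX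
    omega
  · intro x y hx hy
    by_contra hxy
    let F : Finset U := univ.filter fun z => z ∉ X ∧ Rch G X x z
    have hF : ∀ z, z ∈ F ↔ z ∉ X ∧ Rch G X x z := fun z => by simp [F]
    have hbd : bd G F ⊆ X := by
      intro z hz
      obtain ⟨h1, u, hu, huz⟩ := mem_bd.1 hz
      by_contra hzX
      obtain ⟨huX, hur⟩ := (hF u).1 hu
      exact h1 ((hF z).2 ⟨hzX, hur.trans (Rch.single huz huX hzX)⟩)
    have hpr : Pr G F := by
      refine ⟨⟨x, (hF x).2 ⟨hx, Rch.refl x⟩⟩, y, ?_, fun h => hy (hbd h)⟩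
      intro h
      exact hxy ((hF y).1 h).2
    have h1 := bound hG ht hr hpr
    have h2 := card_le_card hbd
    omega

end Pool.Agent.H557.RG.Atom
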