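import Mathlib

/-!
# Cayley graphs of large girth
-/

set_option autoImplicit false
set_option linter.unusedSectionVars false

namespace Pool.Agent.H557.RG.Cay

variable {r L : ℕ}

/-- reduced words of length at most `L` -/
def Wd (r L : ℕ) : Type := {w : List (Fin r) // w.IsChain (· ≠ ·) ∧ w.length ≤ L}

instance : Finite (Wd r L) := by
  have h := List.finite_length_le (Fin r) L
  exact (h.subset (s := {w : List (Fin r) | w.length ≤ L})
    (t := {w : List (Fin r) | w.IsChain (· ≠ ·) ∧ w.length ≤ L}) (fun w hw => hw.2)).to_subtype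

/-- put the letter `a` in front of the word or cancel it -/
def act (L : ℕ) (a : Fin r) (w : List (Fin r)) : List (Fin r) :=
  if w.head? = some a then w.tail else if w.length < L then a :: w else w

theorem act_cons {a : Fin r} {w : List (Fin r)} (h : w.head? ≠ some a) (hw : w.length < L) :
    act L a w = a :: w := by
  unfold act
  rw [if_neg h, if_pos hw]

theorem act_length (a : Fin r) (w : List (Fin r)) : (act L a w).length ≤ w.length + 1 := by
  unfold act
  split_ifs
  · rw [List.length_tail]
    omega
  · simp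
  · omega

theorem act_mem {a : Fin r} {w : List (Fin r)} (hw : w.IsChain (· ≠ ·) ∧ w.length ≤ L) :
    (act L a w).IsChain (· ≠ ·) ∧ (act L a w).length ≤ L := by
  unfold act
  split_ifs with h1 h2
  · exact ⟨hw.1.tail, by rw [List.length_tail]; omega⟩
  · refine ⟨?_, by simpa using h2⟩
    rw [List.isChain_cons]
    refine ⟨?_, hw.1⟩
    intro y hy hay
    apply h1
    rw [hay]
    exact hy
  · exact hw

theorem act_act {a : Fin r} {w : List (Fin r)} (hw : w.IsChain (· ≠ ·) ∧ w.length ≤ L) :
    act L a (act L a w) = w := by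
  by_cases h1 : w.head? = some a
  · have h2 : act L a w = w.tail := by
      unfold act
      rw [if_pos h1]
    rw [h2]
    rcases w with _ | ⟨b, w⟩
    · simp at h1
    · have hb : b = a := by simpa using h1
      subst hb
      have h3 := hw.1
      rw [List.isChain_cons] at h3
      have h4 := hw.2
      rw [List.length_cons] at h4
      rw [List.tail_cons]
      refine act_cons ?_ (by omega)
      intro h5
      exact h3.1 _ h5 rfl
  · by_cases h2 : w.length < L
    · rw [act_cons h1 h2]
      unfold act
      simp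
    · have h3 : act L a w = w := by
        unfold act
        rw [if_neg h1, if_neg h2]
      rw [h3, h3]

/-- the permutation given by the letter `a` -/
def π (a : Fin r) : Equiv.Perm (Wd r L) :=
  Function.Involutive.toPerm (fun w => ⟨act L a w.1, act_mem w.2⟩) (fun w =>
    Subtype.ext (act_act w.2))

theorem π_apply (a : Fin r) (w : Wd r L) : (π a w).1 = act L a w.1 := rfl

theorem π_mul (a : Fin r) : (π a : Equiv.Perm (Wd r L)) * π a = 1 := by
  exact Equiv.ext fun w => Subtype.ext (act_act w.2)

/-- the generators -/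
def gen (a : Fin r) : Equiv.Perm (Wd r L) × Multiplicative (ZMod 2) :=
  (π a, Multiplicative.ofAdd 1)

theorem gen_mul (a : Fin r) : (gen a : Equiv.Perm (Wd r L) × Multiplicative (ZMod 2)) * gen a = 1 := by
  unfold gen
  rw [Prod.mk_mul_mk, π_mul, ← ofAdd_add]
  rfl

/-- the group -/
def Γ (r L : ℕ) : Subgroup (Equiv.Perm (Wd r L) × Multiplicative (ZMod 2)) :=
  Subgroup.closure (Set.range gen)

/-- the generators as elements of the group -/
def s (a : Fin r) : Γ r L := ⟨gen a, Subgroup.subset_closure ⟨a, rfl⟩⟩

theorem s_mul (a : Fin r) : (s a : Γ r L) * s a = 1 := Subtype.ext (gen_mul a)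

theorem s_inv (a : Fin r) : (s a : Γ r L)⁻¹ = s a := inv_eq_of_mul_eq_one_left (s_mul a)

instance : Finite (Γ r L) := by
  unfold Γ
  infer_instance

/-- the colour of an element -/
def col (x : Γ r L) : ZMod 2 := Multiplicative.toAdd x.1.2

theorem col_mul (x : Γ r L) (a : Fin r) : col (x * s a) = col x + 1 := rfl

/-- the value at the empty word -/
def ev (x : Γ r L) : List (Fin r) := (x.1.1 ⟨[], by simp⟩).1

theorem ev_one : ev (1 : Γ r L) = [] := rfl

theorem ev_mul (a : Fin r) (x : Γ r L) : ev (s a * x) = act L a (ev x) := rfl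

/-- the product of the generators along a word -/
def pw (w : List (Fin r)) : Γ r L := (w.map s).prod

theorem pw_nil : (pw [] : Γ r L) = 1 := rfl

theorem pw_cons (a : Fin r) (w : List (Fin r)) : (pw (a :: w) : Γ r L) = s a * pw w := rfl

theorem pw_append (w w' : List (Fin r)) : (pw (w ++ w') : Γ r L) = pw w * pw w' := by
  unfold pw
  rw [List.map_append, List.prod_append]

theorem ev_pw {w : List (Fin r)} (h : w.IsChain (· ≠ ·)) (hL : w.length ≤ L) :
    ev (pw w : Γ r L) = w := by
  induction w with
  | nil => rfl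
  | cons a w ih =>
    rw [List.isChain_cons] at h
    rw [List.length_cons] at hL
    rw [pw_cons, ev_mul, ih h.2 (by omega)]
    refine act_cons ?_ (by omega)
    intro h5
    exact h.1 _ h5 rfl

theorem ev_pw_length (w : List (Fin r)) : (ev (pw w : Γ r L)).length ≤ w.length := by
  induction w with
  | nil => simp [pw_nil, ev_one]
  | cons a w ih =>
    rw [pw_cons, ev_mul, List.length_cons]
    exact (act_length a _).trans (by omega)

/-- the Cayley graph -/
def cay (r L : ℕ) : SimpleGraph (Γ r L) where
  Adj x y := ∃ a, y = x * s a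
  symm := ⟨by
    rintro x y ⟨a, rfl⟩
    exact ⟨a, by rw [mul_assoc, s_mul, mul_one]⟩⟩
  loopless := ⟨by
    rintro x ⟨a, h⟩
    have h1 := congrArg col h
    rw [col_mul] at h1
    simp at h1⟩

theorem cay_adj (x y : Γ r L) : (cay r L).Adj x y ↔ ∃ a, y = x * s a := Iff.rfl

theorem cay_col {x y : Γ r L} (h : (cay r L).Adj x y) : col y = col x + 1 := by
  obtain ⟨a, rfl⟩ := h
  exact col_mul x a

theorem cay_connected : (cay r L).Connected := by
  have h : ∀ x : Γ r L, (cay r L).Reachable 1 x := by
    rintro ⟨x, hx⟩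
    have h1 : ∀ x (hx : x ∈ Subgroup.closure (Set.range (gen : Fin r → _))),
        (cay r L).Reachable 1 ⟨x, hx⟩ := by
      intro x hx
      induction hx using Subgroup.closure_induction_right with
      | one => exact SimpleGraph.Reachable.refl _
      | mul_right x hx y hy ih =>
        obtain ⟨a, rfl⟩ := hy
        exact ih.trans (SimpleGraph.Adj.reachable ⟨a, rfl⟩)
      | mul_inv_cancel x hx y hy ih =>
        obtain ⟨a, rfl⟩ := hy
        refine ih.trans (SimpleGraph.Adj.reachable ⟨a, ?_⟩)
        apply Subtype.ext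
        show x * (gen a)⁻¹ = x * gen a
        rw [inv_eq_of_mul_eq_one_left (gen_mul a)]
    exact h1 x hx
  exact ⟨fun x y => (h x).symm.trans (h y)⟩

/-- left multiplication -/
def lmul (g : Γ r L) : cay r L ≃g cay r L where
  toEquiv := Equiv.mulLeft g
  map_rel_iff' := by
    intro x y
    constructor
    · rintro ⟨a, h⟩
      refine ⟨a, ?_⟩
      have h' : g * y = g * x * s a := h
      rw [mul_assoc] at h'
      exact mul_left_cancel h'
    · rintro ⟨a, rfl⟩
      refine ⟨a, ?_⟩
      show g * (x * s a) = g * x * s a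
      rw [mul_assoc]

theorem cay_transitive (x y : Γ r L) : ∃ φ : cay r L ≃g cay r L, φ x = y := by
  refine ⟨lmul (y * x⁻¹), ?_⟩
  show y * x⁻¹ * x = y
  rw [mul_assoc, inv_mul_cancel, mul_one]

theorem s_injective (hL : 1 ≤ L) : Function.Injective (s : Fin r → Γ r L) := by
  intro a b hab
  have h1 : ev (pw [a] : Γ r L) = [a] := ev_pw (by simp) (by simpa using hL)
  have h2 : ev (pw [b] : Γ r L) = [b] := ev_pw (by simp) (by simpa using hL)
  have h3 : (pw [a] : Γ r L) = pw [b] := by
    rw [pw_cons, pw_cons, hab]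
  rw [h3, h2] at h1
  simpa using h1.symm

theorem cay_degree (hL : 1 ≤ L) (x : Γ r L) : ((cay r L).neighborSet x).ncard = r := by
  have h1 : (cay r L).neighborSet x = Set.range (fun a : Fin r => x * s a) := by
    ext y
    constructor
    · rintro ⟨a, rfl⟩
      exact ⟨a, rfl⟩
    · rintro ⟨a, rfl⟩
      exact ⟨a, rfl⟩
  rw [h1, ← Set.image_univ, Set.ncard_image_of_injective _ (fun a b hab =>
    s_injective hL (mul_left_cancel hab)), Set.ncard_univ, Nat.card_eq_fintype_card,
    Fintype.card_fin]

/-! ### Walks -/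

/-- the word of a walk -/
theorem walk_word (l : ℕ) : ∀ (x : ℕ → Γ r L), (∀ n < l, (cay r L).Adj (x n) (x (n + 1))) →
    ∃ w : List (Fin r), w.length = l ∧ x l = x 0 * pw w := by
  induction l with
  | zero =>
    intro x _
    exact ⟨[], rfl, by rw [pw_nil, mul_one]⟩
  | succ l ih =>
    intro x h
    obtain ⟨w, hw, hx⟩ := ih (fun n => x (n + 1)) (fun n hn => h (n + 1) (by omega))
    obtain ⟨a, ha⟩ := h 0 (by omega)
    refine ⟨a :: w, by rw [List.length_cons, hw], ?_⟩
    have hx' : x (l + 1) = x (0 + 1) * pw w := hx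
    rw [hx', ha, pw_cons, mul_assoc]

/-- the word of a walk without backtracking is reduced -/
theorem walk_reduced (l : ℕ) : ∀ (x : ℕ → Γ r L), (∀ n < l, (cay r L).Adj (x n) (x (n + 1))) →
    (∀ n, n + 1 < l → x n ≠ x (n + 2)) →
    ∃ w : List (Fin r), w.length = l ∧ x l = x 0 * pw w ∧ w.IsChain (· ≠ ·) ∧
      ∀ b ∈ w.head?, x 1 = x 0 * s b := by
  induction l with
  | zero =>
    intro x _ _
    exact ⟨[], rfl, by rw [pw_nil, mul_one], by simp, by simp⟩
  | succ l ih =>
    intro x h hnb
    obtain ⟨w, hw, hx, hc, hb⟩ := ih (fun n => x (n + 1)) (fun n hn => h (n + 1) (by omega))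
      (fun n hn => hnb (n + 1) (by omega))
    obtain ⟨a, ha⟩ := h 0 (by omega)
    have hx' : x (l + 1) = x (0 + 1) * pw w := hx
    have hb' : ∀ b ∈ w.head?, x (1 + 1) = x (0 + 1) * s b := hb
    refine ⟨a :: w, by rw [List.length_cons, hw], ?_, ?_, ?_⟩
    · rw [hx', ha, pw_cons, mul_assoc]
    · rw [List.isChain_cons]
      refine ⟨?_, hc⟩
      intro b hbw hab
      subst hab
      have h2 := hb' a hbw
      have hl : 1 ≤ l := by
        rcases w with _ | ⟨c, w⟩
        · simp at hbw
        · rw [List.length_cons] at hw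
          omega
      apply hnb 0 (by omega)
      show x 0 = x (1 + 1)
      rw [h2, ha, mul_assoc, s_mul, mul_one]
    · intro b hb
      have : a = b := by simpa using hb
      rw [← this]
      exact ha

/-- short walks without backtracking are not closed -/
theorem cay_girth (x : ℕ → Γ r L) (l : ℕ) (hl : 1 ≤ l) (hL : l ≤ L)
    (h : ∀ n < l, (cay r L).Adj (x n) (x (n + 1))) (hnb : ∀ n, n + 1 < l → x n ≠ x (n + 2)) :
    x 0 ≠ x l := by
  obtain ⟨w, hw, hx, hc, -⟩ := walk_reduced l x h hnb
  intro h0
  rw [← h0] at hx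
  have h1 : (pw w : Γ r L) = 1 := by
    have h2 : x 0 * 1 = x 0 * pw w := by rw [mul_one]; exact hx
    exact (mul_left_cancel h2).symm
  have h3 := ev_pw hc (by omega : w.length ≤ L)
  rw [h1, ev_one] at h3
  rw [← h3] at hw
  simp at hw
  omega

/-- the distance between the ends of a reduced word -/
theorem cay_dist {v : List (Fin r)} (hv : v.IsChain (· ≠ ·)) (hL : v.length ≤ L)
    (x : ℕ → Γ r L) (l : ℕ) (h : ∀ n < l, (cay r L).Adj (x n) (x (n + 1)))
    (hx : x l = x 0 * pw v) : v.length ≤ l := by
  obtain ⟨w, hw, hx'⟩ := walk_word l x h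
  have h1 : (pw w : Γ r L) = pw v := mul_left_cancel (hx'.symm.trans hx)
  have h2 := ev_pw hv hL
  rw [← h1] at h2
  have h3 := ev_pw_length (L := L) w
  rw [h2] at h3
  omega

/-! ### Many vertices far apart -/

/-- the alternating word of length `n` -/
def alt (a b : Fin r) : ℕ → List (Fin r)
  | 0 => []
  | n + 1 => a :: alt b a n

theorem alt_length (n : ℕ) : ∀ a b : Fin r, (alt a b n).length = n := by
  induction n with
  | zero => exact fun _ _ => rfl
  | succ n ih =>
    intro a b
    show (a :: alt b a n).length = _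
    rw [List.length_cons, ih]

theorem alt_chain (n : ℕ) : ∀ a b : Fin r, a ≠ b → (alt a b n).IsChain (· ≠ ·) := by
  induction n with
  | zero => exact fun _ _ _ => by simp [alt]
  | succ n ih =>
    intro a b hab
    show (a :: alt b a n).IsChain _
    rw [List.isChain_cons]
    refine ⟨?_, ih b a hab.symm⟩
    intro y hy
    rcases n with _ | n
    · simp [alt] at hy
    · have : b = y := by simpa [alt] using hy
      rw [← this]
      exact hab

theorem alt_add (m : ℕ) : ∀ (n : ℕ) (a b : Fin r), ∃ c e : Fin r, (a ≠ b → c ≠ e) ∧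
    alt a b (m + n) = alt a b m ++ alt c e n := by
  induction m with
  | zero =>
    intro n a b
    exact ⟨a, b, id, by rw [zero_add]; rfl⟩
  | succ m ih =>
    intro n a b
    obtain ⟨c, e, hce, h⟩ := ih n b a
    refine ⟨c, e, fun hab => hce hab.symm, ?_⟩
    rw [show m + 1 + n = (m + n) + 1 by ring]
    show a :: alt b a (m + n) = a :: (alt b a m) ++ alt c e n
    rw [h]
    rfl

theorem col_pw (w : List (Fin r)) (x : Γ r L) : col (x * pw w) = col x + w.length := by
  induction w generalizing x with
  | nil => simp [pw_nil]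
  | cons a w ih =>
    rw [pw_cons, ← mul_assoc, ih, col_mul, List.length_cons]
    push_cast
    ring

/-- distance between points of the alternating path -/
theorem far {a b : Fin r} (hab : a ≠ b) {i j : ℕ} (hij : i ≤ j) (hj : j ≤ L)
    (x : ℕ → Γ r L) (l : ℕ) (h : ∀ n < l, (cay r L).Adj (x n) (x (n + 1)))
    (h0 : x 0 = pw (alt a b i)) (hl : x l = pw (alt a b j)) : j - i ≤ l := by
  obtain ⟨c, e, hce, h1⟩ := alt_add i (j - i) a b
  rw [show i + (j - i) = j by omega] at h1
  have h2 := cay_dist (alt_chain (j - i) c e (hce hab)) (by rw [alt_length]; omega) x l h (by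
    rw [h0, hl, h1, pw_append])
  rwa [alt_length] at h2

end Pool.Agent.H557.RG.Cay
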