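import Mathlib
import Pool.Agent.H557.RG.Atom
import Pool.Agent.H557.RG.Cay
import Pool.Graph.R_pool_sql_team_seeded_3997aac3.Q231.VT.Trans

/-!
# Rigid, highly connected, bipartite graphs of large girth
-/

set_option autoImplicit false
set_option linter.unusedSectionVars false

namespace Pool.Agent.H557.RG

open Finset Pool.Agent.H283R2.DR Pool.Agent.H789R5

/-- `x 0, x 1, …, x l` is a walk of `G` -/
def Wk {U : Type} (G : SimpleGraph U) (x : ℕ → U) (l : ℕ) : Prop := ∀ n < l, G.Adj (x n) (x (n + 1))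

/-- walks of positive length less than `g` without backtracking are not closed -/
def NoShort {U : Type} (g : ℕ) (G : SimpleGraph U) : Prop :=
  ∀ (x : ℕ → U) (l : ℕ), 1 ≤ l → l < g → Wk G x l → (∀ n, n + 1 < l → x n ≠ x (n + 2)) → x 0 ≠ x l

/-- the distances between the vertices `e j` are at least `g` -/
def Far {U J : Type} (g : ℕ) (G : SimpleGraph U) (e : J → U) : Prop :=
  ∀ i j, i ≠ j → ∀ (x : ℕ → U) (l : ℕ), Wk G x l → x 0 = e i → x l = e j → g ≤ l

theorem exists_body (d k g N : ℕ) : ∃ (T : Type) (_ : Fintype T) (R : SimpleGraph T)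
    (c : T → Bool) (e : Fin N × Bool → T), Function.Injective e ∧
    GenRigid d R ∧ KConnected (d * (d + 1)) R ∧ (∀ t, k ≤ (R.neighborSet t).ncard) ∧
    (∀ s t, R.Adj s t → c s ≠ c t) ∧ (∀ j b, c (e (j, b)) = b) ∧ NoShort g R ∧ Far g R e := by
  classical
  set r := 2 * (d * (d + 1)) + k + 2 with hr
  set L := 4 * (g + 1) * N + 2 * (g + 1) + g with hL
  have : Fintype (Cay.Γ r L) := Fintype.ofFinite _
  have hL1 : 1 ≤ L := by omega
  have hconn : (Cay.cay r L).Connected := Cay.cay_connected
  let a : Fin r := ⟨0, by omega⟩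
  let b : Fin r := ⟨1, by omega⟩
  have hab : a ≠ b := by
    intro h
    have := congrArg Fin.val h
    simp [a, b] at this
  let pos : Fin N × Bool → ℕ := fun j => 4 * (g + 1) * j.1 + (if j.2 then 2 * g + 1 else 0)
  have hpos : ∀ j, pos j ≤ L := by
    rintro ⟨j, c⟩
    have h1 : 4 * (g + 1) * (j : ℕ) ≤ 4 * (g + 1) * N := Nat.mul_le_mul_left _ j.2.le
    show 4 * (g + 1) * (j : ℕ) + (if c then 2 * g + 1 else 0) ≤ L
    split_ifs <;> omega
  have hsep : ∀ i j, i ≠ j → pos i ≤ pos j → g + 1 ≤ pos j - pos i := by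
    rintro ⟨i, c⟩ ⟨j, c'⟩ hij hle
    have e1 : 4 * (g + 1) * (i : ℕ) + (if c then 2 * g + 1 else 0) ≤
      4 * (g + 1) * (j : ℕ) + (if c' then 2 * g + 1 else 0) := hle
    show g + 1 ≤ 4 * (g + 1) * (j : ℕ) + (if c' then 2 * g + 1 else 0) -
      (4 * (g + 1) * (i : ℕ) + (if c then 2 * g + 1 else 0))
    rcases lt_trichotomy (i : ℕ) (j : ℕ) with h | h | h
    · have h1 : 4 * (g + 1) * ((i : ℕ) + 1) ≤ 4 * (g + 1) * (j : ℕ) := Nat.mul_le_mul_left _ h
      rw [mul_add, mul_one] at h1
      split_ifs <;> omega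
    · rw [h] at e1 ⊢
      have hc : c ≠ c' := by
        intro hcc
        exact hij (Prod.ext (Fin.ext h) hcc)
      cases c <;> cases c'
      · exact absurd rfl hc
      · simp
        omega
      · simp at e1
      · exact absurd rfl hc
    · have h1 : 4 * (g + 1) * ((j : ℕ) + 1) ≤ 4 * (g + 1) * (i : ℕ) := Nat.mul_le_mul_left _ h
      rw [mul_add, mul_one] at h1
      split_ifs at e1 <;> omega
  let e : Fin N × Bool → Cay.Γ r L := fun j => Cay.pw (Cay.alt a b (pos j))
  have hfar : ∀ i j, i ≠ j → ∀ (x : ℕ → Cay.Γ r L) (l : ℕ), Wk (Cay.cay r L) x l →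
      x 0 = e i → x l = e j → g + 1 ≤ l := by
    intro i j hij x l hx h0 hl
    rcases le_total (pos i) (pos j) with h | h
    · exact (hsep i j hij h).trans (Cay.far hab h (hpos j) x l hx h0 hl)
    · refine (hsep j i hij.symm h).trans (Cay.far hab h (hpos i) (fun n => x (l - n)) l ?_ ?_ ?_)
      · intro n hn
        have h1 := hx (l - (n + 1)) (by omega)
        rw [show l - (n + 1) + 1 = l - n by omega] at h1
        exact h1.symm
      · show x (l - 0) = _
        rw [Nat.sub_zero]
        exact hl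
      · show x (l - l) = _
        rw [Nat.sub_self]
        exact h0
  refine ⟨Cay.Γ r L, inferInstance, Cay.cay r L, fun x => decide (Cay.col x = 1), e, ?_, ?_, ?_,
    ?_, ?_, ?_, ?_, ?_⟩
  · intro i j hij
    by_contra hne
    have := hfar i j hne (fun _ => e i) 0 (fun n hn => absurd hn (by omega)) rfl hij
    omega
  · refine Pool.Agent.Q231.VT.vt_rigid (Cay.cay r L) hconn Cay.cay_transitive ?_
    intro v
    have h1 := Cay.cay_degree hL1 v
    rw [← SimpleGraph.coe_neighborFinset, Set.ncard_coe_finset,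
      SimpleGraph.card_neighborFinset_eq_degree] at h1
    rw [h1]
    omega
  · exact Atom.kconn hconn Cay.cay_transitive (Cay.cay_degree hL1) (by omega)
  · intro t
    rw [Cay.cay_degree hL1]
    omega
  · intro x y hxy
    show decide (Cay.col x = 1) ≠ decide (Cay.col y = 1)
    rw [Cay.cay_col hxy]
    have : ∀ z : ZMod 2, decide (z = 1) ≠ decide (z + 1 = 1) := by decide
    exact this _
  · rintro j c
    show decide (Cay.col (Cay.pw (Cay.alt a b (pos (j, c)))) = 1) = c
    have h1 := Cay.col_pw (L := L) (Cay.alt a b (pos (j, c))) 1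
    rw [one_mul, Cay.alt_length] at h1
    rw [h1]
    have h2 : Cay.col (1 : Cay.Γ r L) = 0 := rfl
    rw [h2, zero_add]
    have h3 : ((4 : ℕ) : ZMod 2) = 0 := by decide
    show decide (((4 * (g + 1) * (j : ℕ) + (if c then 2 * g + 1 else 0) : ℕ) : ZMod 2) = 1) = c
    cases c
    · simp only [Nat.cast_add, Nat.cast_mul, h3, zero_mul, Bool.false_eq_true, if_false,
        add_zero]
      decide
    · have h4 : ((2 : ℕ) : ZMod 2) = 0 := by decide
      simp only [Nat.cast_add, Nat.cast_mul, h3, zero_mul, if_true, h4, Nat.cast_one, zero_add]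
      decide
  · intro x l h1 h2 hx hnb
    exact Cay.cay_girth x l h1 (by omega) hx hnb
  · intro i j hij x l hx h0 hl
    have := hfar i j hij x l hx h0 hl
    omega

end Pool.Agent.H557.RG
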