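import Mathlib
import Pool.Agent.H557.RG.Ext

/-!
# A placement at which a cluster of complete bodies is pinned
-/

set_option autoImplicit false
set_option linter.unusedSectionVars false

namespace Pool.Agent.H557.RG

open Matrix Finset Pool.Agent.H283R2.DR Pool.Agent.H789R5

/-! ### A partition of the edges of a complete graph into spanning double stars -/

/-- the label of an edge of the complete graph on `Fin D × Bool` -/
def lab0 {D : ℕ} (x y : Fin D × Bool) : Fin D := if x.2 = y.2 then max x.1 y.1 else min x.1 y.1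

theorem lab0_comm {D : ℕ} (x y : Fin D × Bool) : lab0 x y = lab0 y x := by
  unfold lab0
  by_cases h : x.2 = y.2
  · rw [if_pos h, if_pos h.symm, max_comm]
  · rw [if_neg h, if_neg (Ne.symm h), min_comm]

theorem lab0_conn {D : ℕ} (t : Fin D) (φ : Fin D × Bool → ℝ)
    (h : ∀ x y, x ≠ y → lab0 x y = t → φ x = φ y) (x y : Fin D × Bool) : φ x = φ y := by
  have h0 : φ (t, true) = φ (t, false) := h _ _ (by simp) (by simp [lab0])
  have h1 : ∀ b, φ (t, b) = φ (t, false) := by
    intro b
    cases b
    · rfl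
    · exact h0
  have h2 : ∀ z : Fin D × Bool, φ z = φ (t, false) := by
    rintro ⟨s, ε⟩
    rcases lt_trichotomy s t with hs | hs | hs
    · rw [← h1 ε]
      refine h _ _ ?_ ?_
      · intro h3
        exact hs.ne (congrArg Prod.fst h3)
      · simp [lab0, max_eq_right hs.le]
    · subst hs
      exact h1 ε
    · rw [← h1 (!ε)]
      refine h _ _ ?_ ?_
      · intro h3
        exact hs.ne (congrArg Prod.fst h3).symm
      · simp [lab0, min_eq_right hs.le]
  rw [h2 x, h2 y]

theorem exists_lab {Z : Type} [Fintype Z] {D : ℕ} (hZ : Fintype.card Z = 2 * D) :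
    ∃ lab : Z → Z → Fin D, (∀ x y, lab x y = lab y x) ∧
      ∀ (t : Fin D) (φ : Z → ℝ), (∀ x y, x ≠ y → lab x y = t → φ x = φ y) →
        ∀ x y, φ x = φ y := by
  have hc : Fintype.card Z = Fintype.card (Fin D × Bool) := by
    rw [hZ, Fintype.card_prod, Fintype.card_fin, Fintype.card_bool, mul_comm]
  let e : Z ≃ Fin D × Bool := Fintype.equivOfCardEq hc
  refine ⟨fun x y => lab0 (e x) (e y), fun x y => lab0_comm _ _, ?_⟩
  intro t φ h x y
  have h1 := lab0_conn t (φ ∘ e.symm) (by
    intro a b hab hl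
    refine h _ _ (fun h' => hab (e.symm.injective h')) ?_
    simpa using hl) (e x) (e y)
  simpa using h1

theorem card_lt_pairs (n : ℕ) :
    Fintype.card {x : Fin n × Fin n // x.1 < x.2} = n * (n - 1) / 2 := by
  rw [Fintype.card_subtype, Finset.card_filter, Fintype.sum_prod_type_right]
  have h2 : ∀ b : Fin n, (∑ a : Fin n, if a < b then 1 else 0) = (b : ℕ) := by
    intro b
    rw [← Finset.card_filter]
    have : (Finset.univ.filter fun a : Fin n => a < b) = Finset.Iio b := by
      ext; simp
    rw [this, Fin.card_Iio]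
  rw [Finset.sum_congr rfl fun b _ => h2 b, Fin.sum_univ_eq_sum_range (fun i => i) n,
    Finset.sum_range_id]

theorem exists_pairs (d : ℕ) : ∃ pr : Fin (d * (d + 1) / 2) → Fin (d + 1) × Fin (d + 1),
    ∀ a b, a ≠ b → ∃ t, pr t = (a, b) ∨ pr t = (b, a) := by
  have hc : Fintype.card (Fin (d * (d + 1) / 2)) =
      Fintype.card {x : Fin (d + 1) × Fin (d + 1) // x.1 < x.2} := by
    rw [card_lt_pairs, Fintype.card_fin, Nat.add_sub_cancel, mul_comm]
  let e := Fintype.equivOfCardEq hc
  refine ⟨fun t => (e t).1, ?_⟩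
  intro a b hab
  rcases lt_or_gt_of_ne hab with h | h
  · exact ⟨e.symm ⟨(a, b), h⟩, Or.inl (by simp)⟩
  · exact ⟨e.symm ⟨(b, a), h⟩, Or.inr (by simp)⟩

/-! ### The simplex -/

/-- the vertices of a simplex in `ℝ^d` -/
noncomputable def smp {d : ℕ} (a : Fin (d + 1)) : Fin d → ℝ :=
  Fin.cases 0 (fun k => Pi.single k 1) a

theorem smp_zero {d : ℕ} {w : Fin d → ℝ}
    (h : ∀ a b : Fin (d + 1), (smp b - smp a) ⬝ᵥ w = 0) : w = 0 := by
  funext k
  have h1 := h 0 k.succ
  have h2 : (smp (k.succ) - smp 0 : Fin d → ℝ) = Pi.single k 1 := by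
    simp [smp]
  rw [h2, single_one_dotProduct] at h1
  exact h1

variable {V B T C : Type} {d : ℕ}

/-- the point with parameter `s` on a line through two vertices of the simplex -/
noncomputable def ln (x : Fin (d + 1) × Fin (d + 1)) (s : ℝ) : Fin d → ℝ :=
  smp x.1 + s • (smp x.2 - smp x.1)

theorem ln_sub (x : Fin (d + 1) × Fin (d + 1)) (s s' : ℝ) :
    (ln x s - ln x s' : Fin d → ℝ) = (s - s') • (smp x.2 - smp x.1) := by
  unfold ln
  rw [sub_smul]
  abel

theorem ln_zero (x : Fin (d + 1) × Fin (d + 1)) : (ln x 0 : Fin d → ℝ) = smp x.1 := by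
  simp [ln]

theorem ln_one (x : Fin (d + 1) × Fin (d + 1)) : (ln x 1 : Fin d → ℝ) = smp x.2 := by
  simp [ln]

variable [Fintype B]

theorem pin_complete (hB : Fintype.card B + 1 = d * (d + 1)) (γ : C → B → V)
    (hγ : ∀ c, Function.Injective (γ c)) (ζ : C → B → (Option B ⊕ Fin (d + 1)) → T)
    (hζ : ∀ c i, Function.Injective (ζ c i)) (c : C) :
    ∃ p : V ⊕ C × (B × T) → Fin d → ℝ, Pinned (ext ⊤ γ (fun c i z => ζ c i (Sum.inl z))) c p := by
  classical
  obtain ⟨D, hD⟩ := Nat.even_mul_succ_self d
  have hD2 : d * (d + 1) / 2 = D := by omega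
  have hZ : Fintype.card (Option B) = 2 * (d * (d + 1) / 2) := by
    rw [Fintype.card_option]
    omega
  obtain ⟨lab, hsym, hlab⟩ := exists_lab hZ
  obtain ⟨pr, hpr⟩ := exists_pairs d
  let σ : Option B → ℝ := fun z => ((Fintype.equivFin (Option B) z : ℕ) : ℝ)
  have hσ : Function.Injective σ := by
    intro x y hxy
    have h1 : ((Fintype.equivFin (Option B) x : ℕ) : ℝ) = ((Fintype.equivFin (Option B) y : ℕ) : ℝ) :=
      hxy
    have h2 := Nat.cast_injective h1
    exact (Fintype.equivFin (Option B)).injective (Fin.ext h2)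
  let p : V ⊕ C × (B × T) → Fin d → ℝ := Sum.elim
    (Function.extend (γ c) (fun i => ln (pr (lab none (some i))) (σ none)) 0)
    (fun y => Function.extend (ζ c y.2.1)
      (Sum.elim (fun z => ln (pr (lab (some y.2.1) z)) (σ (some y.2.1))) smp) 0 y.2.2)
  have pV : ∀ i, p (Sum.inl (γ c i)) = ln (pr (lab none (some i))) (σ none) := fun i => by
    show Function.extend (γ c) (fun i => ln (pr (lab none (some i))) (σ none)) 0 (γ c i) = _
    rw [(hγ c).extend_apply]
  have pZ : ∀ i z, p (Sum.inr (c, i, ζ c i (Sum.inl z))) =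
      ln (pr (lab (some i) z)) (σ (some i)) := fun i z => by
    show Function.extend (ζ c i)
      (Sum.elim (fun z => ln (pr (lab (some i) z)) (σ (some i))) smp) 0 (ζ c i (Sum.inl z)) = _
    rw [(hζ c i).extend_apply]
    rfl
  have pS : ∀ i a, p (Sum.inr (c, i, ζ c i (Sum.inr a))) = smp a := fun i a => by
    show Function.extend (ζ c i)
      (Sum.elim (fun z => ln (pr (lab (some i) z)) (σ (some i))) smp) 0 (ζ c i (Sum.inr a)) = _
    rw [(hζ c i).extend_apply]
    rfl
  refine ⟨p, pinned_of ?_⟩
  intro q hq h0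
  -- the edges inside a body
  have hbody : ∀ i s t, s ≠ t → (p (Sum.inr (c, i, s)) - p (Sum.inr (c, i, t))) ⬝ᵥ
      (q (Sum.inr (c, i, s)) - q (Sum.inr (c, i, t))) = 0 := by
    intro i s t hst
    exact hq _ _ ⟨rfl, Or.inl ⟨rfl, hst⟩⟩
  have hsimp : ∀ i a b, (smp b - smp a) ⬝ᵥ (q (Sum.inr (c, i, ζ c i (Sum.inr b))) -
      q (Sum.inr (c, i, ζ c i (Sum.inr a)))) = 0 := by
    intro i a b
    by_cases hab : b = a
    · subst hab
      rw [sub_self, zero_dotProduct]
    · have := hbody i (ζ c i (Sum.inr b)) (ζ c i (Sum.inr a))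
        (fun h => hab (Sum.inr_injective (hζ c i h)))
      rwa [pS, pS] at this
  -- the velocity of a point of a body along its line
  let φ : Fin (d * (d + 1) / 2) → B → ℝ := fun t i =>
    (smp (pr t).2 - smp (pr t).1) ⬝ᵥ q (Sum.inr (c, i, ζ c i (Sum.inr (pr t).1)))
  have hφ : ∀ i z, (smp (pr (lab (some i) z)).2 - smp (pr (lab (some i) z)).1) ⬝ᵥ
      q (Sum.inr (c, i, ζ c i (Sum.inl z))) = φ (lab (some i) z) i := by
    intro i z
    set t := lab (some i) z with ht
    by_cases hs : σ (some i) = 0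
    · have h1 := hbody i (ζ c i (Sum.inl z)) (ζ c i (Sum.inr (pr t).2))
        (fun h => Sum.inl_ne_inr (hζ c i h))
      rw [pZ, pS, ← ht, ← ln_one (pr t), ln_sub, hs, smul_dotProduct, zero_sub, neg_one_smul,
        neg_eq_zero] at h1
      have h2 := hsimp i (pr t).1 (pr t).2
      rw [dotProduct_sub, sub_eq_zero] at h1 h2
      rw [h1, h2]
    · have h1 := hbody i (ζ c i (Sum.inl z)) (ζ c i (Sum.inr (pr t).1))
        (fun h => Sum.inl_ne_inr (hζ c i h))
      rw [pZ, pS, ← ht, ← ln_zero (pr t), ln_sub, sub_zero, smul_dotProduct, smul_eq_mul,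
        mul_eq_zero] at h1
      have h2 := h1.resolve_left hs
      rw [dotProduct_sub, sub_eq_zero] at h2
      exact h2
  -- it is the same for all bodies, and zero
  have hall : ∀ t i, φ t i = 0 := by
    intro t i
    have h1 := hlab t (fun z => match z with
      | none => 0
      | some i => φ t i) (by
      intro x y hxy hl
      rcases x with _ | i <;> rcases y with _ | j
      · exact absurd rfl hxy
      · show 0 = φ t j
        have h2 : (p (Sum.inr (c, j, ζ c j (Sum.inl none))) - p (Sum.inl (γ c j))) ⬝ᵥ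
            (q (Sum.inr (c, j, ζ c j (Sum.inl none))) - q (Sum.inl (γ c j))) = 0 :=
          hq _ _ ⟨rfl, rfl⟩
        rw [pZ, pV, h0, sub_zero, hsym (some j) none, hl, ln_sub, smul_dotProduct, smul_eq_mul,
          mul_eq_zero] at h2
        have h3 := h2.resolve_left (sub_ne_zero.2 fun h => by
          have := hσ h
          simp at this)
        have h4 := hφ j none
        rw [hsym (some j) none, hl] at h4
        rw [← h4, h3]
      · show φ t i = 0
        have h2 : (p (Sum.inr (c, i, ζ c i (Sum.inl none))) - p (Sum.inl (γ c i))) ⬝ᵥ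
            (q (Sum.inr (c, i, ζ c i (Sum.inl none))) - q (Sum.inl (γ c i))) = 0 :=
          hq _ _ ⟨rfl, rfl⟩
        rw [pZ, pV, h0, sub_zero, hsym none (some i), hl, ln_sub, smul_dotProduct, smul_eq_mul,
          mul_eq_zero] at h2
        have h3 := h2.resolve_left (sub_ne_zero.2 fun h => by
          have := hσ h
          simp at this)
        have h4 := hφ i none
        rw [hl] at h4
        rw [← h4, h3]
      · show φ t i = φ t j
        have hij : i ≠ j := fun h => hxy (by rw [h])
        have h2 : (p (Sum.inr (c, i, ζ c i (Sum.inl (some j)))) -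
            p (Sum.inr (c, j, ζ c j (Sum.inl (some i))))) ⬝ᵥ
            (q (Sum.inr (c, i, ζ c i (Sum.inl (some j)))) -
            q (Sum.inr (c, j, ζ c j (Sum.inl (some i))))) = 0 :=
          hq _ _ ⟨rfl, Or.inr ⟨hij, rfl, rfl⟩⟩
        rw [pZ, pZ, hsym (some j) (some i), hl, ln_sub, smul_dotProduct, smul_eq_mul,
          mul_eq_zero] at h2
        have h3 := h2.resolve_left (sub_ne_zero.2 fun h => hij (by
          have := hσ h
          simpa using this))
        have h4 := hφ i (some j)
        have h5 := hφ j (some i)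
        rw [hl] at h4
        rw [hsym (some j) (some i), hl] at h5
        rw [dotProduct_sub, sub_eq_zero] at h3
        rw [← h4, ← h5, h3]) (some i) none
    exact h1
  -- the vertices of the simplex of a body
  have hz : ∀ i a, q (Sum.inr (c, i, ζ c i (Sum.inr a))) = 0 := by
    intro i a
    have h1 : ∀ b, (smp b - smp a) ⬝ᵥ q (Sum.inr (c, i, ζ c i (Sum.inr a))) = 0 := by
      intro b
      by_cases hab : a = b
      · subst hab
        rw [sub_self, zero_dotProduct]
      · obtain ⟨t, ht | ht⟩ := hpr a b hab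
        · have := hall t i
          simp only [φ, ht] at this
          exact this
        · have h2 := hall t i
          simp only [φ, ht] at h2
          have h3 := hsimp i a b
          rw [dotProduct_sub, sub_eq_zero] at h3
          rw [← h3, ← neg_sub, neg_dotProduct, h2, neg_zero]
    apply smp_zero
    intro b b'
    have h2 := h1 b
    have h3 := h1 b'
    rw [sub_dotProduct, sub_eq_zero] at *
    rw [h3, h2]
  -- all vertices
  rintro ⟨i, s⟩
  by_cases hs : ∃ a, ζ c i (Sum.inr a) = s
  · obtain ⟨a, rfl⟩ := hs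
    exact hz i a
  · apply smp_zero
    intro a b
    have h1 : ∀ a, (p (Sum.inr (c, i, s)) - smp a) ⬝ᵥ q (Sum.inr (c, i, s)) = 0 := by
      intro a
      have h2 := hbody i s (ζ c i (Sum.inr a)) (fun h => hs ⟨a, h.symm⟩)
      rwa [pS, hz, sub_zero] at h2
    have h2 := h1 a
    have h3 := h1 b
    rw [sub_dotProduct, sub_eq_zero] at *
    rw [← h3, ← h2]

end Pool.Agent.H557.RG
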