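import Mathlib
import Pool.Agent.H557.RG.Pin

/-!
# The rank of a graph with attached clusters of rigid bodies
-/

set_option autoImplicit false
set_option linter.unusedSectionVars false

namespace Pool.Agent.H557.RG

open Matrix Finset Pool.Agent.H283R2.DR Pool.Agent.H789R5

variable {V B T C : Type} {d : ℕ}

theorem card_base_le [Fintype B] [Fintype T] (hB : Fintype.card B + 1 = d * (d + 1))
    {i : B} {ζ : B → (Option B ⊕ Fin (d + 1)) → T} (hζ : ∀ i, Function.Injective (ζ i)) :
    d ≤ Fintype.card T := by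
  have h1 := Fintype.card_le_of_injective _ (hζ i)
  rw [Fintype.card_sum, Fintype.card_option, Fintype.card_fin] at h1
  omega

theorem mot_ext_le (R : SimpleGraph T) (γ : C → B → V) (ζ : C → B → Option B → T)
    (p : V ⊕ C × (B × T) → Fin d → ℝ)
    (hR : ∀ x : C × B, InfRigid R (restr (fun t : T => (Sum.inr (x.1, x.2, t) : V ⊕ C × (B × T))) d p)) :
    Mot (ext R γ ζ) p ≤ Mot (ext ⊤ γ ζ) p := by
  intro q hq
  rw [mem_mot] at *
  intro x y hxy
  rcases x with u | ⟨c, i, s⟩ <;> rcases y with v | ⟨c', j, t⟩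
  · exact absurd hxy (fun h => h)
  · exact hq _ _ hxy
  · exact hq _ _ hxy
  · obtain ⟨rfl, ⟨rfl, h⟩ | h⟩ := hxy
    · obtain ⟨A, b, hA, hb⟩ := hR (c, i) (restr (fun t : T => (Sum.inr (c, i, t) : V ⊕ C × (B × T))) d q)
        (fun s t hst => hq _ _ ⟨rfl, Or.inl ⟨rfl, hst⟩⟩)
      have h1 := hb s
      have h2 := hb t
      change q (Sum.inr (c, i, s)) = A *ᵥ p (Sum.inr (c, i, s)) + b at h1
      change q (Sum.inr (c, i, t)) = A *ᵥ p (Sum.inr (c, i, t)) + b at h2
      rw [h1, h2, add_sub_add_right_eq_sub, ← mulVec_sub]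
      exact TA.skew_dot hA _
    · exact hq _ _ ⟨rfl, Or.inr h⟩

variable [Fintype V] [Fintype B] [Fintype T] [Fintype C]

/-- **The rank.** -/
theorem rank_ext (hB : Fintype.card B + 1 = d * (d + 1)) (R : SimpleGraph T) (hR : GenRigid d R)
    (γ : C → B → V) (hγ : ∀ c, Function.Injective (γ c))
    (ζ : C → B → (Option B ⊕ Fin (d + 1)) → T) (hζ : ∀ c i, Function.Injective (ζ c i))
    (hT : d ≤ Fintype.card T) (G : SimpleGraph V) :
    genRank d (up (B × T) C G ⊔ ext R γ (fun c i z => ζ c i (Sum.inl z))) =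
      genRank d G + d * Fintype.card (C × (B × T)) := by
  refine le_antisymm (up_bound hB hT _ _ _ _) ?_
  refine low (ext ⊤ γ (fun c i z => ζ c i (Sum.inl z))) _ (ext_clustered _ _ _)
    (ι := C × B) (fun x p => InfRigid R
      (restr (fun t : T => (Sum.inr (x.1, x.2, t) : V ⊕ C × (B × T))) d p))
    ?_ ?_ ?_ ?_ G
  · intro x
    exact good_comp (restr (fun t : T => (Sum.inr (x.1, x.2, t) : V ⊕ C × (B × T))) d)
      (TA.infRigid_good R)
  · rintro ⟨c, i⟩
    refine restr_sat (fun t : T => (Sum.inr (c, i, t) : V ⊕ C × (B × T))) ?_ hR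
    intro a b hab
    simpa using hab
  · exact fun p hp => mot_ext_le R γ _ p hp
  · exact fun c => pin_complete hB γ hγ ζ hζ c

/-- Rigidity is determined by the rank. -/
theorem genRigid_iff_of_rank {W : Type} [Fintype W] {G : SimpleGraph V} {G' : SimpleGraph W}
    (hV : d ≤ Fintype.card V) (hW : d ≤ Fintype.card W)
    (h : genRank d G' + d * Fintype.card V = genRank d G + d * Fintype.card W) :
    GenRigid d G' ↔ GenRigid d G := by
  obtain ⟨p, hp⟩ := exists_mg V d
  obtain ⟨p', hp'⟩ := exists_mg W d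
  rw [genRigid_iff hp hV, genRigid_iff hp' hW]
  have h1 := genRank_add hp G
  have h2 := genRank_add hp' G'
  have h3 : mo G' p' = mo G p := by omega
  rw [h3]

end Pool.Agent.H557.RG
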