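import Mathlib
import Pool.Agent.H557.RG.Conn
import Pool.Agent.H557.RG.RankA

/-!
# Attaching octahedra
-/

set_option autoImplicit false
set_option linter.unusedSectionVars false

namespace Pool.Agent.H557.RG

open Matrix Finset Pool.Agent.H283R2.DR Pool.Agent.H789R5

variable {V C : Type}

/-- the vertices of the octahedron: three antipodal pairs -/
abbrev O := Fin 3 × Bool

/-- **Octahedra.** For each `c : C` there is a copy of the octahedron, that is of the graph on `O`
in which two vertices are adjacent unless they are antipodal or equal; each of its six vertices `x`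
is joined by one further edge to the vertex `γ c x` of the base `V`. -/
def octx (γ : C → O → V) : SimpleGraph (V ⊕ C × O) where
  Adj x y := match x, y with
    | Sum.inl _, Sum.inl _ => False
    | Sum.inl v, Sum.inr (c, x) => v = γ c x
    | Sum.inr (c, x), Sum.inl v => v = γ c x
    | Sum.inr (c, x), Sum.inr (c', y) => c = c' ∧ x.1 ≠ y.1
  symm := ⟨by
    rintro (u | ⟨c, x⟩) (v | ⟨c', y⟩) h
    · exact h
    · exact h
    · exact h
    · exact ⟨h.1.symm, h.2.symm⟩⟩
  loopless := ⟨by
    rintro (u | ⟨c, x⟩) h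
    · exact h
    · exact h.2 rfl⟩

theorem octx_clustered (γ : C → O → V) : Clustered (octx γ) where
  base := fun _ _ h => h
  clus := fun _ _ _ _ h => h.1

/-- the regular octahedron -/
def opos (x : O) (i : Fin 3) : ℝ := if i = x.1 then (if x.2 then 1 else -1) else 0

/-- the positions of the base vertices -/
def gpos (x : O) (i : Fin 3) : ℝ := opos x i + (if i = x.1 + 1 then 1 else 0)

theorem oct_pin {γ : C → O → V} (hγ : ∀ c, Function.Injective (γ c)) (c : C) :
    ∃ p : V ⊕ C × O → Fin 3 → ℝ, Pinned (octx γ) c p := by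
  classical
  let p : V ⊕ C × O → Fin 3 → ℝ := Sum.elim (Function.extend (γ c) gpos 0) (fun y => opos y.2)
  have pV : ∀ x, p (Sum.inl (γ c x)) = gpos x := fun x => by
    show Function.extend (γ c) gpos 0 (γ c x) = _
    rw [(hγ c).extend_apply]
  refine ⟨p, pinned_of ?_⟩
  intro q hq h0
  have hg : ∀ x, (opos x - gpos x) ⬝ᵥ (q (Sum.inr (c, x))) = 0 := by
    intro x
    have := hq (Sum.inr (c, x)) (Sum.inl (γ c x)) rfl
    rw [pV, h0, sub_zero] at this
    exact this
  have he : ∀ x y : O, x.1 ≠ y.1 →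
      (opos x - opos y) ⬝ᵥ (q (Sum.inr (c, x)) - q (Sum.inr (c, y))) = 0 := by
    intro x y hxy
    exact hq (Sum.inr (c, x)) (Sum.inr (c, y)) ⟨rfl, hxy⟩
  have g0 := hg (0, true)
  have g1 := hg (0, false)
  have g2 := hg (1, true)
  have g3 := hg (1, false)
  have g4 := hg (2, true)
  have g5 := hg (2, false)
  have e0 := he (0, true) (1, true) (by decide)
  have e1 := he (0, true) (1, false) (by decide)
  have e2 := he (0, false) (1, true) (by decide)
  have e3 := he (0, false) (1, false) (by decide)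
  have e4 := he (1, true) (2, true) (by decide)
  have e5 := he (1, true) (2, false) (by decide)
  have e6 := he (1, false) (2, true) (by decide)
  have e7 := he (1, false) (2, false) (by decide)
  have e8 := he (2, true) (0, true) (by decide)
  have e9 := he (2, true) (0, false) (by decide)
  have e10 := he (2, false) (0, true) (by decide)
  have e11 := he (2, false) (0, false) (by decide)
  simp [dotProduct, opos, gpos] at g0 g1 g2 g3 g4 g5
  simp [dotProduct, Fin.sum_univ_three, opos] at e0 e1 e2 e3 e4 e5 e6 e7 e8 e9 e10 e11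
  rintro ⟨k, b⟩
  funext i
  fin_cases k <;> cases b <;> fin_cases i
  all_goals simp only [Fin.zero_eta, Fin.mk_one, Fin.reduceFinMk, Pi.zero_apply]
  all_goals linarith

/-! ### The number of edges -/

/-- the three edges which belong to the vertex `x` of the octahedron `c` -/
def oedge (γ : C → O → V) (t : C × (O × Option Bool)) : Sym2 (V ⊕ C × O) :=
  match t.2.2 with
  | none => s(Sum.inr (t.1, t.2.1), Sum.inl (γ t.1 t.2.1))
  | some b => s(Sum.inr (t.1, t.2.1), Sum.inr (t.1, (t.2.1.1 + 1, b)))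

theorem oct_pairs : ∀ x y : O, x.1 ≠ y.1 → y.1 = x.1 + 1 ∨ x.1 = y.1 + 1 := by
  decide

theorem oedge_surj (γ : C → O → V) (e : Sym2 (V ⊕ C × O)) (he : e ∈ (octx γ).edgeSet) :
    ∃ t, oedge γ t = e := by
  induction e using Sym2.ind with
  | _ x y =>
    rw [SimpleGraph.mem_edgeSet] at he
    rcases x with u | ⟨c, x⟩ <;> rcases y with v | ⟨c', y⟩
    · exact absurd he (fun h => h)
    · obtain rfl := he
      exact ⟨(c', (y, none)), Sym2.eq_swap⟩
    · obtain rfl := he
      exact ⟨(c, (x, none)), rfl⟩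
    · obtain ⟨rfl, h⟩ := he
      rcases oct_pairs x y h with h1 | h1
      · refine ⟨(c, (x, some y.2)), ?_⟩
        unfold oedge
        simp only
        rw [← h1]
      · refine ⟨(c, (y, some x.2)), ?_⟩
        unfold oedge
        simp only
        rw [← h1, Sym2.eq_swap]

variable [Fintype V] [Fintype C]

theorem octx_edges_le (γ : C → O → V) :
    (octx γ).edgeSet.ncard ≤ 3 * Fintype.card (C × O) := by
  classical
  have h1 : (octx γ).edgeSet ⊆ ((univ.image (oedge γ) : Finset (Sym2 (V ⊕ C × O))) :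
      Set (Sym2 (V ⊕ C × O))) := by
    intro e he
    obtain ⟨t, rfl⟩ := oedge_surj γ e he
    simp
  have h2 := Set.ncard_le_ncard h1 (Finset.finite_toSet _)
  rw [Set.ncard_coe_finset] at h2
  refine (h2.trans Finset.card_image_le).trans ?_
  rw [card_univ]
  simp only [Fintype.card_prod, Fintype.card_option, Fintype.card_bool]
  apply le_of_eq
  ring

theorem mo_up {H : Type} [Fintype H] {d : ℕ} (G : SimpleGraph V) (p : V ⊕ C × H → Fin d → ℝ) :
    mo G (restr Sum.inl d p) + d * Fintype.card (C × H) ≤ mo (up H C G) p := by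
  classical
  let L : (Mot G (restr Sum.inl d p) × (C × H → Fin d → ℝ)) →ₗ[ℝ] (V ⊕ C × H → Fin d → ℝ) :=
    { toFun := fun x y => Sum.elim x.1.1 x.2 y
      map_add' := by
        intro x y
        funext z
        rcases z with v | z <;> rfl
      map_smul' := by
        intro r x
        funext z
        rcases z with v | z <;> rfl }
  have hL : Function.Injective L := by
    intro x y hxy
    refine Prod.ext (Subtype.ext ?_) ?_
    · funext v
      exact congrFun hxy (Sum.inl v)
    · funext z
      exact congrFun hxy (Sum.inr z)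
  have h2 : Module.finrank ℝ (Mot G (restr Sum.inl d p) × (C × H → Fin d → ℝ)) =
      mo G (restr Sum.inl d p) + d * Fintype.card (C × H) := by
    rw [Module.finrank_prod, finrank_all]
    rfl
  rw [← h2, ← LinearMap.finrank_range_of_inj hL]
  refine Submodule.finrank_mono ?_
  rintro _ ⟨⟨⟨q, hq⟩, x⟩, rfl⟩
  rw [mem_mot] at *
  intro a b hab
  obtain ⟨u, v, huv, rfl, rfl⟩ := up_adj_inv G hab
  exact hq u v huv

/-- **The rank.** -/
theorem rank_oct {γ : C → O → V} (hγ : ∀ c, Function.Injective (γ c)) (G : SimpleGraph V) :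
    genRank 3 (up O C G ⊔ octx γ) = genRank 3 G + 3 * Fintype.card (C × O) := by
  classical
  refine le_antisymm ?_ ?_
  · obtain ⟨p, hp⟩ := exists_mg (V ⊕ C × O) 3
    have h1 := mo_up (C := C) (H := O) G p
    have h2 := mo_le_add (G := up O C G) (G' := up O C G ⊔ octx γ) p
    have h3 : ((up O C G ⊔ octx γ).edgeSet \ (up O C G).edgeSet).ncard ≤
        3 * Fintype.card (C × O) := by
      refine le_trans (Set.ncard_le_ncard ?_ (Set.toFinite _)) (octx_edges_le γ)
      rw [SimpleGraph.edgeSet_sup]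
      rintro e ⟨he | he, h'⟩
      · exact absurd he h'
      · exact he
    have h4 := genRank_add hp (up O C G ⊔ octx γ)
    have h5 := genRank_ge G (restr Sum.inl 3 p)
    rw [Fintype.card_sum, mul_add] at h4
    omega
  · exact low (octx γ) (octx γ) (octx_clustered γ) (ι := Empty) (fun i _ => i.elim)
      (fun i => i.elim) (fun i => i.elim) (fun p _ => le_rfl) (fun c => oct_pin hγ c) G

/-- the octahedra together with the edges to the base have exactly three edges per new vertex -/
theorem octx_edges {γ : C → O → V} (hγ : ∀ c, Function.Injective (γ c)) :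
    (octx γ).edgeSet.ncard = 3 * Fintype.card (C × O) := by
  refine le_antisymm (octx_edges_le γ) ?_
  have h1 := rank_oct hγ (⊥ : SimpleGraph V)
  obtain ⟨p, hp⟩ := exists_mg (V ⊕ C × O) 3
  have h2 := genRank_add hp (up O C (⊥ : SimpleGraph V) ⊔ octx γ)
  have h3 := mo_le_add (G := (⊥ : SimpleGraph (V ⊕ C × O)))
    (G' := up O C (⊥ : SimpleGraph V) ⊔ octx γ) p
  have h4 : mo (⊥ : SimpleGraph (V ⊕ C × O)) p = 3 * Fintype.card (V ⊕ C × O) := by
    have h5 : Mot (⊥ : SimpleGraph (V ⊕ C × O)) p = ⊤ := by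
      rw [eq_top_iff]
      intro q _
      rw [mem_mot]
      intro u v huv
      exact absurd huv (by simp)
    unfold mo
    rw [h5, finrank_top, finrank_all]
  have h6 : (up O C (⊥ : SimpleGraph V) ⊔ octx γ).edgeSet \
      (⊥ : SimpleGraph (V ⊕ C × O)).edgeSet = (octx γ).edgeSet := by
    have h7 : up O C (⊥ : SimpleGraph V) = ⊥ := by
      rw [eq_bot_iff]
      intro a b hab
      obtain ⟨u, v, huv, -, -⟩ := up_adj_inv _ hab
      exact absurd huv (by simp)
    rw [h7, bot_sup_eq, SimpleGraph.edgeSet_bot, Set.sdiff_empty]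
  rw [h6] at h3
  omega

/-! ### Connectivity -/

theorem oct_cl (γ : C → O → V) (X : Finset (V ⊕ C × O)) (c : C)
    (hc : ∀ h, Sum.inr (c, h) ∉ X) (i j : O) (hi : Sum.inl (γ c i) ∉ X)
    (hj : Sum.inl (γ c j) ∉ X) : Rch (octx γ) X (Sum.inl (γ c i)) (Sum.inl (γ c j)) := by
  have h1 : ∀ i, Sum.inl (γ c i) ∉ X →
      Rch (octx γ) X (Sum.inl (γ c i)) (Sum.inr (c, i)) :=
    fun i hi => Rch.single rfl hi (hc _)
  have h2 : ∀ i j : O, i.1 ≠ j.1 → Rch (octx γ) X (Sum.inr (c, i)) (Sum.inr (c, j)) :=
    fun i j hij => Rch.single ⟨rfl, hij⟩ (hc _) (hc _)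
  have h3 : Rch (octx γ) X (Sum.inr (c, i)) (Sum.inr (c, j)) := by
    by_cases hij : i.1 = j.1
    · have h4 : i.1 ≠ i.1 + 1 := by
        have : ∀ a : Fin 3, a ≠ a + 1 := by decide
        exact this _
      exact (h2 i (i.1 + 1, true) h4).trans (h2 (i.1 + 1, true) j (by
        simp only
        rw [← hij]
        exact h4.symm))
    · exact h2 i j hij
  exact (h1 i hi).trans (h3.trans (h1 j hj).symm)

theorem oct_esc {γ : C → O → V} (hγ : ∀ c, Function.Injective (γ c)) (X : Finset (V ⊕ C × O))
    (c : C) (x : O) (hX : X.card < 5) (hx : Sum.inr (c, x) ∉ X) :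
    ∃ v, Sum.inl v ∉ X ∧ Rch (octx γ) X (Sum.inr (c, x)) (Sum.inl v) := by
  classical
  obtain ⟨⟨y, hy⟩, hj⟩ := exists_free (I := {y : O // y = x ∨ y.1 ≠ x.1}) (X := X)
    (fun y z => z = Sum.inl (γ c y) ∨ (y.1 ≠ x ∧ z = Sum.inr (c, y.1))) (by
      rintro ⟨y, hy⟩ ⟨y', hy'⟩ z h h'
      apply Subtype.ext
      rcases h with rfl | ⟨h1, rfl⟩ <;> rcases h' with h' | ⟨h2, h'⟩ <;>
        simp only [Sum.inl.injEq, Sum.inr.injEq, Prod.mk.injEq, true_and, reduceCtorEq] at h'
      · exact hγ c h'
      · exact h') (by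
      have h5 : ∀ x : O, Fintype.card {y : O // y = x ∨ y.1 ≠ x.1} = 5 := by decide
      rw [h5]
      exact hX)
  have h1 := hj _ (Or.inl rfl)
  refine ⟨γ c y, h1, ?_⟩
  by_cases hyx : y = x
  · subst hyx
    exact Rch.single rfl hx h1
  · have h2 := hj _ (Or.inr ⟨hyx, rfl⟩)
    have h3 : y.1 ≠ x.1 := hy.resolve_left hyx
    exact Rch.trans (y := Sum.inr (c, y)) (Rch.single ⟨rfl, h3.symm⟩ hx h2) (Rch.single rfl h2 h1)

/-- **Connectivity.** -/
theorem oct_kconn [DecidableEq V] {P : Type} [Fintype P] {hub : O → V}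
    (hhub : Function.Injective hub) (h3 : 5 ≤ Fintype.card P)
    {G : SimpleGraph (V ⊕ (V × O × P) × O)} (hG : octx (gam hub) ≤ G) :
    KConnected 5 G :=
  kconn_of hG (hub_conn hhub (octx (gam hub)) (by decide) (by decide) h3
    (fun X c hX hc i j hi hj => oct_cl _ X c hc i j hi hj)
    (fun X c h hX hh => oct_esc (fun c => gam_inj hhub c) X c h hX hh))

end Pool.Agent.H557.RG
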