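import Mathlib
import Pool.Agent.H557.RG.Oct
import Pool.Graph.R_seed8.H283R2.DR.TaskC

/-!
# The counting conditions and attached octahedra
-/

set_option autoImplicit false
set_option linter.unusedSectionVars false

namespace Pool.Agent.H557.RG

open Matrix Finset Pool.Agent.H283R2.DR Pool.Agent.H789R5

/-- the edges of `G` with both ends in `S` -/
def inner {V : Type} (G : SimpleGraph V) (S : Finset V) : Set (Sym2 V) :=
  {e ∈ G.edgeSet | ∀ v ∈ e, v ∈ S}

/-- **The counting conditions**: every set of `k ≥ 3` vertices spans at most `3 k - 6` edges. -/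
def Maxwell {V : Type} (G : SimpleGraph V) : Prop :=
  ∀ S : Finset V, 3 ≤ S.card → (inner G S).ncard + 6 ≤ 3 * S.card

section clique

variable {U : Type} [Fintype U] [DecidableEq U] {d : ℕ}

/-- trivial motions on `X`, arbitrary velocities elsewhere -/
noncomputable def trivOn (p : U → Fin d → ℝ) (X : Finset U) :
    ((TA.Sk d × (Fin d → ℝ)) × ({u // u ∉ X} → Fin d → ℝ)) →ₗ[ℝ] (U → Fin d → ℝ) where
  toFun x u := if h : u ∈ X then TA.triv p x.1 u else x.2 ⟨u, h⟩
  map_add' x y := by
    funext u
    by_cases h : u ∈ X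
    · simp only [dif_pos h, Pi.add_apply, Prod.fst_add, map_add]
    · simp only [dif_neg h, Pi.add_apply, Prod.snd_add]
  map_smul' r x := by
    funext u
    by_cases h : u ∈ X
    · simp only [dif_pos h, Pi.smul_apply, Prod.smul_fst, map_smul, RingHom.id_apply]
    · simp only [dif_neg h, Pi.smul_apply, Prod.smul_snd, RingHom.id_apply]

theorem trivOn_in (p : U → Fin d → ℝ) {X : Finset U}
    (x : (TA.Sk d × (Fin d → ℝ)) × ({u // u ∉ X} → Fin d → ℝ)) {u : U} (h : u ∈ X) :
    trivOn p X x u = TA.triv p x.1 u := by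
  show (if h : u ∈ X then TA.triv p x.1 u else x.2 ⟨u, h⟩) = _
  rw [dif_pos h]

theorem trivOn_out (p : U → Fin d → ℝ) {X : Finset U}
    (x : (TA.Sk d × (Fin d → ℝ)) × ({u // u ∉ X} → Fin d → ℝ)) {u : U} (h : u ∉ X) :
    trivOn p X x u = x.2 ⟨u, h⟩ := by
  show (if h : u ∈ X then TA.triv p x.1 u else x.2 ⟨u, h⟩) = _
  rw [dif_neg h]

theorem finrank_trivOn (X : Finset U) :
    Module.finrank ℝ ((TA.Sk d × (Fin d → ℝ)) × ({u // u ∉ X} → Fin d → ℝ)) =
      d * (d + 1) / 2 + d * (Fintype.card U - X.card) := by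
  rw [Module.finrank_prod, finrank_triv, finrank_all, Fintype.card_subtype_compl,
    Fintype.card_coe]

theorem mo_in_ge {p : U → Fin d → ℝ} (hp : MG p) {X : Finset U} (hX : d ≤ X.card)
    {K : SimpleGraph U} (hK : ∀ a b, K.Adj a b → a ∈ X ∧ b ∈ X) :
    d * (d + 1) / 2 + d * (Fintype.card U - X.card) ≤ mo K p := by
  have hinj : Function.Injective (trivOn p X) := by
    intro x y h
    have h1 : x.1 = y.1 := by
      obtain ⟨h1, h2⟩ := triv_unique hp.toGen (S := X) hX x.1.1.2 y.1.1.2 (b := x.1.2)
        (b' := y.1.2) (by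
          intro v hv
          have h3 := congrFun h v
          rw [trivOn_in p x hv, trivOn_in p y hv] at h3
          exact h3)
      exact Prod.ext (Subtype.ext h1) h2
    refine Prod.ext h1 ?_
    funext ⟨u, hu⟩
    have h3 := congrFun h u
    rwa [trivOn_out p x hu, trivOn_out p y hu] at h3
  rw [← finrank_trivOn X, ← LinearMap.finrank_range_of_inj hinj]
  refine Submodule.finrank_mono ?_
  rintro _ ⟨x, rfl⟩
  rw [mem_mot]
  intro a b hab
  obtain ⟨ha, hb⟩ := hK a b hab
  rw [trivOn_in p x ha, trivOn_in p x hb]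
  show (p _ - p _) ⬝ᵥ ((x.1.1 : Matrix (Fin d) (Fin d) ℝ) *ᵥ p _ + x.1.2 -
    ((x.1.1 : Matrix (Fin d) (Fin d) ℝ) *ᵥ p _ + x.1.2)) = 0
  rw [add_sub_add_right_eq_sub, ← mulVec_sub]
  exact TA.skew_dot x.1.1.2 _

theorem mo_in_le {p : U → Fin d → ℝ} (hp : MG p) {X : Finset U}
    {K : SimpleGraph U} (hK : ∀ a ∈ X, ∀ b ∈ X, a ≠ b → K.Adj a b) :
    mo K p ≤ d * (d + 1) / 2 + d * (Fintype.card U - X.card) := by
  rw [← finrank_trivOn X]
  refine le_trans (Submodule.finrank_mono ?_) (LinearMap.finrank_range_le (trivOn p X))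
  intro q hq
  rw [mem_mot] at hq
  obtain ⟨A, b, hA, hb⟩ := rigid_complete hp.toGen K X hK q (fun u _ v _ huv => hq u v huv)
  refine ⟨((⟨A, hA⟩, b), fun u => q u), ?_⟩
  funext u
  by_cases hu : u ∈ X
  · rw [trivOn_in p _ hu]
    exact (hb u hu).symm
  · rw [trivOn_out p _ hu]

end clique

section small

variable {V : Type} [Fintype V]

theorem inner_small (G : SimpleGraph V) {S : Finset V} (hS : S.card < 3) :
    (inner G S).ncard ≤ 1 := by
  classical
  rw [Set.ncard_le_one (Set.toFinite _)]
  intro e he f hf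
  induction e using Sym2.ind with
  | _ x y =>
    induction f using Sym2.ind with
    | _ x' y' =>
      obtain ⟨h1, h2⟩ := he
      obtain ⟨h3, h4⟩ := hf
      have hxy : x ≠ y := SimpleGraph.Adj.ne h1
      have hxy' : x' ≠ y' := SimpleGraph.Adj.ne h3
      have hx : x ∈ S := h2 x (by simp)
      have hy : y ∈ S := h2 y (by simp)
      have hx' : x' ∈ S := h4 x' (by simp)
      have hy' : y' ∈ S := h4 y' (by simp)
      have hS2 : ({x, y} : Finset V) = S := by
        refine Finset.eq_of_subset_of_card_le ?_ ?_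
        · intro z hz
          rcases Finset.mem_insert.1 hz with rfl | hz
          · exact hx
          · rw [Finset.mem_singleton.1 hz]
            exact hy
        · rw [Finset.card_pair hxy]
          omega
      rw [← hS2] at hx' hy'
      simp only [Finset.mem_insert, Finset.mem_singleton] at hx' hy'
      rw [Sym2.eq_iff]
      rcases hx' with rfl | rfl <;> rcases hy' with rfl | rfl
      · exact absurd rfl hxy'
      · exact Or.inl ⟨rfl, rfl⟩
      · exact Or.inr ⟨rfl, rfl⟩
      · exact absurd rfl hxy'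

/-- the complete graph on `S` -/
def clq (S : Finset V) : SimpleGraph V where
  Adj a b := a ≠ b ∧ a ∈ S ∧ b ∈ S
  symm := ⟨fun _ _ h => ⟨h.1.symm, h.2.2, h.2.1⟩⟩
  loopless := ⟨fun _ h => h.1 rfl⟩

theorem one_le_rank {S : Finset V} {x y : V} (hx : x ∈ S) (hy : y ∈ S) (hxy : x ≠ y) :
    1 ≤ genRank 3 (clq S) := by
  classical
  obtain ⟨p, hp⟩ := exists_mg V 3
  have h1 := genRank_add hp (clq S)
  by_contra hcon
  have h2 : mo (clq S) p = 3 * Fintype.card V := by omega
  have h3 : Mot (clq S) p = ⊤ := by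
    apply Submodule.eq_top_of_finrank_eq
    rw [finrank_all]
    exact h2
  have h4 : Pi.single x (p x - p y) ∈ Mot (clq S) p := by
    rw [h3]
    trivial
  rw [mem_mot] at h4
  have h5 := h4 x y ⟨hxy, hx, hy⟩
  rw [Pi.single_eq_same, Pi.single_eq_of_ne hxy.symm, sub_zero, dotProduct_self_eq_zero,
    sub_eq_zero] at h5
  have h6 := hp.pos 2 ![x, y] (by norm_num) (by
    intro i j hij
    fin_cases i <;> fin_cases j
    · rfl
    · exact absurd hij hxy
    · exact absurd hij.symm hxy
    · rfl)
  have h7 := h6.injective (a₁ := (0 : Fin 2)) (a₂ := 1) (by simpa using h5)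
  simp at h7

theorem inner_le_rank {G : SimpleGraph V} (hG : Maxwell G) (S : Finset V) :
    (inner G S).ncard ≤ genRank 3 (clq S) := by
  classical
  by_cases h : 3 ≤ S.card
  · obtain ⟨p, hp⟩ := exists_mg V 3
    have h1 := hG S h
    have h2 := mo_in_le hp (X := S) (K := clq S) (fun a ha b hb hab => ⟨hab, ha, hb⟩)
    have h3 := genRank_add hp (clq S)
    have h4 := S.card_le_univ
    have h5 : 3 * (3 + 1) / 2 = 6 := by norm_num
    rw [h5] at h2
    omega
  · rcases (inner G S).eq_empty_or_nonempty with h0 | ⟨e, he⟩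
    · rw [h0, Set.ncard_empty]
      exact Nat.zero_le _
    · refine (inner_small G (by omega)).trans ?_
      induction e using Sym2.ind with
      | _ x y =>
        exact one_le_rank (he.2 x (by simp)) (he.2 y (by simp)) (SimpleGraph.Adj.ne he.1)

end small

section main

variable {V C : Type} [Fintype V] [Fintype C]

/-- The counting conditions hold after attaching the octahedra if and only if they held before. -/
theorem maxwell_oct {γ : C → O → V} (hγ : ∀ c, Function.Injective (γ c)) (G : SimpleGraph V) :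
    Maxwell (up O C G ⊔ octx γ) ↔ Maxwell G := by
  classical
  constructor
  · intro h S hS
    have h1 := h (S.map Function.Embedding.inl) (by rwa [Finset.card_map])
    rw [Finset.card_map] at h1
    refine le_trans (Nat.add_le_add_right ?_ 6) h1
    have h2 : Sym2.map (Sum.inl : V → V ⊕ C × O) '' inner G S ⊆
        inner (up O C G ⊔ octx γ) (S.map Function.Embedding.inl) := by
      rintro _ ⟨e, he, rfl⟩
      induction e using Sym2.ind with
      | _ x y =>
        obtain ⟨h3, h4⟩ := he
        refine ⟨?_, ?_⟩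
        · rw [Sym2.map_mk, SimpleGraph.mem_edgeSet]
          exact Or.inl (up_adj G h3)
        · intro v hv
          rw [Sym2.map_mk, Sym2.mem_iff] at hv
          rcases hv with rfl | rfl
          · exact Finset.mem_map_of_mem Function.Embedding.inl (h4 x (by simp))
          · exact Finset.mem_map_of_mem Function.Embedding.inl (h4 y (by simp))
    rw [← Set.ncard_image_of_injective (inner G S) (Sym2.map.injective Sum.inl_injective)]
    exact Set.ncard_le_ncard h2 (Set.toFinite _)
  · intro hG X hX
    set S : Finset V := X.preimage Sum.inl Sum.inl_injective.injOn with hSdef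
    have hSX : ∀ v, v ∈ S ↔ Sum.inl v ∈ X := fun v => Finset.mem_preimage
    obtain ⟨p, hp⟩ := exists_mg (V ⊕ C × O) 3
    -- the edges of the octahedra inside of `X`
    let AX : SimpleGraph (V ⊕ C × O) :=
      { Adj := fun x y => (octx γ).Adj x y ∧ x ∈ X ∧ y ∈ X
        symm := ⟨fun _ _ h => ⟨h.1.symm, h.2.2, h.2.1⟩⟩
        loopless := ⟨fun x h => (octx γ).loopless.irrefl x h.1⟩ }
    have hAX : AX ≤ octx γ := fun x y h => h.1
    have h1 : (inner (up O C G ⊔ octx γ) X).ncard ≤ (inner G S).ncard + AX.edgeSet.ncard := by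
      have h2 : inner (up O C G ⊔ octx γ) X ⊆
          Sym2.map (Sum.inl : V → V ⊕ C × O) '' inner G S ∪ AX.edgeSet := by
        rintro e ⟨h3, h4⟩
        induction e using Sym2.ind with
        | _ x y =>
          have hx : x ∈ X := h4 x (by simp)
          have hy : y ∈ X := h4 y (by simp)
          rcases h3 with h3 | h3
          · left
            obtain ⟨u, v, huv, rfl, rfl⟩ := up_adj_inv G h3
            refine ⟨s(u, v), ⟨huv, ?_⟩, rfl⟩
            intro w hw
            rw [Sym2.mem_iff] at hw
            rcases hw with rfl | rfl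
            · exact (hSX _).2 hx
            · exact (hSX _).2 hy
          · right
            exact ⟨h3, hx, hy⟩
      refine (Set.ncard_le_ncard h2 (Set.toFinite _)).trans ((Set.ncard_union_le _ _).trans ?_)
      rw [Set.ncard_image_of_injective (inner G S) (Sym2.map.injective Sum.inl_injective)]
    have h2 := inner_le_rank hG S
    have h3 := rank_oct hγ (clq S)
    have h4 := genRank_add hp (up O C (clq S) ⊔ octx γ)
    have h5 := mo_le_add (G := up O C (clq S) ⊔ AX) (G' := up O C (clq S) ⊔ octx γ) p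
    have h6 : ((up O C (clq S) ⊔ octx γ).edgeSet \ (up O C (clq S) ⊔ AX).edgeSet).ncard ≤
        ((octx γ).edgeSet \ AX.edgeSet).ncard := by
      refine Set.ncard_le_ncard ?_ (Set.toFinite _)
      rw [SimpleGraph.edgeSet_sup, SimpleGraph.edgeSet_sup]
      rintro e ⟨he | he, h'⟩
      · exact absurd (Or.inl he) h'
      · exact ⟨he, fun h => h' (Or.inr h)⟩
    have h7 : ((octx γ).edgeSet \ AX.edgeSet).ncard + AX.edgeSet.ncard = (octx γ).edgeSet.ncard :=
      Set.ncard_sdiff_add_ncard_of_subset (SimpleGraph.edgeSet_subset_edgeSet.2 hAX)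
        (Set.toFinite _)
    have h8 := octx_edges hγ
    have h9 := mo_in_ge hp hX (K := up O C (clq S) ⊔ AX) (by
      intro a b hab
      rcases hab with hab | hab
      · obtain ⟨u, v, huv, rfl, rfl⟩ := up_adj_inv _ hab
        exact ⟨(hSX _).1 huv.2.1, (hSX _).1 huv.2.2⟩
      · exact hab.2)
    have h10 : 3 * (3 + 1) / 2 = 6 := by norm_num
    have h11 := X.card_le_univ
    rw [h10] at h9
    rw [Fintype.card_sum] at h4 h9 h11
    omega

end main

end Pool.Agent.H557.RG
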