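import Mathlib
import Pool.Agent.H557.RG.Maxwell

/-!
# Universal highly connected extensions
-/

set_option autoImplicit false
set_option linter.unusedSectionVars false

namespace Pool.Agent.H557.RG

open Matrix Finset Pool.Agent.H283R2.DR Pool.Agent.H789R5

/-- the explicit extension, with arbitrary rigid bodies -/
theorem explicit {d : ℕ} (hd : 2 ≤ d) {V B P T : Type} [Fintype V] [Fintype B] [Fintype P]
    [Fintype T] [DecidableEq V] {R : SimpleGraph T} {hub : B → V}
    {ζ : V × B × P → B → Option B ⊕ Fin (d + 1) → T}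
    (hB : Fintype.card B + 1 = d * (d + 1)) (hP : Fintype.card B ≤ Fintype.card P)
    (hhub : Function.Injective hub) (hζ : ∀ c i, Function.Injective (ζ c i))
    (hR : GenRigid d R) (hRc : KConnected (Fintype.card B) R) (G : SimpleGraph V) :
    KConnected (Fintype.card B)
        (up (B × T) (V × B × P) G ⊔ ext R (gam hub) (fun c i z => ζ c i (Sum.inl z))) ∧
      genRank d (up (B × T) (V × B × P) G ⊔ ext R (gam hub) (fun c i z => ζ c i (Sum.inl z))) =
        genRank d G + d * Fintype.card ((V × B × P) × (B × T)) ∧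
      (GenRigid d (up (B × T) (V × B × P) G ⊔
        ext R (gam hub) (fun c i z => ζ c i (Sum.inl z))) ↔ GenRigid d G) := by
  have h6 : 6 ≤ d * (d + 1) := by nlinarith
  have hdB : d ≤ Fintype.card B := by
    have : d * 3 ≤ d * (d + 1) := Nat.mul_le_mul_left d (by omega)
    omega
  have hBV : Fintype.card B ≤ Fintype.card V := Fintype.card_le_of_injective _ hhub
  have hne : Nonempty B := Fintype.card_pos_iff.1 (by omega)
  obtain ⟨b0⟩ := hne
  have hneP : Nonempty P := Fintype.card_pos_iff.1 (by omega)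
  obtain ⟨π0⟩ := hneP
  have hT : d ≤ Fintype.card T := by
    have h1 := Fintype.card_le_of_injective _ (hζ (hub b0, b0, π0) b0)
    rw [Fintype.card_sum, Fintype.card_option, Fintype.card_fin] at h1
    omega
  have hrank := rank_ext hB R hR (gam hub) (fun c => gam_inj hhub c) ζ hζ hT G
  refine ⟨?_, hrank, ?_⟩
  · refine ext_kconn hhub hRc (fun c i => ?_) le_rfl (by omega) hP le_sup_right
    intro x y hxy
    exact Sum.inl_injective (hζ c i hxy)
  · refine genRigid_iff_of_rank (by omega) ?_ ?_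
    · rw [Fintype.card_sum]
      omega
    · rw [hrank, Fintype.card_sum, mul_add]
      omega

/-- a vertex outside of the base has at most one neighbour outside of its body -/
theorem ext_out {V B T C : Type} (R : SimpleGraph T) (γ : C → B → V) {ζ : C → B → Option B → T}
    (hζ : ∀ c i, Function.Injective (ζ c i)) (c : C) (i : B) (s : T)
    (x y : V ⊕ C × (B × T)) (hx : (ext R γ ζ).Adj (Sum.inr (c, i, s)) x)
    (hy : (ext R γ ζ).Adj (Sum.inr (c, i, s)) y) (hx' : ∀ t, x ≠ Sum.inr (c, i, t))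
    (hy' : ∀ t, y ≠ Sum.inr (c, i, t)) : x = y := by
  rcases x with v | ⟨c1, j, t⟩ <;> rcases y with w | ⟨c2, k, t'⟩
  · rw [hx.1, hy.1]
  · exfalso
    obtain ⟨-, h1⟩ := hx
    obtain ⟨rfl, ⟨rfl, h2⟩ | ⟨-, h2, -⟩⟩ := hy
    · exact hy' t' rfl
    · rw [h1] at h2
      have := hζ c i h2
      simp at this
  · exfalso
    obtain ⟨-, h1⟩ := hy
    obtain ⟨rfl, ⟨rfl, h2⟩ | ⟨-, h2, -⟩⟩ := hx
    · exact hx' t rfl
    · rw [h1] at h2
      have := hζ c i h2
      simp at this
  · obtain ⟨rfl, ⟨rfl, h2⟩ | ⟨-, h2, h3⟩⟩ := hx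
    · exact absurd rfl (hx' t)
    obtain ⟨rfl, ⟨rfl, h4⟩ | ⟨-, h4, h5⟩⟩ := hy
    · exact absurd rfl (hy' t')
    rw [h2] at h4
    have h6 := Option.some_injective _ (hζ c i h4)
    subst h6
    rw [h3, h5]

theorem gam_self {V B P : Type} [DecidableEq V] (hub : B → V) (v : V) (b : B) (π : P) :
    gam hub (v, b, π) b = v := by
  unfold gam
  exact Equiv.swap_apply_right _ _

/-- many bars at each vertex of the base -/
theorem base_deg {V B P T : Type} [DecidableEq V] [Fintype V] [Fintype B] [Fintype P] [Fintype T]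
    (R : SimpleGraph T) (hub : B → V) (ζ : V × B × P → B → Option B → T) (b : B) (v : V) :
    Fintype.card P ≤ ((ext R (gam hub) ζ).neighborSet (Sum.inl v)).ncard := by
  classical
  have h1 : Function.Injective (fun π : P => (Sum.inr ((v, b, π), b, ζ (v, b, π) b none) :
      V ⊕ (V × B × P) × (B × T))) := by
    intro π π' h
    simp only [Sum.inr.injEq, Prod.mk.injEq, true_and] at h
    exact h.1
  rw [← Nat.card_eq_fintype_card, ← Set.ncard_univ, ← Set.ncard_image_of_injective _ h1]
  refine Set.ncard_le_ncard ?_ (Set.toFinite _)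
  rintro _ ⟨π, -, rfl⟩
  exact ⟨(gam_self hub v b π).symm, rfl⟩

theorem rigid_top (T : Type) [Fintype T] (d : ℕ) : GenRigid d (⊤ : SimpleGraph T) := by
  classical
  obtain ⟨p, hp⟩ := exists_mg T d
  refine ⟨p, ?_⟩
  have h := rigid_complete hp.toGen (⊤ : SimpleGraph T) univ (fun u _ v _ h => h)
  rw [Finset.coe_univ, rigidOn_univ_iff] at h
  exact h

theorem kconn_top {T : Type} [Fintype T] {κ : ℕ} (h : κ ≤ Fintype.card T) :
    KConnected κ (⊤ : SimpleGraph T) := by
  classical
  refine kconn_of le_rfl ?_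
  intro X hX
  refine ⟨?_, ?_⟩
  · by_contra hcon
    push Not at hcon
    have h1 : X = univ := Finset.eq_univ_iff_forall.2 hcon
    rw [h1, Finset.card_univ] at hX
    omega
  · intro x y hx hy
    by_cases hxy : x = y
    · subst hxy
      exact Rch.refl _
    · exact Rch.single hxy hx hy

/-- **The first theorem**: prescribed bodies. -/
theorem mainR {d : ℕ} (hd : 2 ≤ d) (V : Type) [Fintype V] (hV : d * (d + 1) ≤ Fintype.card V + 1)
    (T : Type) [Fintype T] (R : SimpleGraph T) (hT : (d + 1) ^ 2 ≤ Fintype.card T)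
    (hR : GenRigid d R) (hRc : KConnected (d * (d + 1) - 1) R) (k : ℕ) :
    ∃ (C : Type) (_ : Fintype C) (A : SimpleGraph (V ⊕ C × (Fin (d * (d + 1) - 1) × T))),
      Fintype.card C = Fintype.card V * ((d * (d + 1) - 1) * (d * (d + 1) - 1 + k)) ∧
      (∀ u v : V, ¬ A.Adj (Sum.inl u) (Sum.inl v)) ∧
      (∀ c i s t, A.Adj (Sum.inr (c, i, s)) (Sum.inr (c, i, t)) ↔ R.Adj s t) ∧
      (∀ c i s x y, A.Adj (Sum.inr (c, i, s)) x → A.Adj (Sum.inr (c, i, s)) y →
        (∀ t, x ≠ Sum.inr (c, i, t)) → (∀ t, y ≠ Sum.inr (c, i, t)) → x = y) ∧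
      (∀ v : V, k ≤ (A.neighborSet (Sum.inl v)).ncard) ∧
      ∀ G : SimpleGraph V,
        KConnected (d * (d + 1) - 1) (G.map Function.Embedding.inl ⊔ A) ∧
        genRank d (G.map Function.Embedding.inl ⊔ A) =
          genRank d G + d * Fintype.card (C × (Fin (d * (d + 1) - 1) × T)) ∧
        (GenRigid d (G.map Function.Embedding.inl ⊔ A) ↔ GenRigid d G) := by
  classical
  have h6 : 6 ≤ d * (d + 1) := by nlinarith
  set K := d * (d + 1) - 1 with hK
  have hB : Fintype.card (Fin K) + 1 = d * (d + 1) := by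
    rw [Fintype.card_fin]
    omega
  obtain ⟨hub⟩ : Nonempty (Fin K ↪ V) := Function.Embedding.nonempty_of_card_le (by
    rw [Fintype.card_fin]
    omega)
  obtain ⟨e⟩ : Nonempty (Option (Fin K) ⊕ Fin (d + 1) ↪ T) :=
    Function.Embedding.nonempty_of_card_le (by
      rw [Fintype.card_sum, Fintype.card_option, hB, Fintype.card_fin]
      refine le_trans (le_of_eq ?_) hT
      ring)
  let ζ : V × Fin K × Fin (K + k) → Fin K → Option (Fin K) ⊕ Fin (d + 1) → T := fun _ _ => e
  have hζ : ∀ c i, Function.Injective (fun z => ζ c i (Sum.inl z)) := fun c i x y h =>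
    Sum.inl_injective (e.injective h)
  refine ⟨V × Fin K × Fin (K + k), inferInstance,
    ext R (gam hub) (fun c i z => ζ c i (Sum.inl z)), ?_, ?_, ?_, ?_, ?_, ?_⟩
  · simp only [Fintype.card_prod, Fintype.card_fin]
  · exact ext_ll _ _ _
  · intro c i s t
    rw [ext_rr]
    constructor
    · rintro ⟨-, ⟨-, h⟩ | ⟨h, -⟩⟩
      · exact h
      · exact absurd rfl h
    · exact fun h => ⟨rfl, Or.inl ⟨rfl, h⟩⟩
  · intro c i s x y hx hy hx' hy'
    exact ext_out R (gam hub) hζ c i s x y hx hy hx' hy'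
  · intro v
    have h1 := base_deg R hub (fun c i z => ζ c i (Sum.inl z)) (⟨0, by omega⟩ : Fin K) v
    rw [Fintype.card_fin] at h1
    omega
  · intro G
    have h1 := explicit hd (R := R) (hub := hub) (ζ := ζ) hB (by
      rw [Fintype.card_fin, Fintype.card_fin]
      omega) hub.injective (fun c i => e.injective) hR (by
        rw [Fintype.card_fin]
        exact hRc) G
    rw [Fintype.card_fin] at h1
    exact h1

/-- **The second theorem**: complete bodies. -/
theorem mainK {d : ℕ} (hd : 2 ≤ d) (k n : ℕ) (hn : d * (d + 1) ≤ n + 1) :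
    ∃ (W : Type) (_ : Fintype W) (A : SimpleGraph (Fin n ⊕ W)),
      Fintype.card W = n * ((d * (d + 1) - 1) ^ 2 * (d * (d + 1) - 1 + k) * ((d + 1) ^ 2 + k)) ∧
      (∀ u v : Fin n, ¬ A.Adj (Sum.inl u) (Sum.inl v)) ∧
      (∀ x, k ≤ (A.neighborSet x).ncard) ∧
      ∀ G : SimpleGraph (Fin n),
        KConnected (d * (d + 1) - 1) (G.map Function.Embedding.inl ⊔ A) ∧
        genRank d (G.map Function.Embedding.inl ⊔ A) = genRank d G + d * Fintype.card W ∧
        (GenRigid d (G.map Function.Embedding.inl ⊔ A) ↔ GenRigid d G) := by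
  classical
  obtain ⟨C, hC, A, h1, h2, h3, -, h5, h6⟩ := mainR hd (Fin n) (by rwa [Fintype.card_fin])
    (Fin ((d + 1) ^ 2 + k)) ⊤ (by rw [Fintype.card_fin]; omega) (rigid_top _ d)
    (kconn_top (by
      rw [Fintype.card_fin]
      have : (d + 1) ^ 2 = d * (d + 1) + (d + 1) := by ring
      omega)) k
  refine ⟨C × (Fin (d * (d + 1) - 1) × Fin ((d + 1) ^ 2 + k)), inferInstance, A, ?_, h2, ?_, h6⟩
  · rw [Fintype.card_prod, h1, Fintype.card_prod, Fintype.card_fin, Fintype.card_fin,
      Fintype.card_fin]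
    ring
  · rintro (v | ⟨c, i, s⟩)
    · exact h5 v
    · have h7 : Function.Injective (fun t : Fin ((d + 1) ^ 2 + k) =>
          (Sum.inr (c, i, t) : Fin n ⊕ C × (Fin (d * (d + 1) - 1) × Fin ((d + 1) ^ 2 + k)))) := by
        intro t t' h
        simpa using h
      have h8 : (fun t : Fin ((d + 1) ^ 2 + k) =>
          (Sum.inr (c, i, t) : Fin n ⊕ C × (Fin (d * (d + 1) - 1) × Fin ((d + 1) ^ 2 + k)))) ''
          {t | t ≠ s} ⊆ A.neighborSet (Sum.inr (c, i, s)) := by
        rintro _ ⟨t, ht, rfl⟩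
        exact (h3 c i s t).2 (Ne.symm ht)
      refine le_trans ?_ (Set.ncard_le_ncard h8 (Set.toFinite _))
      rw [Set.ncard_image_of_injective _ h7]
      have h9 : ({t | t ≠ s} : Set (Fin ((d + 1) ^ 2 + k))) = {s}ᶜ := rfl
      have h10 := Set.ncard_add_ncard_compl ({s} : Set (Fin ((d + 1) ^ 2 + k)))
      rw [Set.ncard_singleton, Nat.card_eq_fintype_card, Fintype.card_fin] at h10
      rw [h9]
      have : 1 ≤ (d + 1) ^ 2 := Nat.one_le_pow _ _ (by omega)
      omega

/-- **The third theorem**: the counting conditions. -/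
theorem mainO (n : ℕ) (hn : 6 ≤ n) :
    ∃ (W : Type) (_ : Fintype W) (A : SimpleGraph (Fin n ⊕ W)),
      Fintype.card W = 180 * n ∧ A.edgeSet.ncard = 3 * Fintype.card W ∧
      (∀ u v : Fin n, ¬ A.Adj (Sum.inl u) (Sum.inl v)) ∧
      ∀ G : SimpleGraph (Fin n),
        KConnected 5 (G.map Function.Embedding.inl ⊔ A) ∧
        genRank 3 (G.map Function.Embedding.inl ⊔ A) = genRank 3 G + 3 * Fintype.card W ∧
        (G.map Function.Embedding.inl ⊔ A).edgeSet.ncard =
          G.edgeSet.ncard + 3 * Fintype.card W ∧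
        (Maxwell (G.map Function.Embedding.inl ⊔ A) ↔ Maxwell G) ∧
        (GenRigid 3 (G.map Function.Embedding.inl ⊔ A) ↔ GenRigid 3 G) := by
  classical
  obtain ⟨hub⟩ : Nonempty (O ↪ Fin n) := Function.Embedding.nonempty_of_card_le (by
    rw [Fintype.card_fin]
    exact hn)
  have hγ : ∀ c : Fin n × O × Fin 5, Function.Injective (gam hub c) := gam_inj hub.injective
  refine ⟨(Fin n × O × Fin 5) × O, inferInstance, octx (gam hub), ?_, octx_edges hγ,
    fun u v h => h, ?_⟩
  · simp only [Fintype.card_prod, Fintype.card_fin, Fintype.card_bool]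
    ring
  · intro G
    have h1 := rank_oct hγ G
    refine ⟨oct_kconn hub.injective (by simp) le_sup_right, h1, ?_, maxwell_oct hγ G, ?_⟩
    · rw [SimpleGraph.edgeSet_sup, Set.ncard_union_eq _ (Set.toFinite _) (Set.toFinite _),
        octx_edges hγ]
      · congr 1
        rw [SimpleGraph.edgeSet_map]
        exact Set.ncard_image_of_injective _ (Function.Embedding.injective _)
      · rw [Set.disjoint_left]
        intro e he he'
        induction e using Sym2.ind with
        | _ x y =>
          obtain ⟨u, v, -, rfl, rfl⟩ := up_adj_inv G he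
          exact he'
    · refine genRigid_iff_of_rank (by rw [Fintype.card_fin]; omega) ?_ ?_
      · rw [Fintype.card_sum, Fintype.card_fin]
        omega
      · rw [h1, Fintype.card_sum, mul_add]
        omega

end Pool.Agent.H557.RG
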