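import Mathlib
import Pool.Agent.H557.RG.Body
import Pool.Agent.H557.RG.MainA

/-!
# The girth of graphs which are put together from bodies
-/

set_option autoImplicit false
set_option linter.unusedSectionVars false

namespace Pool.Agent.H557.RG

open Finset

/-- there are no closed walks without backtracking of positive length less than `g` -/
def NoCyc {U : Type} (g : ℕ) (G : SimpleGraph U) : Prop :=
  ∀ (x : ℕ → U) (l : ℕ), 1 ≤ l → l < g → (∀ n, G.Adj (x n) (x (n + 1))) →
    (∀ n, x (n + l) = x n) → (∀ n, x n ≠ x (n + 2)) → False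

theorem NoCyc.girth {U : Type} {g : ℕ} {G : SimpleGraph U} (h : NoCyc g G) :
    (g : ℕ∞) ≤ G.egirth := by
  rw [SimpleGraph.le_egirth]
  intro v w hw
  by_contra hcon
  push Not at hcon
  have hl : w.length < g := by exact_mod_cast hcon
  have h3 := hw.three_le_length
  set l := w.length with hldef
  have hadj : ∀ n < l, G.Adj (w.getVert n) (w.getVert (n + 1)) := fun n hn =>
    w.adj_getVert_succ hn
  have h0 : w.getVert l = w.getVert 0 := by
    rw [SimpleGraph.Walk.getVert_length, SimpleGraph.Walk.getVert_zero]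
  have hinj : ∀ i j, i < l → j < l → w.getVert i = w.getVert j → i = j := by
    intro i j hi hj hij
    have h4 := hw.getVert_injOn'
    exact h4 (by simp only [Set.mem_ofPred_eq]; omega) (by simp only [Set.mem_ofPred_eq]; omega) hij
  refine h (fun n => w.getVert (n % l)) l (by omega) hl ?_ ?_ ?_
  · intro n
    have h5 : n % l < l := Nat.mod_lt _ (by omega)
    rcases Nat.lt_or_ge (n % l + 1) l with h6 | h6
    · have h7 : (n + 1) % l = n % l + 1 := by
        rw [Nat.add_mod, Nat.mod_eq_of_lt (by omega : 1 < l), Nat.mod_eq_of_lt h6]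
      show G.Adj (w.getVert (n % l)) (w.getVert ((n + 1) % l))
      rw [h7]
      exact hadj _ h5
    · have h7 : (n + 1) % l = 0 := by
        rw [Nat.add_mod, Nat.mod_eq_of_lt (by omega : 1 < l), show n % l + 1 = l by omega,
          Nat.mod_self]
      show G.Adj (w.getVert (n % l)) (w.getVert ((n + 1) % l))
      rw [h7, ← h0]
      have := hadj _ h5
      rwa [show n % l + 1 = l by omega] at this
  · intro n
    show w.getVert ((n + l) % l) = w.getVert (n % l)
    rw [Nat.add_mod_right]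
  · intro n hn
    have h5 := hinj _ _ (Nat.mod_lt _ (by omega)) (Nat.mod_lt _ (by omega)) hn
    have h6 : (n + 2) ≡ n + 0 [MOD l] := h5.symm
    have h7 := Nat.ModEq.add_left_cancel' n h6
    have h8 : l ∣ 2 := (Nat.modEq_zero_iff_dvd).1 h7
    have h9 := Nat.le_of_dvd (by norm_num) h8
    omega

/-- **The girth of a graph put together from bodies.** -/
theorem glue_girth {U I : Type} (H : SimpleGraph U) (g : ℕ) (Bd : I → Set U)
    (h1 : ∀ i (x : ℕ → U) l, 1 ≤ l → l < g → (∀ n ≤ l, x n ∈ Bd i) → Wk H x l →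
      (∀ n, n + 1 < l → x n ≠ x (n + 2)) → x 0 ≠ x l)
    (h2 : ∀ i, ∀ x ∈ Bd i, ∀ y z, H.Adj x y → H.Adj x z → y ∉ Bd i → z ∉ Bd i → y = z)
    (h3 : ∀ i (x : ℕ → U) l, (∀ n ≤ l, x n ∈ Bd i) → Wk H x l → x 0 ≠ x l →
      (∃ y, y ∉ Bd i ∧ H.Adj (x 0) y) → (∃ y, y ∉ Bd i ∧ H.Adj (x l) y) → g ≤ l)
    (h4 : ∀ (x : ℕ → U) (l : ℕ), 1 ≤ l → l < g → (∀ n i, x n ∉ Bd i) →
      (∀ n, H.Adj (x n) (x (n + 1))) → (∀ n, x (n + l) = x n) → (∀ n, x n ≠ x (n + 2)) → False) :
    NoCyc g H := by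
  classical
  intro x l hl hlg hadj hper hnb
  by_cases hall : ∀ n i, x n ∉ Bd i
  · exact h4 x l hl hlg hall hadj hper hnb
  push Not at hall
  obtain ⟨n0, i, hn0⟩ := hall
  by_cases hin : ∀ n, x n ∈ Bd i
  · refine h1 i x l hl hlg (fun n _ => hin n) (fun n _ => hadj n) (fun n _ => hnb n) ?_
    have := hper 0
    rw [zero_add] at this
    exact this.symm
  push Not at hin
  obtain ⟨m, hm⟩ := hin
  have hper' : ∀ k n, x (n + k * l) = x n := by
    intro k
    induction k with
    | zero => intro n; rw [zero_mul, add_zero]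
    | succ k ih =>
      intro n
      rw [show n + (k + 1) * l = (n + k * l) + l by ring, hper, ih]
  -- an entry
  have hex : ∃ n, x (m + n) ∈ Bd i := by
    refine ⟨n0 + m * l - m, ?_⟩
    have h5 : m ≤ m * l := Nat.le_mul_of_pos_right m hl
    rw [show m + (n0 + m * l - m) = n0 + m * l by omega, hper']
    exact hn0
  set t := Nat.find hex with ht
  have ht1 : x (m + t) ∈ Bd i := Nat.find_spec hex
  have ht0 : 1 ≤ t := by
    by_contra h
    have : t = 0 := by omega
    rw [this, add_zero] at ht1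
    exact hm ht1
  have ht2 : x (m + (t - 1)) ∉ Bd i := Nat.find_min hex (by omega)
  -- shift
  obtain ⟨y, hy⟩ : ∃ y : ℕ → U, y = fun n => x (m + (t - 1) + n) := ⟨_, rfl⟩
  have hyadj : ∀ n, H.Adj (y n) (y (n + 1)) := by
    intro n
    rw [hy]
    exact hadj (m + (t - 1) + n)
  have hyper : ∀ n, y (n + l) = y n := by
    intro n
    rw [hy]
    show x (m + (t - 1) + (n + l)) = x (m + (t - 1) + n)
    rw [← add_assoc, hper]
  have hynb : ∀ n, y n ≠ y (n + 2) := by
    intro n
    rw [hy]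
    exact hnb (m + (t - 1) + n)
  have hy0 : y 0 ∉ Bd i := by
    rw [hy]
    exact ht2
  have hy1 : y 1 ∈ Bd i := by
    rw [hy]
    show x (m + (t - 1) + 1) ∈ Bd i
    rw [show m + (t - 1) + 1 = m + t by omega]
    exact ht1
  -- the exit
  have hex2 : ∃ n, y (1 + n) ∉ Bd i := by
    refine ⟨l - 1, ?_⟩
    rw [show 1 + (l - 1) = 0 + l by omega, hyper]
    exact hy0
  set s := Nat.find hex2 with hs
  have hs1 : y (1 + s) ∉ Bd i := Nat.find_spec hex2
  have hs0 : 1 ≤ s := by
    by_contra h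
    have : s = 0 := by omega
    rw [this, add_zero] at hs1
    exact hs1 hy1
  have hsl : s ≤ l - 1 := Nat.find_min' hex2 (by
    rw [show 1 + (l - 1) = 0 + l by omega, hyper]
    exact hy0)
  have hsin : ∀ n < s, y (1 + n) ∈ Bd i := fun n hn => by
    have := Nat.find_min hex2 hn
    exact not_not.1 this
  have hwk : Wk H (fun n => y (1 + n)) (s - 1) := fun n _ => hyadj (1 + n)
  rcases Nat.lt_or_ge 1 s with hs2 | hs2
  · have h5 := h1 i (fun n => y (1 + n)) (s - 1) (by omega) (by omega)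
      (fun n hn => hsin n (by omega)) hwk (fun n _ => hynb (1 + n))
    have h6 := h3 i (fun n => y (1 + n)) (s - 1) (fun n hn => hsin n (by omega)) hwk h5
      ⟨y 0, hy0, (hyadj 0).symm⟩ ⟨y (1 + s), hs1, by
        have := hyadj (1 + (s - 1))
        rw [show 1 + (s - 1) + 1 = 1 + s by omega] at this
        exact this⟩
    omega
  · have h5 : s = 1 := by omega
    rw [h5] at hs1
    exact hynb 0 (h2 i (y 1) hy1 (y 0) (y 2) (hyadj 0).symm (hyadj 1) hy0 hs1)

section ext

variable {V B T C : Type} {g : ℕ}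

theorem up_inr {H : Type} (G : SimpleGraph V) (z : C × H) (x : V ⊕ C × H) :
    ¬ (up H C G).Adj (Sum.inr z) x := by
  intro h
  obtain ⟨u, v, -, h1, -⟩ := up_adj_inv G h
  simp at h1

/-- **The girth** after attaching clusters. -/
theorem ext_girth [Nonempty T] {R : SimpleGraph T} (hR : NoShort g R) (γ : C → B → V)
    {ζ : C → B → Option B → T} (hζ : ∀ c i, Function.Injective (ζ c i))
    (hfar : ∀ c i, Far g R (ζ c i)) {G : SimpleGraph V} (hG : NoCyc g G) :
    NoCyc g (up (B × T) C G ⊔ ext R γ ζ) := by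
  classical
  obtain ⟨t0⟩ := ‹Nonempty T›
  let pj : V ⊕ C × (B × T) → T := Sum.elim (fun _ => t0) (fun z => z.2.2)
  have hin : ∀ c i s t, (up (B × T) C G ⊔ ext R γ ζ).Adj (Sum.inr (c, i, s)) (Sum.inr (c, i, t)) →
      R.Adj s t := by
    rintro c i s t (h | h)
    · exact absurd h (up_inr G _ _)
    · rw [ext_rr] at h
      obtain ⟨-, ⟨-, h⟩ | ⟨h, -⟩⟩ := h
      · exact h
      · exact absurd rfl h
  have hwk : ∀ c i (x : ℕ → V ⊕ C × (B × T)) l,
      (∀ n ≤ l, x n ∈ {y | ∃ t, y = Sum.inr (c, i, t)}) →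
      Wk (up (B × T) C G ⊔ ext R γ ζ) x l → (∀ n ≤ l, x n = Sum.inr (c, i, pj (x n))) ∧
      Wk R (fun n => pj (x n)) l := by
    intro c i x l hx hw
    have h1 : ∀ n ≤ l, x n = Sum.inr (c, i, pj (x n)) := by
      intro n hn
      obtain ⟨t, ht⟩ := hx n hn
      rw [ht]
      rfl
    refine ⟨h1, ?_⟩
    intro n hn
    have h2 := hw n hn
    rw [h1 n (by omega), h1 (n + 1) (by omega)] at h2
    exact hin c i _ _ h2
  refine glue_girth (I := C × B) _ g (fun z => {y | ∃ t, y = Sum.inr (z.1, z.2, t)}) ?_ ?_ ?_ ?_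
  · rintro ⟨c, i⟩ x l hl hlg hx hw hnb h0
    obtain ⟨h1, h2⟩ := hwk c i x l hx hw
    refine hR (fun n => pj (x n)) l hl hlg h2 (fun n hn hn' => hnb n hn ?_) ?_
    · rw [h1 n (by omega), h1 (n + 2) (by omega)]
      have hn'' : pj (x n) = pj (x (n + 2)) := hn'
      rw [hn'']
    · show pj (x 0) = pj (x l)
      rw [h0]
  · rintro ⟨c, i⟩ _ ⟨s, rfl⟩ y z hy hz hy' hz'
    have hy2 : (ext R γ ζ).Adj (Sum.inr (c, i, s)) y := hy.resolve_left (up_inr G _ _)
    have hz2 : (ext R γ ζ).Adj (Sum.inr (c, i, s)) z := hz.resolve_left (up_inr G _ _)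
    exact ext_out R γ hζ c i s y z hy2 hz2 (fun t ht => hy' ⟨t, ht⟩) (fun t ht => hz' ⟨t, ht⟩)
  · rintro ⟨c, i⟩ x l hx hw hne ⟨y, hy, hy'⟩ ⟨z, hz, hz'⟩
    obtain ⟨h1, h2⟩ := hwk c i x l hx hw
    have hout : ∀ s w, (up (B × T) C G ⊔ ext R γ ζ).Adj (Sum.inr (c, i, s)) w →
        w ∉ {y | ∃ t, y = Sum.inr (c, i, t)} → ∃ j, s = ζ c i j := by
      intro s w hw hw'
      have hw2 : (ext R γ ζ).Adj (Sum.inr (c, i, s)) w := hw.resolve_left (up_inr G _ _)
      rcases w with v | ⟨c', j, t⟩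
      · exact ⟨none, hw2.2⟩
      · obtain ⟨rfl, ⟨rfl, -⟩ | ⟨-, h, -⟩⟩ := hw2
        · exact absurd ⟨t, rfl⟩ hw'
        · exact ⟨some j, h⟩
    rw [h1 0 (by omega)] at hy'
    rw [h1 l le_rfl] at hz'
    obtain ⟨j, hj⟩ := hout _ _ hy' hy
    obtain ⟨k, hk⟩ := hout _ _ hz' hz
    refine hfar c i j k ?_ (fun n => pj (x n)) l h2 hj hk
    rintro rfl
    apply hne
    rw [h1 0 (by omega), h1 l le_rfl, hj, hk]
  · intro x l hl hlg hx hadj hper hnb
    have h1 : ∀ n, ∃ v, x n = Sum.inl v := by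
      intro n
      rcases hxn : x n with v | ⟨c, i, t⟩
      · exact ⟨v, rfl⟩
      · exact absurd ⟨t, hxn⟩ (hx n (c, i))
    choose v hv using h1
    refine hG v l hl hlg ?_ ?_ ?_
    · intro n
      have h2 := hadj n
      rw [hv, hv] at h2
      rcases h2 with h2 | h2
      · obtain ⟨a, b, hab, h3, h4⟩ := up_adj_inv G h2
        rw [Sum.inl_injective h3, Sum.inl_injective h4]
        exact hab
      · exact absurd h2 (ext_ll R γ ζ _ _)
    · intro n
      have h2 := hper n
      rw [hv, hv] at h2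
      exact Sum.inl_injective h2
    · intro n h2
      apply hnb n
      rw [hv, hv, h2]

end ext

end Pool.Agent.H557.RG
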