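import Mathlib
import Pool.Agent.H557.RG.Girth

/-!
# Replacing edges by bodies
-/

set_option autoImplicit false
set_option linter.unusedSectionVars false

namespace Pool.Agent.H557.RG

open Matrix Finset Pool.Agent.H283R2.DR Pool.Agent.H789R5

/-- the pairs of vertices of a simplex in `ℝ^d` -/
abbrev Q (d : ℕ) : Type := {x : Fin (d + 1) × Fin (d + 1) // x.1 < x.2}

theorem card_Q (d : ℕ) : Fintype.card (Q d) = d * (d + 1) / 2 := by
  rw [card_lt_pairs, Nat.add_sub_cancel, mul_comm]

variable {V T E : Type} {d : ℕ}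

/-- **Replacing edges by bodies.** For each `e : E` there is a copy of the graph `R`; it is joined to
the vertices `gr e q` of the base `V` by edges which end in the vertices `ζ e q` of the copy; the last
one of these edges (`q = none`) is present only if `sw e` holds. -/
def edg (R : SimpleGraph T) (gr : E → Option (Q d) → V) (ζ : E → Option (Q d) → T) (sw : E → Prop) :
    SimpleGraph (V ⊕ E × (Unit × T)) where
  Adj x y := match x, y with
    | Sum.inl _, Sum.inl _ => False
    | Sum.inl v, Sum.inr (e, _, t) => ∃ q, (q = none → sw e) ∧ v = gr e q ∧ t = ζ e q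
    | Sum.inr (e, _, t), Sum.inl v => ∃ q, (q = none → sw e) ∧ v = gr e q ∧ t = ζ e q
    | Sum.inr (e, _, s), Sum.inr (e', _, t) => e = e' ∧ R.Adj s t
  symm := ⟨by
    rintro (u | ⟨c, i, s⟩) (v | ⟨c', j, t⟩) h
    · exact h
    · exact h
    · exact h
    · exact ⟨h.1.symm, h.2.symm⟩⟩
  loopless := ⟨by
    rintro (u | ⟨c, i, s⟩) h
    · exact h
    · exact R.loopless.irrefl _ h.2⟩

theorem edg_clustered (R : SimpleGraph T) (gr : E → Option (Q d) → V) (ζ : E → Option (Q d) → T)
    (sw : E → Prop) : Clustered (edg R gr ζ sw) where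
  base := fun _ _ h => h
  clus := fun _ _ _ _ h => h.1

/-- the base vertices for the edge `u v` -/
noncomputable def grd (u v : V) (w : Q d → V) : Option (Q d) → V
  | none => v
  | some q => if q.1.1 = 0 then u else if q.1.1 = 1 then v else w q

theorem one_ne_zero' (hd : 1 ≤ d) : (1 : Fin (d + 1)) ≠ 0 := by
  intro h
  rw [Fin.one_eq_zero_iff] at h
  omega

theorem pin_edge (hd : 1 ≤ d) (u v : E → V) (w : E → Q d → V) (huv : ∀ e, u e ≠ v e)
    (hw : ∀ e, Function.Injective (w e)) (hwu : ∀ e q, w e q ≠ u e) (hwv : ∀ e q, w e q ≠ v e)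
    (ζ : E → Option (Q d) ⊕ Fin (d + 1) → T) (hζ : ∀ e, Function.Injective (ζ e)) (e : E) :
    ∃ p : V ⊕ E × (Unit × T) → Fin d → ℝ,
      Pinned (edg ⊤ (fun e => grd (u e) (v e) (w e)) (fun e q => ζ e (Sum.inl q))
        (fun _ => False)) e p := by
  classical
  let p : V ⊕ E × (Unit × T) → Fin d → ℝ := Sum.elim
    (fun x => if x = u e then smp 0 else if x = v e then smp 1 else
      Function.extend (w e) (fun q : Q d => (smp q.1.1 : Fin d → ℝ)) 0 x)
    (fun y => Function.extend (ζ e)
      (Sum.elim (fun q => match q with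
        | none => 0
        | some q => ln q.1 2) smp) 0 y.2.2)
  have pV : ∀ q : Q d, p (Sum.inl (grd (u e) (v e) (w e) (some q))) = smp q.1.1 := by
    intro q
    show (if grd (u e) (v e) (w e) (some q) = u e then smp 0 else
      if grd (u e) (v e) (w e) (some q) = v e then smp 1 else
      Function.extend (w e) (fun q : Q d => (smp q.1.1 : Fin d → ℝ)) 0
        (grd (u e) (v e) (w e) (some q))) = _
    unfold grd
    by_cases h0 : q.1.1 = 0
    · simp only [h0, if_true]
    · by_cases h1 : q.1.1 = 1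
      · simp only [h1, if_neg (one_ne_zero' hd), if_true, if_neg (huv e).symm]
      · simp only [if_neg h0, if_neg h1, if_neg (hwu e q), if_neg (hwv e q)]
        rw [(hw e).extend_apply]
  have pQ : ∀ q : Q d, p (Sum.inr (e, (), ζ e (Sum.inl (some q)))) = ln q.1 2 := by
    intro q
    show Function.extend (ζ e)
      (Sum.elim (fun q => match q with
        | none => 0
        | some q => ln q.1 2) smp) 0 (ζ e (Sum.inl (some q))) = _
    rw [(hζ e).extend_apply]
    rfl
  have pS : ∀ a, p (Sum.inr (e, (), ζ e (Sum.inr a))) = smp a := by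
    intro a
    show Function.extend (ζ e)
      (Sum.elim (fun q => match q with
        | none => 0
        | some q => ln q.1 2) smp) 0 (ζ e (Sum.inr a)) = _
    rw [(hζ e).extend_apply]
    rfl
  refine ⟨p, pinned_of ?_⟩
  intro q hq h0
  have hbody : ∀ s t, s ≠ t → (p (Sum.inr (e, (), s)) - p (Sum.inr (e, (), t))) ⬝ᵥ
      (q (Sum.inr (e, (), s)) - q (Sum.inr (e, (), t))) = 0 := by
    intro s t hst
    exact hq (Sum.inr (e, (), s)) (Sum.inr (e, (), t)) ⟨rfl, hst⟩
  have hsimp : ∀ a b, (smp b - smp a) ⬝ᵥ (q (Sum.inr (e, (), ζ e (Sum.inr b))) -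
      q (Sum.inr (e, (), ζ e (Sum.inr a)))) = 0 := by
    intro a b
    by_cases hab : b = a
    · subst hab
      rw [sub_self, zero_dotProduct]
    · have := hbody (ζ e (Sum.inr b)) (ζ e (Sum.inr a))
        (fun h => hab (Sum.inr_injective (hζ e h)))
      rwa [pS, pS] at this
  have hall : ∀ x : Q d, (smp x.1.2 - smp x.1.1) ⬝ᵥ
      q (Sum.inr (e, (), ζ e (Sum.inr x.1.1))) = 0 := by
    intro x
    have h1 : (p (Sum.inr (e, (), ζ e (Sum.inl (some x)))) -
        p (Sum.inl (grd (u e) (v e) (w e) (some x)))) ⬝ᵥ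
        (q (Sum.inr (e, (), ζ e (Sum.inl (some x)))) -
        q (Sum.inl (grd (u e) (v e) (w e) (some x)))) = 0 :=
      hq _ _ ⟨some x, by simp, rfl, rfl⟩
    have h2 := hbody (ζ e (Sum.inl (some x))) (ζ e (Sum.inr x.1.1))
      (fun h => Sum.inl_ne_inr (hζ e h))
    rw [pQ, pV, h0, sub_zero, ← ln_zero x.1, ln_sub, sub_zero, smul_dotProduct, smul_eq_mul,
      mul_eq_zero] at h1
    rw [pQ, pS, ← ln_zero x.1, ln_sub, sub_zero, smul_dotProduct, smul_eq_mul,
      mul_eq_zero] at h2
    have h3 := h1.resolve_left (by norm_num)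
    have h4 := h2.resolve_left (by norm_num)
    rw [dotProduct_sub, sub_eq_zero] at h4
    rw [← h4, h3]
  have hz : ∀ a, q (Sum.inr (e, (), ζ e (Sum.inr a))) = 0 := by
    intro a
    have h1 : ∀ b, (smp b - smp a) ⬝ᵥ q (Sum.inr (e, (), ζ e (Sum.inr a))) = 0 := by
      intro b
      rcases lt_trichotomy a b with hab | hab | hab
      · exact hall ⟨(a, b), hab⟩
      · subst hab
        rw [sub_self, zero_dotProduct]
      · have h2 := hall ⟨(b, a), hab⟩
        simp only at h2
        have h3 := hsimp a b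
        rw [dotProduct_sub, sub_eq_zero] at h3
        rw [← h3, ← neg_sub, neg_dotProduct, h2, neg_zero]
    apply smp_zero
    intro b b'
    have h2 := h1 b
    have h3 := h1 b'
    rw [sub_dotProduct, sub_eq_zero] at *
    rw [h3, h2]
  rintro ⟨⟨⟩, s⟩
  by_cases hs : ∃ a, ζ e (Sum.inr a) = s
  · obtain ⟨a, rfl⟩ := hs
    exact hz a
  · apply smp_zero
    intro a b
    have h1 : ∀ a, (p (Sum.inr (e, (), s)) - smp a) ⬝ᵥ q (Sum.inr (e, (), s)) = 0 := by
      intro a
      have h2 := hbody s (ζ e (Sum.inr a)) (fun h => hs ⟨a, h.symm⟩)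
      rwa [pS, hz, sub_zero] at h2
    have h2 := h1 a
    have h3 := h1 b
    rw [sub_dotProduct, sub_eq_zero] at *
    rw [← h3, ← h2]

section rank

variable [Fintype V] [Fintype T] [Fintype E]

theorem mo_bods {B C : Type} [Fintype B] [Fintype C] (R : SimpleGraph T)
    {p : V ⊕ C × (B × T) → Fin d → ℝ} (hp : MG p) (hT : d ≤ Fintype.card T) (G : SimpleGraph V) :
    mo G (restr Sum.inl d p) + Fintype.card (C × B) * (d * (d + 1) / 2) ≤
      mo (up (B × T) C G ⊔ bods V B C R) p := by
  classical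
  let L : (Mot G (restr Sum.inl d p) × (C × B → TA.Sk d × (Fin d → ℝ))) →ₗ[ℝ]
      (V ⊕ C × (B × T) → Fin d → ℝ) :=
    (bodMap p).comp ((Mot G (restr Sum.inl d p)).subtype.prodMap LinearMap.id)
  have hL : Function.Injective L := by
    intro x y hxy
    have h2 := bodMap_inj hp hT hxy
    have h3 := congrArg Prod.fst h2
    have h4 := congrArg Prod.snd h2
    exact Prod.ext (Subtype.ext h3) h4
  have h2 : Module.finrank ℝ (Mot G (restr Sum.inl d p) × (C × B → TA.Sk d × (Fin d → ℝ))) =
      mo G (restr Sum.inl d p) + Fintype.card (C × B) * (d * (d + 1) / 2) := by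
    rw [Module.finrank_prod, Module.finrank_pi_fintype, sum_const, finrank_triv, card_univ,
      smul_eq_mul]
    rfl
  rw [← h2, ← LinearMap.finrank_range_of_inj hL]
  refine Submodule.finrank_mono ?_
  rintro _ ⟨⟨⟨q, hq⟩, x⟩, rfl⟩
  rw [mem_mot] at *
  intro a b hab
  rcases hab with hab | hab
  · obtain ⟨u, v, huv, rfl, rfl⟩ := up_adj_inv G hab
    exact hq u v huv
  · rcases a with u | ⟨c, i, s⟩ <;> rcases b with v | ⟨c', j, t⟩
    · exact absurd hab (fun h => h)
    · exact absurd hab (fun h => h)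
    · exact absurd hab (fun h => h)
    · obtain ⟨rfl, rfl, -⟩ := hab
      show (p _ - p _) ⬝ᵥ (((x (c, i)).1 : Matrix (Fin d) (Fin d) ℝ) *ᵥ p _ + (x (c, i)).2 -
        (((x (c, i)).1 : Matrix (Fin d) (Fin d) ℝ) *ᵥ p _ + (x (c, i)).2)) = 0
      rw [add_sub_add_right_eq_sub, ← mulVec_sub]
      exact TA.skew_dot (x (c, i)).1.2 _

/-- the rank without the switched edges -/
theorem edge_rank (hd : 1 ≤ d) (R : SimpleGraph T) (hR : GenRigid d R) (hT : d ≤ Fintype.card T)
    (u v : E → V) (w : E → Q d → V) (huv : ∀ e, u e ≠ v e)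
    (hw : ∀ e, Function.Injective (w e)) (hwu : ∀ e q, w e q ≠ u e) (hwv : ∀ e q, w e q ≠ v e)
    (ζ : E → Option (Q d) ⊕ Fin (d + 1) → T) (hζ : ∀ e, Function.Injective (ζ e))
    (G : SimpleGraph V) :
    genRank d (up (Unit × T) E G ⊔ edg R (fun e => grd (u e) (v e) (w e))
      (fun e q => ζ e (Sum.inl q)) (fun _ => False)) =
      genRank d G + d * Fintype.card (E × (Unit × T)) := by
  classical
  refine le_antisymm ?_ ?_
  · obtain ⟨p, hp⟩ := exists_mg (V ⊕ E × (Unit × T)) d
    have h1 := mo_bods (B := Unit) (C := E) R hp hT G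
    have h2 := dim_drop (T := E × Q d)
      (Mot (up (Unit × T) E G ⊔ bods V Unit E R) p)
      (Mot (up (Unit × T) E G ⊔ edg R (fun e => grd (u e) (v e) (w e))
        (fun e q => ζ e (Sum.inl q)) (fun _ => False)) p)
      (fun t => ef p (Sum.inr (t.1, (), ζ t.1 (Sum.inl (some t.2))))
        (Sum.inl (grd (u t.1) (v t.1) (w t.1) (some t.2)))) (by
        intro q hq h
        rw [mem_mot] at *
        intro a b hab
        rcases hab with hab | hab
        · exact hq _ _ (Or.inl hab)
        · rcases a with x | ⟨e, ⟨⟩, s⟩ <;> rcases b with y | ⟨e', ⟨⟩, t⟩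
          · exact absurd hab (fun h => h)
          · obtain ⟨q', hq', rfl, rfl⟩ := hab
            rcases q' with _ | q'
            · exact (hq' rfl).elim
            · have h3 := h (e', q')
              rw [ef_comm] at h3
              exact h3
          · obtain ⟨q', hq', rfl, rfl⟩ := hab
            rcases q' with _ | q'
            · exact (hq' rfl).elim
            · exact h (e, q')
          · obtain ⟨rfl, h3⟩ := hab
            exact hq _ _ (Or.inr ⟨rfl, rfl, h3⟩))
    rw [Fintype.card_prod, card_Q] at h2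
    change mo _ p ≤ mo _ p + _ at h2
    rw [Fintype.card_prod, Fintype.card_unit, mul_one] at h1
    have h3 := genRank_add hp (up (Unit × T) E G ⊔ edg R (fun e => grd (u e) (v e) (w e))
        (fun e q => ζ e (Sum.inl q)) (fun _ => False))
    have h4 := genRank_ge G (restr Sum.inl d p)
    rw [Fintype.card_sum, mul_add] at h3
    omega
  · refine low (edg ⊤ (fun e => grd (u e) (v e) (w e)) (fun e q => ζ e (Sum.inl q))
      (fun _ => False)) _ (edg_clustered _ _ _ _) (ι := E)
      (fun e p => InfRigid R (restr (fun t : T => (Sum.inr (e, (), t) : V ⊕ E × (Unit × T))) d p))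
      ?_ ?_ ?_ ?_ G
    · intro e
      exact good_comp (restr (fun t : T => (Sum.inr (e, (), t) : V ⊕ E × (Unit × T))) d)
        (TA.infRigid_good R)
    · intro e
      refine restr_sat (fun t : T => (Sum.inr (e, (), t) : V ⊕ E × (Unit × T))) ?_ hR
      intro a b hab
      simpa using hab
    · intro p hp q hq
      rw [mem_mot] at *
      intro x y hxy
      rcases x with x | ⟨e, ⟨⟩, s⟩ <;> rcases y with y | ⟨e', ⟨⟩, t⟩
      · exact absurd hxy (fun h => h)
      · exact hq _ _ hxy
      · exact hq _ _ hxy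
      · obtain ⟨rfl, -⟩ := hxy
        obtain ⟨A, b, hA, hb⟩ := hp e
          (restr (fun t : T => (Sum.inr (e, (), t) : V ⊕ E × (Unit × T))) d q)
          (fun s t hst => hq (Sum.inr (e, (), s)) (Sum.inr (e, (), t)) ⟨rfl, hst⟩)
        have h1 := hb s
        have h2 := hb t
        change q (Sum.inr (e, (), s)) = A *ᵥ p (Sum.inr (e, (), s)) + b at h1
        change q (Sum.inr (e, (), t)) = A *ᵥ p (Sum.inr (e, (), t)) + b at h2
        rw [h1, h2, add_sub_add_right_eq_sub, ← mulVec_sub]
        exact TA.skew_dot hA _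
    · exact fun e => pin_edge hd u v w huv hw hwu hwv ζ hζ e

end rank

end Pool.Agent.H557.RG
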