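import Mathlib
import Pool.Agent.H557.RG.Edge

/-!
# The switched edge of a body imposes the same condition as the edge which it replaces
-/

set_option autoImplicit false
set_option linter.unusedSectionVars false

namespace Pool.Agent.H557.RG

open Matrix Finset Pool.Agent.H283R2.DR Pool.Agent.H789R5

variable {d : ℕ}

theorem orth_zero {U : Type} [Fintype U] {p : U → Fin d → ℝ} (hp : MG p) {x : U} {y : Fin d → U}
    (hy : Function.Injective y) (hxy : ∀ b, y b ≠ x) {w : Fin d → ℝ}
    (h : ∀ b, (p x - p (y b)) ⬝ᵥ w = 0) : w = 0 := by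
  classical
  have h1 := lin_of_pos hp (v := x) (T := univ.image y) (by
    intro hx
    obtain ⟨b, -, hb⟩ := mem_image.1 hx
    exact hxy b hb) (by
    rw [card_image_of_injective _ hy, card_univ, Fintype.card_fin])
  have h2 := h1.comp (fun b : Fin d => (⟨y b, mem_image_of_mem y (mem_univ b)⟩ : univ.image y))
    (fun a b hab => hy (congrArg Subtype.val hab))
  let M : Matrix (Fin d) (Fin d) ℝ := Matrix.of fun b => p x - p (y b)
  have h3 : LinearIndependent ℝ M.row := h2
  rw [Matrix.linearIndependent_rows_iff_isUnit] at h3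
  have h4 : M *ᵥ w = M *ᵥ 0 := by
    rw [Matrix.mulVec_zero]
    funext b
    exact h b
  exact Matrix.mulVec_injective_iff_isUnit.2 h3 h4

variable {V T E : Type} [Fintype V] [Fintype T] [Fintype E]

theorem body_triv {p : V ⊕ E × (Unit × T) → Fin d → ℝ} (hp : MG p) {R : SimpleGraph T}
    (hR : GenRigid d R) (e : E) {q : V ⊕ E × (Unit × T) → Fin d → ℝ}
    (hq : ∀ s t, R.Adj s t → (p (Sum.inr (e, (), s)) - p (Sum.inr (e, (), t))) ⬝ᵥ
      (q (Sum.inr (e, (), s)) - q (Sum.inr (e, (), t))) = 0) :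
    ∃ (A : Matrix (Fin d) (Fin d) ℝ) (b : Fin d → ℝ), Aᵀ = -A ∧
      ∀ t, q (Sum.inr (e, (), t)) = A *ᵥ p (Sum.inr (e, (), t)) + b := by
  obtain ⟨pR, hpR⟩ := hR
  let f : T → V ⊕ E × (Unit × T) := fun t => Sum.inr (e, (), t)
  have hf : Function.Injective f := by
    intro a b hab
    simpa [f] using hab
  have h1 : RigidOn (bods V Unit E R) (Set.range f) (Function.extend f pR 0) := by
    intro q' hq'
    obtain ⟨A, b, hA, hb⟩ := hpR (fun t => q' (f t)) (fun s t hst => by
      have := hq' (f s) ⟨s, rfl⟩ (f t) ⟨t, rfl⟩ ⟨rfl, rfl, hst⟩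
      rwa [hf.extend_apply, hf.extend_apply] at this)
    refine ⟨A, b, hA, ?_⟩
    rintro _ ⟨t, rfl⟩
    rw [hf.extend_apply]
    exact hb t
  obtain ⟨A, b, hA, hb⟩ := hp.rigid (bods V Unit E R) (Set.range f) _ h1 q (by
    rintro _ ⟨s, rfl⟩ _ ⟨t, rfl⟩ ⟨-, -, hst⟩
    exact hq s t hst)
  exact ⟨A, b, hA, fun t => hb (f t) ⟨t, rfl⟩⟩

theorem implied (hd : 2 ≤ d) {p : V ⊕ E × (Unit × T) → Fin d → ℝ} (hp : MG p) {R : SimpleGraph T}
    (hR : GenRigid d R) {u v : E → V} {w : E → Q d → V}
    {ζ : E → Option (Q d) ⊕ Fin (d + 1) → T} (hζ : ∀ e, Function.Injective (ζ e))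
    {sw : E → Prop} {e : E} (he : sw e) {q : V ⊕ E × (Unit × T) → Fin d → ℝ}
    (hq : IsMotion (edg R (fun e => grd (u e) (v e) (w e)) (fun e q => ζ e (Sum.inl q)) sw) p q) :
    (p (Sum.inl (u e)) - p (Sum.inl (v e))) ⬝ᵥ (q (Sum.inl (u e)) - q (Sum.inl (v e))) = 0 := by
  classical
  obtain ⟨A, b, hA, hb⟩ := body_triv hp hR e (q := q)
    (fun s t hst => hq (Sum.inr (e, (), s)) (Sum.inr (e, (), t)) ⟨rfl, hst⟩)
  have key : ∀ (x : V) (y : Fin d → Option (Q d)), Function.Injective y →
      (∀ c, (y c = none → sw e) ∧ x = grd (u e) (v e) (w e) (y c)) →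
      q (Sum.inl x) = A *ᵥ p (Sum.inl x) + b := by
    intro x y hy h
    rw [← sub_eq_zero]
    refine orth_zero hp (x := Sum.inl x)
      (y := fun c => Sum.inr (e, (), ζ e (Sum.inl (y c)))) ?_ (fun c => Sum.inr_ne_inl) ?_
    · intro a c hac
      simp only [Sum.inr.injEq, Prod.mk.injEq, true_and] at hac
      exact hy (Sum.inl_injective (hζ e hac))
    · intro c
      have h1 : (p (Sum.inl x) - p (Sum.inr (e, (), ζ e (Sum.inl (y c))))) ⬝ᵥ
          (q (Sum.inl x) - q (Sum.inr (e, (), ζ e (Sum.inl (y c))))) = 0 :=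
        hq _ _ ⟨y c, (h c).1, (h c).2, rfl⟩
      rw [hb] at h1
      have h2 := TA.skew_dot hA (p (Sum.inl x) - p (Sum.inr (e, (), ζ e (Sum.inl (y c)))))
      rw [mulVec_sub] at h2
      have h3 : q (Sum.inl x) - (A *ᵥ p (Sum.inl x) + b) =
          (q (Sum.inl x) - (A *ᵥ p (Sum.inr (e, (), ζ e (Sum.inl (y c)))) + b)) -
          (A *ᵥ p (Sum.inl x) - A *ᵥ p (Sum.inr (e, (), ζ e (Sum.inl (y c))))) := by
        abel
      rw [h3, dotProduct_sub, h1, h2, sub_zero]
  have hu := key (u e) (fun c => some ⟨(0, c.succ), Fin.succ_pos c⟩) (by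
    intro a c hac
    have h1 := Option.some_injective _ hac
    have h2 := congrArg (fun z : Q d => z.1.2) h1
    exact Fin.succ_injective _ h2) (by
    intro c
    refine ⟨by simp, ?_⟩
    simp [grd])
  have h1lt : ∀ c : Fin d, (c : ℕ) ≠ 0 → (1 : Fin (d + 1)) < c.succ := by
    intro c hc
    rw [Fin.lt_def, Fin.val_succ]
    have : ((1 : Fin (d + 1)) : ℕ) = 1 := by
      have := Fin.val_one (d - 1)
      obtain ⟨d', rfl⟩ : ∃ d', d = d' + 1 := ⟨d - 1, by omega⟩
      exact Fin.val_one d'
    omega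
  have hv := key (v e) (fun c => if h : (c : ℕ) = 0 then none else some ⟨(1, c.succ), h1lt c h⟩) (by
    intro a c hac
    simp only at hac
    split_ifs at hac with h1 h2 h2
    · exact Fin.ext (by omega)
    · have h1 := Option.some_injective _ hac
      have h2 := congrArg (fun z : Q d => z.1.2) h1
      exact Fin.succ_injective _ h2) (by
    intro c
    refine ⟨fun _ => he, ?_⟩
    by_cases h : (c : ℕ) = 0
    · rw [dif_pos h]
      rfl
    · rw [dif_neg h]
      unfold grd
      simp only
      rw [if_neg (one_ne_zero' (by omega)), if_pos trivial])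
  rw [hu, hv, add_sub_add_right_eq_sub, ← mulVec_sub]
  exact TA.skew_dot hA _

theorem one_le_rank' (hd : 1 ≤ d) {S : Finset V} {x y : V} (hx : x ∈ S) (hy : y ∈ S) (hxy : x ≠ y) :
    1 ≤ genRank d (clq S) := by
  classical
  obtain ⟨p, hp⟩ := exists_mg V d
  have h1 := genRank_add hp (clq S)
  by_contra hcon
  have h2 : mo (clq S) p = d * Fintype.card V := by omega
  have h3 : Mot (clq S) p = ⊤ := by
    apply Submodule.eq_top_of_finrank_eq
    rw [finrank_all]
    exact h2
  have h4 : Pi.single x (p x - p y) ∈ Mot (clq S) p := by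
    rw [h3]
    trivial
  rw [mem_mot] at h4
  have h5 := h4 x y ⟨hxy, hx, hy⟩
  rw [Pi.single_eq_same, Pi.single_eq_of_ne hxy.symm, sub_zero, dotProduct_self_eq_zero,
    sub_eq_zero] at h5
  have h6 := hp.pos 2 ![x, y] (by omega) (by
    intro i j hij
    fin_cases i <;> fin_cases j
    · rfl
    · exact absurd hij hxy
    · exact absurd hij.symm hxy
    · rfl)
  have h7 := h6.injective (a₁ := (0 : Fin 2)) (a₂ := 1) (by simpa using h5)
  simp at h7

theorem rank_bot : genRank d (⊥ : SimpleGraph V) = 0 := by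
  obtain ⟨p, hp⟩ := exists_mg V d
  have h1 := genRank_add hp (⊥ : SimpleGraph V)
  have h2 : mo (⊥ : SimpleGraph V) p = d * Fintype.card V := by
    have h2 : Mot (⊥ : SimpleGraph V) p = ⊤ := by
      rw [eq_top_iff]
      intro q _
      rw [mem_mot]
      intro u v huv
      exact absurd huv (by simp)
    unfold mo
    rw [h2, finrank_top, finrank_all]
  omega

theorem edg_mono {R : SimpleGraph T} {gr : E → Option (Q d) → V} {ζ : E → Option (Q d) → T}
    {sw sw' : E → Prop} (h : ∀ e, sw e → sw' e) : edg R gr ζ sw ≤ edg R gr ζ sw' := by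
  rintro (x | ⟨e, ⟨⟩, s⟩) (y | ⟨e', ⟨⟩, t⟩) hxy
  · exact hxy
  · obtain ⟨q, hq, h1⟩ := hxy
    exact ⟨q, fun h2 => h _ (hq h2), h1⟩
  · obtain ⟨q, hq, h1⟩ := hxy
    exact ⟨q, fun h2 => h _ (hq h2), h1⟩
  · exact hxy

/-- **The switch.** -/
theorem mot_switch (hd : 2 ≤ d) {p : V ⊕ E × (Unit × T) → Fin d → ℝ} (hp : MG p)
    {R : SimpleGraph T} (hR : GenRigid d R) (hT : d ≤ Fintype.card T)
    {u v : E → V} {w : E → Q d → V} (huv : ∀ e, u e ≠ v e)
    (hw : ∀ e, Function.Injective (w e)) (hwu : ∀ e q, w e q ≠ u e) (hwv : ∀ e q, w e q ≠ v e)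
    {ζ : E → Option (Q d) ⊕ Fin (d + 1) → T} (hζ : ∀ e, Function.Injective (ζ e))
    (G : SimpleGraph V) (hG : ∀ x y, G.Adj x y → ∃ e, u e = x ∧ v e = y) :
    Mot (edg R (fun e => grd (u e) (v e) (w e)) (fun e q => ζ e (Sum.inl q))
      (fun e => G.Adj (u e) (v e))) p =
    Mot (up (Unit × T) E G ⊔ edg R (fun e => grd (u e) (v e) (w e)) (fun e q => ζ e (Sum.inl q))
      (fun _ => False)) p := by
  classical
  apply le_antisymm
  · intro q hq
    rw [mem_mot] at *
    intro a b hab
    rcases hab with hab | hab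
    · obtain ⟨x, y, hxy, rfl, rfl⟩ := up_adj_inv G hab
      obtain ⟨e, rfl, rfl⟩ := hG x y hxy
      exact implied hd hp hR hζ (sw := fun e => G.Adj (u e) (v e)) (e := e) hxy hq
    · exact hq a b (edg_mono (fun _ h => h.elim) hab)
  · intro q hq
    rw [mem_mot] at *
    -- one edge
    have hone : ∀ e, G.Adj (u e) (v e) →
        (p (Sum.inl (v e)) - p (Sum.inr (e, (), ζ e (Sum.inl none)))) ⬝ᵥ
          (q (Sum.inl (v e)) - q (Sum.inr (e, (), ζ e (Sum.inl none)))) = 0 := by
      intro e he
      set F0 := up (Unit × T) E (⊥ : SimpleGraph V) ⊔ edg R (fun e => grd (u e) (v e) (w e))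
        (fun e q => ζ e (Sum.inl q)) (fun _ => False) with hF0
      set F1 := edg R (fun e => grd (u e) (v e) (w e)) (fun e q => ζ e (Sum.inl q))
        (fun e' => e' = e) with hF1
      set F2 := up (Unit × T) E (clq {u e, v e}) ⊔ edg R (fun e => grd (u e) (v e) (w e))
        (fun e q => ζ e (Sum.inl q)) (fun _ => False) with hF2
      have hle : Mot F1 p ≤ Mot F2 p := by
        intro q hq
        rw [mem_mot] at *
        intro a b hab
        rcases hab with hab | hab
        · obtain ⟨x, y, ⟨hne, hx, hy⟩, rfl, rfl⟩ := up_adj_inv _ hab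
          have h1 := implied hd hp hR hζ (sw := fun e' => e' = e) (e := e) rfl hq
          rw [mem_insert, mem_singleton] at hx hy
          rcases hx with rfl | rfl <;> rcases hy with rfl | rfl
          · exact absurd rfl hne
          · exact h1
          · rw [← neg_sub (p _), ← neg_sub (q _), neg_dotProduct_neg]
            exact h1
          · exact absurd rfl hne
        · exact hq a b (edg_mono (fun _ h => h.elim) hab)
      have e0 := edge_rank (by omega) R hR hT u v w huv hw hwu hwv ζ hζ (⊥ : SimpleGraph V)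
      have e2 := edge_rank (by omega) R hR hT u v w huv hw hwu hwv ζ hζ (clq {u e, v e})
      rw [← hF0] at e0
      rw [← hF2] at e2
      have e3 := genRank_add hp F0
      have e4 := genRank_add hp F2
      have e5 : genRank d (⊥ : SimpleGraph V) = 0 := rank_bot
      have e6 := one_le_rank' (d := d) (by omega) (S := {u e, v e}) (x := u e) (y := v e) (by simp)
        (by simp) (huv e)
      have e7 := dim_drop (T := Unit) (Mot F0 p) (Mot F1 p)
        (fun _ => ef p (Sum.inl (v e)) (Sum.inr (e, (), ζ e (Sum.inl none)))) (by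
          intro q hq h
          rw [mem_mot] at *
          intro a b hab
          rcases a with x | ⟨e', ⟨⟩, s⟩ <;> rcases b with y | ⟨e'', ⟨⟩, t⟩
          · exact absurd hab (fun h => h)
          · obtain ⟨q', hq', rfl, rfl⟩ := hab
            rcases q' with _ | q'
            · obtain rfl := hq' rfl
              exact h ()
            · exact hq _ _ (Or.inr ⟨some q', by simp, rfl, rfl⟩)
          · obtain ⟨q', hq', rfl, rfl⟩ := hab
            rcases q' with _ | q'
            · obtain rfl := hq' rfl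
              have h3 := h ()
              rw [ef_comm] at h3
              exact h3
            · exact hq _ _ (Or.inr ⟨some q', by simp, rfl, rfl⟩)
          · exact hq _ _ (Or.inr hab))
      rw [Fintype.card_unit] at e7
      change mo F0 p ≤ mo F1 p + 1 at e7
      have e8 : Mot F1 p = Mot F2 p := by
        refine Submodule.eq_of_le_of_finrank_le hle ?_
        change mo F2 p ≤ mo F1 p
        omega
      have e9 : q ∈ Mot F2 p := by
        rw [mem_mot]
        intro a b hab
        rcases hab with hab | hab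
        · obtain ⟨x, y, ⟨hne, hx, hy⟩, rfl, rfl⟩ := up_adj_inv _ hab
          rw [mem_insert, mem_singleton] at hx hy
          rcases hx with rfl | rfl <;> rcases hy with rfl | rfl
          · exact absurd rfl hne
          · exact hq _ _ (Or.inl (up_adj G he))
          · exact hq _ _ (Or.inl (up_adj G he.symm))
          · exact absurd rfl hne
        · exact hq _ _ (Or.inr hab)
      rw [← e8, mem_mot] at e9
      exact e9 _ _ ⟨none, fun _ => rfl, rfl, rfl⟩
    intro a b hab
    rcases a with x | ⟨e', ⟨⟩, s⟩ <;> rcases b with y | ⟨e'', ⟨⟩, t⟩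
    · exact absurd hab (fun h => h)
    · obtain ⟨q', hq', rfl, rfl⟩ := hab
      rcases q' with _ | q'
      · exact hone e'' (hq' rfl)
      · exact hq _ _ (Or.inr ⟨some q', by simp, rfl, rfl⟩)
    · obtain ⟨q', hq', rfl, rfl⟩ := hab
      rcases q' with _ | q'
      · have h1 := hone e' (hq' rfl)
        rw [← neg_sub (p _), ← neg_sub (q _), neg_dotProduct_neg]
        exact h1
      · exact hq _ _ (Or.inr ⟨some q', by simp, rfl, rfl⟩)
    · exact hq _ _ (Or.inr hab)

/-- **The rank after replacing the edges by bodies.** -/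
theorem switch_rank (hd : 2 ≤ d) {R : SimpleGraph T} (hR : GenRigid d R) (hT : d ≤ Fintype.card T)
    {u v : E → V} {w : E → Q d → V} (huv : ∀ e, u e ≠ v e)
    (hw : ∀ e, Function.Injective (w e)) (hwu : ∀ e q, w e q ≠ u e) (hwv : ∀ e q, w e q ≠ v e)
    {ζ : E → Option (Q d) ⊕ Fin (d + 1) → T} (hζ : ∀ e, Function.Injective (ζ e))
    (G : SimpleGraph V) (hG : ∀ x y, G.Adj x y → ∃ e, u e = x ∧ v e = y) :
    genRank d (edg R (fun e => grd (u e) (v e) (w e)) (fun e q => ζ e (Sum.inl q))
      (fun e => G.Adj (u e) (v e))) = genRank d G + d * Fintype.card (E × (Unit × T)) := by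
  obtain ⟨p, hp⟩ := exists_mg (V ⊕ E × (Unit × T)) d
  have h1 := genRank_add hp (edg R (fun e => grd (u e) (v e) (w e)) (fun e q => ζ e (Sum.inl q))
      (fun e => G.Adj (u e) (v e)))
  have h2 := genRank_add hp (up (Unit × T) E G ⊔ edg R (fun e => grd (u e) (v e) (w e))
    (fun e q => ζ e (Sum.inl q)) (fun _ => False))
  have h3 := edge_rank (by omega) R hR hT u v w huv hw hwu hwv ζ hζ G
  have h4 := mot_switch hd hp hR hT huv hw hwu hwv hζ G hG
  unfold mo at h1 h2
  rw [h4] at h1
  omega

end Pool.Agent.H557.RG
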