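import Mathlib
import Pool.Agent.H557.RG.Switch

/-!
# Reduction of generic rigidity to bipartite highly connected graphs of large girth
-/

set_option autoImplicit false
set_option linter.unusedSectionVars false

namespace Pool.Agent.H557.RG

open Matrix Finset Pool.Agent.H283R2.DR Pool.Agent.H789R5

theorem KConnected.mono {V : Type} {G : SimpleGraph V} {k k' : ℕ} (h : KConnected k G)
    (hk : k' ≤ k) : KConnected k' G := fun S hS => h S (lt_of_lt_of_le hS hk)

section girth

variable {V T E : Type} {d g : ℕ}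

theorem edg_girth [Nonempty T] {R : SimpleGraph T} (hR : NoShort g R) (gr : E → Option (Q d) → V)
    {ζ : E → Option (Q d) → T} (hζ : ∀ e, Function.Injective (ζ e))
    (hfar : ∀ e, Far g R (ζ e)) (sw : E → Prop) : NoCyc g (edg R gr ζ sw) := by
  classical
  obtain ⟨t0⟩ := ‹Nonempty T›
  let pj : V ⊕ E × (Unit × T) → T := Sum.elim (fun _ => t0) (fun z => z.2.2)
  have hwk : ∀ e (x : ℕ → V ⊕ E × (Unit × T)) l,
      (∀ n ≤ l, x n ∈ {y | ∃ t, y = Sum.inr (e, (), t)}) →
      Wk (edg R gr ζ sw) x l → (∀ n ≤ l, x n = Sum.inr (e, (), pj (x n))) ∧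
      Wk R (fun n => pj (x n)) l := by
    intro e x l hx hw
    have h1 : ∀ n ≤ l, x n = Sum.inr (e, (), pj (x n)) := by
      intro n hn
      obtain ⟨t, ht⟩ := hx n hn
      rw [ht]
      rfl
    refine ⟨h1, ?_⟩
    intro n hn
    have h2 := hw n hn
    rw [h1 n (by omega), h1 (n + 1) (by omega)] at h2
    exact h2.2
  have hout : ∀ e s w, (edg R gr ζ sw).Adj (Sum.inr (e, (), s)) w →
      w ∉ {y | ∃ t, y = Sum.inr (e, (), t)} → ∃ j, s = ζ e j ∧ w = Sum.inl (gr e j) := by
    intro e s w hw hw'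
    rcases w with v | ⟨c', ⟨⟩, t⟩
    · obtain ⟨q, -, rfl, rfl⟩ := hw
      exact ⟨q, rfl, rfl⟩
    · obtain ⟨rfl, h⟩ := hw
      exact absurd ⟨t, rfl⟩ hw'
  refine glue_girth (I := E) _ g (fun e => {y | ∃ t, y = Sum.inr (e, (), t)}) ?_ ?_ ?_ ?_
  · rintro e x l hl hlg hx hw hnb h0
    obtain ⟨h1, h2⟩ := hwk e x l hx hw
    refine hR (fun n => pj (x n)) l hl hlg h2 (fun n hn hn' => hnb n hn ?_) ?_
    · rw [h1 n (by omega), h1 (n + 2) (by omega)]
      have hn'' : pj (x n) = pj (x (n + 2)) := hn'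
      rw [hn'']
    · show pj (x 0) = pj (x l)
      rw [h0]
  · rintro e _ ⟨s, rfl⟩ y z hy hz hy' hz'
    obtain ⟨j, hj, rfl⟩ := hout e s y hy hy'
    obtain ⟨j', hj', rfl⟩ := hout e s z hz hz'
    rw [hj] at hj'
    rw [hζ e hj']
  · rintro e x l hx hw hne ⟨y, hy, hy'⟩ ⟨z, hz, hz'⟩
    obtain ⟨h1, h2⟩ := hwk e x l hx hw
    rw [h1 0 (by omega)] at hy'
    rw [h1 l le_rfl] at hz'
    obtain ⟨j, hj, -⟩ := hout _ _ _ hy' hy
    obtain ⟨k, hk, -⟩ := hout _ _ _ hz' hz
    refine hfar e j k ?_ (fun n => pj (x n)) l h2 hj hk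
    rintro rfl
    apply hne
    rw [h1 0 (by omega), h1 l le_rfl, hj, hk]
  · intro x l hl hlg hx hadj hper hnb
    have h1 : ∀ n, ∃ v, x n = Sum.inl v := by
      intro n
      rcases hxn : x n with v | ⟨e, ⟨⟩, t⟩
      · exact ⟨v, rfl⟩
      · exact absurd ⟨t, hxn⟩ (hx n e)
    obtain ⟨v, hv⟩ := h1 0
    obtain ⟨w, hw⟩ := h1 1
    have h2 := hadj 0
    rw [hv, hw] at h2
    exact h2

end girth

/-- **The reduction.** -/
theorem mainE (d k g : ℕ) (hd : 2 ≤ d) : ∃ c₀ : ℕ, ∀ n : ℕ, d * (d + 1) ≤ n + 1 →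
    ∃ (U : Type) (_ : Fintype U) (A : SimpleGraph U) (b : Fin n → Fin n → Sym2 U),
      Fintype.card U ≤ c₀ * n ^ 2 ∧
      (∀ x y x' y', x ≠ y → x' ≠ y' → b x y = b x' y' → x = x' ∧ y = y') ∧
      (∀ x y, x ≠ y → b x y ∉ A.edgeSet ∧ ¬ (b x y).IsDiag) ∧
      ∀ (G : SimpleGraph (Fin n)) (H : SimpleGraph U),
        H = A ⊔ SimpleGraph.fromEdgeSet {e | ∃ x y, G.Adj x y ∧ e = b x y} →
        KConnected (d * (d + 1) - 1) H ∧ (∀ x, k ≤ (H.neighborSet x).ncard) ∧ H.IsBipartite ∧
        (g : ℕ∞) ≤ H.egirth ∧ genRank d H + d * n = genRank d G + d * Fintype.card U ∧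
        (GenRigid d H ↔ GenRigid d G) := by
  classical
  have h6 : 6 ≤ d * (d + 1) := by nlinarith
  obtain ⟨K, hK⟩ : ∃ K, K = d * (d + 1) - 1 := ⟨_, rfl⟩
  obtain ⟨N, hN⟩ : ∃ N, N = Fintype.card (Option (Fin K) ⊕ Fin (d + 1)) +
    Fintype.card (Option (Q d) ⊕ Fin (d + 1)) := ⟨_, rfl⟩
  obtain ⟨f1⟩ : Nonempty (Option (Fin K) ⊕ Fin (d + 1) ↪ Fin N) :=
    Function.Embedding.nonempty_of_card_le (by rw [Fintype.card_fin]; omega)
  obtain ⟨f2⟩ : Nonempty (Option (Q d) ⊕ Fin (d + 1) ↪ Fin N) :=
    Function.Embedding.nonempty_of_card_le (by rw [Fintype.card_fin]; omega)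
  obtain ⟨T, hTf, R, c, e, he, hR, hRc, hRk, hcol, hce, hshort, hfar⟩ := exists_body d k g N
  have hTcard : d ≤ Fintype.card T := by
    have h1 := Fintype.card_le_of_injective (fun z => e (f1 z, true)) (fun a b hab => by
      have := he hab
      simp only [Prod.mk.injEq, and_true] at this
      exact f1.injective this)
    rw [Fintype.card_sum, Fintype.card_fin] at h1
    omega
  have hTne : Nonempty T := Fintype.card_pos_iff.1 (by omega)
  refine ⟨(1 + Fintype.card T) * (1 + K * (K + k) * (K * Fintype.card T)), ?_⟩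
  intro n hn
  have hKn : K ≤ n := by omega
  -- the pairs
  let E : Type := {x : Fin n × Fin n // x.1 ≠ x.2}
  have hw : ∀ p : E, ∃ w : Q d → Fin n, Function.Injective w ∧ (∀ q, w q ≠ p.1.1) ∧
      (∀ q, w q ≠ p.1.2) := by
    rintro ⟨⟨x, y⟩, hxy⟩
    have h1 : Fintype.card (Q d) ≤ Fintype.card (({x, y} : Finset (Fin n))ᶜ : Finset (Fin n)) := by
      rw [Fintype.card_coe, card_compl, Fintype.card_fin, card_pair hxy, card_Q]
      omega
    obtain ⟨w⟩ := Function.Embedding.nonempty_of_card_le h1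
    refine ⟨fun q => w q, fun a b hab => w.injective (Subtype.ext hab), ?_, ?_⟩
    · intro q h
      have h2 := (w q).2
      rw [mem_compl, mem_insert, not_or] at h2
      exact h2.1 h
    · intro q h
      have h2 := (w q).2
      rw [mem_compl, mem_insert, mem_singleton, not_or] at h2
      exact h2.2 h
  choose w hwinj hwu hwv using hw
  let gr : E → Option (Q d) → Fin n := fun p => grd p.1.1 p.1.2 (w p)
  let ζE : E → Option (Q d) ⊕ Fin (d + 1) → T := fun _ z => e (f2 z, true)
  have hζE : ∀ p, Function.Injective (ζE p) := by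
    intro p a b hab
    have := he hab
    simp only [Prod.mk.injEq, and_true] at this
    exact f2.injective this
  let edgG : (E → Prop) → SimpleGraph (Fin n ⊕ E × (Unit × T)) := fun sw =>
    edg R gr (fun p q => ζE p (Sum.inl q)) sw
  let hub : Fin K → Fin n ⊕ E × (Unit × T) := fun i => Sum.inl (Fin.castLE hKn i)
  have hhub : Function.Injective hub := fun a b hab => Fin.castLE_injective hKn
    (Sum.inl_injective hab)
  let col1 : Fin n ⊕ E × (Unit × T) → Bool := Sum.elim (fun _ => false) (fun z => c z.2.2)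
  let C : Type := (Fin n ⊕ E × (Unit × T)) × Fin K × Fin (K + k)
  let β : C → Fin K → Option (Fin K) ⊕ Fin (d + 1) → Bool := fun cc i z => match z with
    | Sum.inl none => !(col1 (gam hub cc i))
    | Sum.inl (some j) => decide (i < j)
    | Sum.inr _ => false
  let ζ2 : C → Fin K → Option (Fin K) ⊕ Fin (d + 1) → T := fun cc i z => e (f1 z, β cc i z)
  have hζ2 : ∀ cc i, Function.Injective (ζ2 cc i) := by
    intro cc i a b hab
    exact f1.injective (congrArg Prod.fst (he hab))
  let X : SimpleGraph ((Fin n ⊕ E × (Unit × T)) ⊕ C × (Fin K × T)) :=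
    ext R (gam hub) (fun cc i z => ζ2 cc i (Sum.inl z))
  let Hh : SimpleGraph (Fin n) → SimpleGraph ((Fin n ⊕ E × (Unit × T)) ⊕ C × (Fin K × T)) :=
    fun G => up (Fin K × T) C (edgG fun p => G.Adj p.1.1 p.1.2) ⊔ X
  let bb : Fin n → Fin n → Sym2 ((Fin n ⊕ E × (Unit × T)) ⊕ C × (Fin K × T)) := fun x y =>
    if h : x ≠ y then s(Sum.inl (Sum.inl y),
      Sum.inl (Sum.inr (⟨(x, y), h⟩, (), ζE ⟨(x, y), h⟩ (Sum.inl none))))
    else s(Sum.inl (Sum.inl x), Sum.inl (Sum.inl x))
  have hbb : ∀ x y (h : x ≠ y), bb x y = s(Sum.inl (Sum.inl y),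
      Sum.inl (Sum.inr (⟨(x, y), h⟩, (), ζE ⟨(x, y), h⟩ (Sum.inl none)))) := by
    intro x y h
    simp only [bb]
    rw [dif_pos h]
  refine ⟨(Fin n ⊕ E × (Unit × T)) ⊕ C × (Fin K × T), inferInstance,
    up (Fin K × T) C (edgG fun _ => False) ⊔ X, bb, ?_, ?_, ?_, ?_⟩
  · -- the number of vertices
    have h1 : Fintype.card E ≤ n * n := by
      refine (Fintype.card_subtype_le _).trans ?_
      rw [Fintype.card_prod, Fintype.card_fin]
    have h2 : Fintype.card (Fin n ⊕ E × (Unit × T)) ≤ (1 + Fintype.card T) * n ^ 2 := by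
      rw [Fintype.card_sum, Fintype.card_fin, Fintype.card_prod, Fintype.card_prod,
        Fintype.card_unit, one_mul]
      have h3 : Fintype.card E * Fintype.card T ≤ n * n * Fintype.card T :=
        Nat.mul_le_mul_right _ h1
      have h4 : n ≤ n * n := Nat.le_mul_self n
      nlinarith
    have h5 : Fintype.card ((Fin n ⊕ E × (Unit × T)) ⊕ C × (Fin K × T)) =
        Fintype.card (Fin n ⊕ E × (Unit × T)) * (1 + K * (K + k) * (K * Fintype.card T)) := by
      rw [Fintype.card_sum, Fintype.card_prod (α := C)]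
      have h6 : Fintype.card C = Fintype.card (Fin n ⊕ E × (Unit × T)) * (K * (K + k)) := by
        simp only [C, Fintype.card_prod, Fintype.card_fin]
      rw [h6, Fintype.card_prod, Fintype.card_fin]
      ring
    rw [h5]
    calc Fintype.card (Fin n ⊕ E × (Unit × T)) * (1 + K * (K + k) * (K * Fintype.card T))
        ≤ (1 + Fintype.card T) * n ^ 2 * (1 + K * (K + k) * (K * Fintype.card T)) :=
          Nat.mul_le_mul_right _ h2
      _ = _ := by ring
  · intro x y x' y' hxy hxy' hb
    rw [hbb x y hxy, hbb x' y' hxy', Sym2.eq_iff] at hb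
    rcases hb with ⟨-, hb⟩ | ⟨hb, -⟩
    · have h3 := congrArg Prod.fst (Sum.inr_injective (Sum.inl_injective hb))
      have h4 : (x, y) = (x', y') := congrArg Subtype.val h3
      exact ⟨congrArg Prod.fst h4, congrArg Prod.snd h4⟩
    · simp at hb
  · intro x y hxy
    rw [hbb x y hxy]
    refine ⟨?_, by simp⟩
    rw [SimpleGraph.mem_edgeSet]
    rintro (h | h)
    · obtain ⟨a, b', hab, h1, h2⟩ := up_adj_inv _ h
      have h1' := Sum.inl_injective h1
      have h2' := Sum.inl_injective h2
      subst h1'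
      subst h2'
      obtain ⟨q, hq, -, h3⟩ := hab
      have h4 := Sum.inl_injective (hζE ⟨(x, y), hxy⟩ h3)
      exact hq h4.symm
    · exact h
  · intro G H hH
    have hHG : H = Hh G := by
      rw [hH]
      ext a b'
      constructor
      · rintro ((h | h) | h)
        · obtain ⟨a, b', hab, rfl, rfl⟩ := up_adj_inv _ h
          exact Or.inl (up_adj _ (edg_mono (fun _ h => h.elim) hab))
        · exact Or.inr h
        · rw [SimpleGraph.fromEdgeSet_adj] at h
          obtain ⟨⟨x, y, hxy, h⟩, -⟩ := h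
          rw [hbb x y hxy.ne] at h
          have h1 : (Hh G).Adj (Sum.inl (Sum.inl y)) (Sum.inl (Sum.inr (⟨(x, y), hxy.ne⟩, (),
              ζE ⟨(x, y), hxy.ne⟩ (Sum.inl none)))) :=
            Or.inl (up_adj _ ⟨none, fun _ => hxy, rfl, rfl⟩)
          rw [Sym2.eq_iff] at h
          rcases h with ⟨rfl, rfl⟩ | ⟨rfl, rfl⟩
          · exact h1
          · exact h1.symm
      · rintro (h | h)
        · obtain ⟨a, b', hab, rfl, rfl⟩ := up_adj_inv _ h
          rcases a with x | ⟨p, ⟨⟩, s⟩ <;> rcases b' with y | ⟨p', ⟨⟩, t⟩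
          · exact absurd hab (fun h => h)
          · obtain ⟨q, hq, rfl, rfl⟩ := hab
            rcases q with _ | q
            · right
              rw [SimpleGraph.fromEdgeSet_adj]
              refine ⟨⟨p'.1.1, p'.1.2, hq rfl, ?_⟩, by simp⟩
              rw [hbb _ _ p'.2]
              rfl
            · exact Or.inl (Or.inl (up_adj _ ⟨some q, by simp, rfl, rfl⟩))
          · obtain ⟨q, hq, rfl, rfl⟩ := hab
            rcases q with _ | q
            · right
              rw [SimpleGraph.fromEdgeSet_adj]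
              refine ⟨⟨p.1.1, p.1.2, hq rfl, ?_⟩, by simp⟩
              rw [hbb _ _ p.2, Sym2.eq_swap]
              rfl
            · exact Or.inl (Or.inl (up_adj _ ⟨some q, by simp, rfl, rfl⟩))
          · exact Or.inl (Or.inl (up_adj _ hab))
        · exact Or.inl (Or.inr h)
    have hKc : Fintype.card (Fin K) = K := Fintype.card_fin K
    have h1 := explicit hd (V := Fin n ⊕ E × (Unit × T)) (B := Fin K) (P := Fin (K + k)) (T := T)
      (R := R) (hub := hub) (ζ := ζ2) (by rw [hKc]; omega) (by rw [hKc, Fintype.card_fin]; omega)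
      hhub hζ2 hR (hRc.mono (by rw [hKc]; omega)) (edgG fun p => G.Adj p.1.1 p.1.2)
    have h2 := switch_rank hd hR hTcard (u := fun p : E => p.1.1) (v := fun p : E => p.1.2)
      (w := w) (fun p => p.2) hwinj hwu hwv (ζ := ζE) hζE G
      (fun x y hxy => ⟨⟨(x, y), hxy.ne⟩, rfl, rfl⟩)
    rw [hKc] at h1
    obtain ⟨h1a, h1b, -⟩ := h1
    have hrank : genRank d H + d * n = genRank d G +
        d * Fintype.card ((Fin n ⊕ E × (Unit × T)) ⊕ C × (Fin K × T)) := by
      rw [hHG]
      have h3 : genRank d (Hh G) = genRank d (edgG fun p => G.Adj p.1.1 p.1.2) +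
        d * Fintype.card (C × (Fin K × T)) := h1b
      have h4 : genRank d (edgG fun p => G.Adj p.1.1 p.1.2) =
        genRank d G + d * Fintype.card (E × (Unit × T)) := h2
      rw [h3, h4, Fintype.card_sum, Fintype.card_sum, Fintype.card_fin, mul_add, mul_add]
      omega
    have hdK : d ≤ K := by
      have : d * 3 ≤ d * (d + 1) := Nat.mul_le_mul_left d (by omega)
      omega
    refine ⟨?_, ?_, ?_, ?_, hrank, ?_⟩
    · rw [hHG, ← hK]
      exact h1a
    · rw [hHG]
      rintro (v | ⟨cc, i, s⟩)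
      · have h3 := base_deg R hub (fun cc i z => ζ2 cc i (Sum.inl z)) (⟨0, by omega⟩ : Fin K) v
        rw [Fintype.card_fin] at h3
        refine le_trans (le_trans (by omega) h3) (Set.ncard_le_ncard ?_ (Set.toFinite _))
        intro z hz
        exact Or.inr hz
      · refine (hRk s).trans ?_
        have h7 : Function.Injective (fun t : T => (Sum.inr (cc, i, t) :
            (Fin n ⊕ E × (Unit × T)) ⊕ C × (Fin K × T))) := by
          intro t t' h
          simpa using h
        rw [← Set.ncard_image_of_injective _ h7]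
        refine Set.ncard_le_ncard ?_ (Set.toFinite _)
        rintro _ ⟨t, ht, rfl⟩
        exact Or.inr ⟨rfl, Or.inl ⟨rfl, ht⟩⟩
    · rw [hHG]
      let col : (Fin n ⊕ E × (Unit × T)) ⊕ C × (Fin K × T) → Bool :=
        Sum.elim col1 (fun z => c z.2.2)
      have hc : ∀ a b', (Hh G).Adj a b' → col a ≠ col b' := by
        rintro a b' (h | h)
        · obtain ⟨a, b', hab, rfl, rfl⟩ := up_adj_inv _ h
          rcases a with x | ⟨p, ⟨⟩, s⟩ <;> rcases b' with y | ⟨p', ⟨⟩, t⟩
          · exact absurd hab (fun h => h)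
          · obtain ⟨q, hq, rfl, rfl⟩ := hab
            show false ≠ c (e (f2 (Sum.inl q), true))
            rw [hce]
            decide
          · obtain ⟨q, hq, rfl, rfl⟩ := hab
            show c (e (f2 (Sum.inl q), true)) ≠ false
            rw [hce]
            decide
          · exact hcol _ _ hab.2
        · rcases a with x | ⟨cc, i, s⟩ <;> rcases b' with y | ⟨cc', j, t⟩
          · exact absurd h (fun h => h)
          · obtain ⟨rfl, rfl⟩ := h
            show col1 (gam hub cc' j) ≠ c (e (f1 (Sum.inl none), !(col1 (gam hub cc' j))))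
            rw [hce]
            cases col1 (gam hub cc' j) <;> decide
          · obtain ⟨rfl, rfl⟩ := h
            show c (e (f1 (Sum.inl none), !(col1 (gam hub cc i)))) ≠ col1 (gam hub cc i)
            rw [hce]
            cases col1 (gam hub cc i) <;> decide
          · obtain ⟨rfl, ⟨rfl, h⟩ | ⟨hij, rfl, rfl⟩⟩ := h
            · exact hcol _ _ h
            · show c (e (f1 (Sum.inl (some j)), decide (i < j))) ≠
                c (e (f1 (Sum.inl (some i)), decide (j < i)))
              rw [hce, hce]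
              rcases lt_or_gt_of_ne hij with h | h
              · rw [decide_eq_true h, decide_eq_false h.asymm]
                decide
              · rw [decide_eq_true h, decide_eq_false h.asymm]
                decide
      have h3 := (SimpleGraph.Coloring.mk col (fun {a b'} h => hc a b' h)).colorable
      rw [Fintype.card_bool] at h3
      exact h3
    · rw [hHG]
      refine NoCyc.girth ?_
      refine ext_girth hshort (gam hub) (ζ := fun cc i z => ζ2 cc i (Sum.inl z))
        (fun cc i x y hxy => Sum.inl_injective (hζ2 cc i hxy)) ?_ ?_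
      · intro cc i z z' hz x l hx h0 hl
        refine hfar (f1 (Sum.inl z), β cc i (Sum.inl z)) (f1 (Sum.inl z'), β cc i (Sum.inl z')) ?_
          x l hx h0 hl
        intro h
        exact hz (Sum.inl_injective (f1.injective (congrArg Prod.fst h)))
      · refine edg_girth hshort gr (ζ := fun p q => ζE p (Sum.inl q))
          (fun p x y hxy => Sum.inl_injective (hζE p hxy)) ?_ _
        intro p z z' hz x l hx h0 hl
        refine hfar (f2 (Sum.inl z), true) (f2 (Sum.inl z'), true) ?_ x l hx h0 hl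
        intro h
        exact hz (Sum.inl_injective (f2.injective (congrArg Prod.fst h)))
    · refine genRigid_iff_of_rank (by rw [Fintype.card_fin]; omega) ?_ ?_
      · rw [Fintype.card_sum, Fintype.card_sum, Fintype.card_fin]
        omega
      · rw [Fintype.card_fin]
        exact hrank

end Pool.Agent.H557.RG
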